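import Pool.Agent.Lib_helper74.CKF.Basic

set_option autoImplicit false

namespace Pool.Agent.CK

theorem enum_prog (c : Cmd) (k : ℕ) : prog (Nat.pair (Encodable.encode c) k) = c := by
  unfold prog
  rw [Nat.unpair_pair, Encodable.encodek]
  rfl

theorem enum_ex (c : Cmd) (k : ℕ) : ex (Nat.pair (Encodable.encode c) k) = k := by
  unfold ex
  rw [Nat.unpair_pair]

theorem enum_accB (O : Lang) (c : Cmd) (x y : List Bool) (t : ℕ) :
    accB O c x y t = true ↔ Accepts O c x y t := by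
  unfold accB Accepts
  rw [Bool.and_eq_true, List.isEmpty_iff, beq_iff_eq]

/-- ENUM -/
theorem exists_PL {O L : Lang} (h : InP O L) : ∃ i, PL i O = L := by
  obtain ⟨c, k, h⟩ := h
  refine ⟨Nat.pair (Encodable.encode c) k, ?_⟩
  funext x
  unfold PL
  rw [enum_prog, enum_ex]
  have h1 := (h x).2
  rw [← enum_accB] at h1
  exact Bool.eq_iff_iff.2 h1

/-- ENUM -/
theorem exists_NL {O L : Lang} (h : InNP O L) : ∃ i, NL i O = L := by
  classical
  obtain ⟨c, k, -, h⟩ := h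
  refine ⟨Nat.pair (Encodable.encode c) k, ?_⟩
  funext x
  unfold NL
  rw [enum_prog, enum_ex]
  have h1 := h x
  apply Bool.eq_iff_iff.2
  rw [decide_eq_true_eq, h1]
  constructor
  · rintro ⟨y, h2, h3⟩
    exact ⟨y, h2, (enum_accB _ _ _ _ _).1 h3⟩
  · rintro ⟨y, h2, h3⟩
    exact ⟨y, h2, (enum_accB _ _ _ _ _).2 h3⟩

theorem enum_pow (c : ℕ) : ∀ᶠ b : ℕ in Filter.atTop, (b + 2) ^ c ≤ 2 ^ b := by
  have h1 : Filter.Tendsto (fun n : ℕ => ((n : ℝ)) ^ c / 2 ^ n) Filter.atTop (nhds 0) :=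
    tendsto_pow_const_div_const_pow_of_one_lt c (by norm_num)
  have h2 : Filter.Tendsto (fun n : ℕ => (((n + 2 : ℕ) : ℝ)) ^ c / 2 ^ (n + 2)) Filter.atTop
      (nhds 0) := h1.comp (Filter.tendsto_add_atTop_nat 2)
  have h3 := h2.eventually (gt_mem_nhds (show (0 : ℝ) < 1 / 4 by norm_num))
  filter_upwards [h3] with b hb
  have h4 : (0 : ℝ) < 2 ^ (b + 2) := by positivity
  rw [div_lt_iff₀ h4] at hb
  have h5 : (((b + 2) ^ c : ℕ) : ℝ) ≤ ((2 ^ b : ℕ) : ℝ) := by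
    push_cast
    push_cast at hb
    have h6 : (2 : ℝ) ^ (b + 2) = 4 * 2 ^ b := by ring
    rw [h6] at hb
    linarith
  exact_mod_cast h5

/-- ENUM -/
theorem exists_index (i j l a : ℕ) :
    ∃ e, iC e = i ∧ iM e = j ∧ iN e = l ∧ a ≤ ia e ∧ Adeq e := by
  obtain ⟨b, hb1, hb2, hb3⟩ := ((enum_pow (2 * (i + 3))).and
    ((Filter.eventually_ge_atTop a).and
      (Filter.eventually_ge_atTop ((2 * l + 3) * (i + 3) * (j + 3))))).exists
  set e := Nat.pair i (Nat.pair j (Nat.pair l b)) with he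
  have h1 : iC e = i := by unfold iC; rw [he, Nat.unpair_pair]
  have h2 : iM e = j := by unfold iM; rw [he, Nat.unpair_pair, Nat.unpair_pair]
  have h3 : iN e = l := by
    unfold iN; rw [he, Nat.unpair_pair, Nat.unpair_pair, Nat.unpair_pair]
  have h4 : ia e = b := by
    unfold ia; rw [he, Nat.unpair_pair, Nat.unpair_pair, Nat.unpair_pair]
  have h5 : b ≤ e := (Nat.right_le_pair l b).trans
    ((Nat.right_le_pair j _).trans (Nat.right_le_pair i _))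
  refine ⟨e, h1, h2, h3, by rw [h4]; exact hb2, ?_, ?_⟩
  · rw [h1, h2, h3]; omega
  · rw [h1, h4]
    exact hb1.trans (Nat.pow_le_pow_right (by norm_num) h5)

/-- NUM5 -/
theorem num_zone (k : ℕ) : ∃ n0, ∀ n ≥ n0, n + (n + 2) ^ k < n ^ (k + 2) ∧
    2 * n + 2 < n ^ (k + 2) ∧ 2 ^ (k + 2) ≤ n := by
  refine ⟨2 ^ (k + 2), fun n hn => ?_⟩
  have h4 : 4 ≤ n := by
    calc 4 = 2 ^ 2 := by norm_num
      _ ≤ 2 ^ (k + 2) := Nat.pow_le_pow_right (by norm_num) (by omega)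
      _ ≤ n := hn
  have h0 : 1 ≤ n ^ k := Nat.one_le_pow _ _ (by omega)
  have h1 : (n + 2) ^ k ≤ 2 ^ k * n ^ k := by
    rw [← mul_pow]
    exact Nat.pow_le_pow_left (by omega) k
  have h2 : 4 * 2 ^ k ≤ n := by
    have : 2 ^ (k + 2) = 4 * 2 ^ k := by ring
    omega
  have h3 : n ^ (k + 2) = n * n * n ^ k := by ring
  have h5 : 4 * ((n + 2) ^ k) ≤ n * n ^ k := by
    calc 4 * ((n + 2) ^ k) ≤ 4 * (2 ^ k * n ^ k) := Nat.mul_le_mul_left _ h1
      _ = (4 * 2 ^ k) * n ^ k := by ring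
      _ ≤ n * n ^ k := Nat.mul_le_mul_right _ h2
  have h6 : n ≤ n * n ^ k := Nat.le_mul_of_pos_right _ (by omega)
  have h7 : 4 * (n * n ^ k) ≤ n * n * n ^ k := by
    calc 4 * (n * n ^ k) ≤ n * (n * n ^ k) := Nat.mul_le_mul_right _ h4
      _ = n * n * n ^ k := by ring
  refine ⟨?_, ?_, hn⟩
  · rw [h3]; omega
  · rw [h3]; omega

end Pool.Agent.CK
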