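import Pool.Agent.Lib_helper74.CKF.Basic

set_option autoImplicit false

namespace Pool.Agent.CK

theorem num2_iN_le (e : ℕ) : iN e ≤ e :=
  (Nat.unpair_left_le _).trans ((Nat.unpair_right_le _).trans (Nat.unpair_right_le _))

theorem num2_e_pos {e : ℕ} (he : Adeq e) : 1 ≤ e := by
  have h := he.1
  have : 0 < (2 * iN e + 3) * (iC e + 3) * (iM e + 3) := by positivity
  omega

/-- NUM2 -/
theorem num_groups (k : ℕ) : ∃ R : ℕ, ∀ n, 2 ≤ n → ∃ G : Finset (ℕ × ℕ), G.card ≤ R ∧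
    (∀ g ∈ G, g.2 ≤ k ∧ Adeq g.2) ∧
    ∀ e z, e ≤ k → Adeq e → n ≤ (z.length + 2) ^ (iN e + 3) → alen e z < n ^ (k + 2) →
      ∃ t, (t, e) ∈ G ∧ z ∈ ZS k n t e := by
  classical
  refine ⟨(2 * k + 9) * (k + 1), fun n hn => ?_⟩
  set Λ := Nat.log 2 n with hΛ
  set s := Nat.log 2 Λ with hs
  have hΛ1 : 2 ^ Λ ≤ n := Nat.pow_log_le_self 2 (by omega)
  have hΛ2 : n < 2 ^ (Λ + 1) := Nat.lt_pow_succ_log_self (by norm_num) n
  have hΛpos : 1 ≤ Λ := by
    by_contra h
    have : Λ = 0 := by omega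
    rw [this] at hΛ2
    norm_num at hΛ2
    omega
  have hs1 : 2 ^ s ≤ Λ := Nat.pow_log_le_self 2 (by omega)
  have hs2 : Λ < 2 ^ (s + 1) := Nat.lt_pow_succ_log_self (by norm_num) Λ
  refine ⟨((Finset.range (2 * k + 9)).image (fun i => s + 1 + i - (k + 5))) ×ˢ
    ((Finset.range (k + 1)).filter Adeq), ?_, ?_, ?_⟩
  · rw [Finset.card_product]
    apply Nat.mul_le_mul
    · exact Finset.card_image_le.trans (by simp)
    · exact (Finset.card_filter_le _ _).trans (by simp)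
  · intro g hg
    rw [Finset.mem_product, Finset.mem_filter, Finset.mem_range] at hg
    exact ⟨by omega, hg.2.2⟩
  · intro e z hek he h1 h2
    set a := z.length + 2 with ha
    set L := Nat.log 2 a with hL
    set t := Nat.log 2 L with ht
    have hL1 : 2 ^ L ≤ a := Nat.pow_log_le_self 2 (by omega)
    have hL2 : a < 2 ^ (L + 1) := Nat.lt_pow_succ_log_self (by norm_num) a
    have hLpos : 1 ≤ L := by
      by_contra h
      have : L = 0 := by omega
      rw [this] at hL2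
      norm_num at hL2
      omega
    have ht1 : 2 ^ t ≤ L := Nat.pow_log_le_self 2 (by omega)
    have ht2 : L < 2 ^ (t + 1) := Nat.lt_pow_succ_log_self (by norm_num) L
    have hiN := num2_iN_le e
    -- n is small compared with a power of a
    have h3 : n ≤ a ^ (k + 3) := h1.trans (Nat.pow_le_pow_right (by omega) (by omega))
    have h4 : 2 ^ Λ < 2 ^ ((L + 1) * (k + 3)) := by
      calc 2 ^ Λ ≤ n := hΛ1
        _ ≤ a ^ (k + 3) := h3
        _ < (2 ^ (L + 1)) ^ (k + 3) := Nat.pow_lt_pow_left hL2 (by omega)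
        _ = 2 ^ ((L + 1) * (k + 3)) := by rw [← pow_mul]
    have h5 : Λ < (L + 1) * (k + 3) := (Nat.pow_lt_pow_iff_right (by norm_num)).1 h4
    have h6 : a < n ^ (k + 2) := by
      refine lt_of_le_of_lt ?_ h2
      have hep := num2_e_pos he
      have : 1 ≤ e ^ 2 := Nat.one_le_pow _ _ hep
      calc a = a ^ 1 := (pow_one a).symm
        _ ≤ a ^ (e ^ 2) := Nat.pow_le_pow_right (by omega) this
    have h7 : 2 ^ L < 2 ^ ((Λ + 1) * (k + 2)) := by
      calc 2 ^ L ≤ a := hL1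
        _ < n ^ (k + 2) := h6
        _ ≤ (2 ^ (Λ + 1)) ^ (k + 2) := Nat.pow_le_pow_left hΛ2.le _
        _ = 2 ^ ((Λ + 1) * (k + 2)) := by rw [← pow_mul]
    have h8 : L < (Λ + 1) * (k + 2) := (Nat.pow_lt_pow_iff_right (by norm_num)).1 h7
    have hk2 : k + 2 < 2 ^ (k + 2) := Nat.lt_two_pow_self
    have hk3 : k + 3 < 2 ^ (k + 3) := Nat.lt_two_pow_self
    have h9 : t < s + k + 4 := by
      rw [← Nat.pow_lt_pow_iff_right (a := 2) (by norm_num)]
      calc 2 ^ t ≤ L := ht1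
        _ < (Λ + 1) * (k + 2) := h8
        _ ≤ (2 ^ (s + 1)) * (2 ^ (k + 2)) := Nat.mul_le_mul hs2 hk2.le
        _ = 2 ^ (s + k + 3) := by rw [← pow_add]; congr 1; ring
        _ ≤ 2 ^ (s + k + 4) := Nat.pow_le_pow_right (by norm_num) (by omega)
    have h10 : s < t + k + 5 := by
      rw [← Nat.pow_lt_pow_iff_right (a := 2) (by norm_num)]
      calc 2 ^ s ≤ Λ := hs1
        _ < (L + 1) * (k + 3) := h5
        _ ≤ (2 ^ (t + 1)) * (2 ^ (k + 3)) := Nat.mul_le_mul ht2 hk3.le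
        _ = 2 ^ (t + k + 4) := by rw [← pow_add]; congr 1; ring
        _ ≤ 2 ^ (t + k + 5) := Nat.pow_le_pow_right (by norm_num) (by omega)
    refine ⟨t, ?_, ?_, ?_, h1, h2⟩
    · rw [Finset.mem_product, Finset.mem_image, Finset.mem_filter, Finset.mem_range]
      refine ⟨⟨t + k + 5 - (s + 1), ?_, ?_⟩, ?_, he⟩
      · rw [Finset.mem_range]; omega
      · show s + 1 + (t + k + 5 - (s + 1)) - (k + 5) = t
        omega
      · show e < k + 1
        omega
    · calc 2 ^ 2 ^ t ≤ 2 ^ L := Nat.pow_le_pow_right (by norm_num) ht1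
        _ ≤ z.length + 2 := hL1
    · calc z.length + 2 < 2 ^ (L + 1) := hL2
        _ ≤ 2 ^ 2 ^ (t + 1) := Nat.pow_le_pow_right (by norm_num) ht2

end Pool.Agent.CK
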