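import Pool.Agent.Lib_helper74.CKF.Basic

set_option autoImplicit false

namespace Pool.Agent.CK

/-- NUM3 -/
theorem num_leaky {k n e : ℕ} {z : List Bool} (he : Adeq e) (hn : 2 ^ (k + 2) ≤ n)
    (h : alen e z < n ^ (k + 2)) :
    (ia e + 2) ^ (iC e + 3) ≤ n ∧ (n ≤ (z.length + 2) ^ (iN e + 3) → e ≤ k) := by
  have hE := he.1
  have hn0 : 0 < n := lt_of_lt_of_le (by positivity) hn
  constructor
  · have h2 : 2 ^ e ≤ n := by
      rcases Nat.lt_or_ge e (k + 2) with h1 | h1
      · exact le_trans (Nat.pow_le_pow_right (by norm_num) h1.le) hn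
      · by_contra hcon
        push Not at hcon
        have h3 : n ^ (k + 2) ≤ (2 ^ e) ^ (k + 2) := Nat.pow_le_pow_left hcon.le _
        have h4 : (2 ^ e) ^ (k + 2) ≤ 2 ^ (e ^ 2) := by
          rw [← pow_mul]
          apply Nat.pow_le_pow_right (by norm_num)
          rw [pow_two]
          exact Nat.mul_le_mul_left e h1
        have h5 : 2 ^ (e ^ 2) ≤ alen e z := by
          unfold alen
          exact Nat.pow_le_pow_left (by omega) _
        omega
    refine le_trans ?_ h2
    refine le_trans ?_ he.2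
    exact Nat.pow_le_pow_right (by omega) (by omega)
  · intro h1
    by_contra hcon
    push Not at hcon
    have h3 : (iN e + 3) * 3 ≤ e := by
      refine le_trans ?_ hE
      calc (iN e + 3) * 3 ≤ (2 * iN e + 3) * (0 + 3) * (0 + 3) := by omega
        _ ≤ (2 * iN e + 3) * (iC e + 3) * (iM e + 3) :=
          Nat.mul_le_mul (Nat.mul_le_mul_left _ (by omega)) (by omega)
    have h4 : (iN e + 3) * (3 * e) ≤ e ^ 2 := by nlinarith
    have h5 : n ^ (3 * e) ≤ alen e z := by
      unfold alen
      calc n ^ (3 * e) ≤ ((z.length + 2) ^ (iN e + 3)) ^ (3 * e) := Nat.pow_le_pow_left h1 _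
        _ = (z.length + 2) ^ ((iN e + 3) * (3 * e)) := by rw [← pow_mul]
        _ ≤ (z.length + 2) ^ (e ^ 2) := Nat.pow_le_pow_right (by omega) h4
    have h6 : n ^ (k + 2) ≤ n ^ (3 * e) := Nat.pow_le_pow_right hn0 (by omega)
    omega

end Pool.Agent.CK
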