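import Pool.Agent.Lib_helper74.CKF.Basic

set_option autoImplicit false

namespace Pool.Agent.CK

theorem num4_pow_le (d : ℕ) : ∃ n0, ∀ n ≥ n0, n ^ d ≤ 2 ^ n := by
  have h := isLittleO_pow_const_const_pow_of_one_lt (R := ℝ) d (r := 2) (by norm_num)
  have h2 := h.bound (c := 1) one_pos
  rw [Filter.eventually_atTop] at h2
  obtain ⟨n0, hn0⟩ := h2
  refine ⟨n0, fun n hn => ?_⟩
  have h3 := hn0 n hn
  rw [Real.norm_of_nonneg (by positivity), Real.norm_of_nonneg (by positivity), one_mul] at h3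
  exact_mod_cast h3

/-- NUM4 -/
theorem num_growth (k R : ℕ) : ∃ n0, ∀ n ≥ n0, ∃ B, 2 ≤ B ∧ n ^ (k + 2) + 1 ≤ B ∧
    n + (n + 2) ^ k + 1 ≤ B ∧ 3 * (k + 1) ≤ 2 ^ B ∧
    3 * (B ^ CC ^ R + 1) * (B ^ CC ^ R + 1) ≤ 2 ^ n ∧ 2 * B ^ CC ^ R < 2 ^ n := by
  set c := CC ^ R with hc
  set m := (k + 3) * c with hm
  obtain ⟨n0, hn0⟩ := num4_pow_le (2 * m + 1)
  refine ⟨n0 + 3 * (k + 1) + 2 ^ k + 12, fun n hn => ?_⟩
  have hk0 : 1 ≤ 2 ^ k := Nat.one_le_two_pow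
  have hk : 2 ^ k ≤ n := by omega
  have h12 : 12 ≤ n := by omega
  have h0 := hn0 n (by omega)
  refine ⟨n ^ (k + 3), ?_, ?_, ?_, ?_, ?_⟩
  · calc 2 ≤ n ^ 1 := by rw [pow_one]; omega
      _ ≤ n ^ (k + 3) := Nat.pow_le_pow_right (by omega) (by omega)
  · have : 1 ≤ n ^ (k + 2) := Nat.one_le_pow _ _ (by omega)
    rw [pow_succ n (k + 2)]
    nlinarith
  · have h1 : (n + 2) ^ k ≤ n ^ (k + 1) := by
      calc (n + 2) ^ k ≤ (2 * n) ^ k := Nat.pow_le_pow_left (by omega) k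
        _ = 2 ^ k * n ^ k := mul_pow _ _ _
        _ ≤ n * n ^ k := Nat.mul_le_mul_right _ hk
        _ = n ^ (k + 1) := by ring
    have h2 : n ≤ n ^ (k + 1) := by
      calc n = n ^ 1 := (pow_one n).symm
        _ ≤ n ^ (k + 1) := Nat.pow_le_pow_right (by omega) (by omega)
    have h3 : n ^ (k + 3) = n ^ (k + 1) * (n * n) := by ring
    have h4 : 4 ≤ n * n := by nlinarith
    have h5 : n ^ (k + 1) * 4 ≤ n ^ (k + 1) * (n * n) := Nat.mul_le_mul_left _ h4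
    rw [h3]
    omega
  · have h1 : n ≤ n ^ (k + 3) := by
      calc n = n ^ 1 := (pow_one n).symm
        _ ≤ n ^ (k + 3) := Nat.pow_le_pow_right (by omega) (by omega)
    have h2 : n ^ (k + 3) < 2 ^ (n ^ (k + 3)) := Nat.lt_two_pow_self
    omega
  · have hB : (n ^ (k + 3)) ^ c = n ^ m := by rw [← pow_mul]
    rw [hB]
    have h1 : 1 ≤ n ^ m := Nat.one_le_pow _ _ (by omega)
    have h2 : 12 * (n ^ m * n ^ m) ≤ n ^ (2 * m + 1) := by
      have : n ^ (2 * m + 1) = n * (n ^ m * n ^ m) := by ring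
      rw [this]
      exact Nat.mul_le_mul_right _ h12
    constructor <;> nlinarith

end Pool.Agent.CK
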