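import Pool.Agent.Lib_helper74.CKF.MULTI
import Pool.Agent.Lib_helper74.CKF.NUM2
import Pool.Agent.Lib_helper74.CKF.NUM3
import Pool.Agent.Lib_helper74.CKF.NUM4
import Pool.Agent.Lib_helper74.CKF.ENUM

set_option autoImplicit false

namespace Pool.Agent.CK

/-! ### locality lemmas -/

theorem agree_of_ext {N : ℕ} {O O' : Lang} (h : Ext N O O') (w : List Bool)
    (hw : w.length < N) : O' w = O w := h w ((key_le w).trans_lt hw)

theorem ia_bound {e : ℕ} (he : Adeq e) : (ia e + 2) ^ (iC e + 2) < 2 ^ e := by
  refine lt_of_lt_of_le ?_ he.2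
  exact Nat.pow_lt_pow_right (by omega) (by omega)

theorem e_pos {e : ℕ} (he : Adeq e) : 0 < e := by
  have := he.1
  have h3 : 0 < (2 * iN e + 3) * (iC e + 3) * (iM e + 3) := by positivity
  omega

theorem two_pow_le_alen {e : ℕ} (he : Adeq e) (z : List Bool) : 2 ^ e ≤ alen e z := by
  unfold alen
  calc 2 ^ e ≤ 2 ^ (e ^ 2) :=
        Nat.pow_le_pow_right (by norm_num) (Nat.le_self_pow (by norm_num) e)
    _ ≤ (z.length + 2) ^ (e ^ 2) := Nat.pow_le_pow_left (by omega) _

theorem iN_bound {e : ℕ} (he : Adeq e) (z : List Bool) :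
    (z.length + 2) ^ (iN e + 3) ≤ alen e z := by
  unfold alen
  apply Nat.pow_le_pow_right (by omega)
  have h1 := he.1
  have h2 : iN e + 3 ≤ (2 * iN e + 3) * (iC e + 3) * (iM e + 3) :=
    calc iN e + 3 ≤ 2 * iN e + 3 := by omega
      _ ≤ (2 * iN e + 3) * (iC e + 3) := Nat.le_mul_of_pos_right _ (by omega)
      _ ≤ _ := Nat.le_mul_of_pos_right _ (by omega)
  have h3 : e ≤ e ^ 2 := Nat.le_self_pow (by norm_num) e
  omega

theorem Nontriv_congr {N e : ℕ} {O O' : Lang}
    (hN : (ia e + 2) ^ (iC e + 2) ≤ N)
    (h : ∀ w : List Bool, w.length < N → O' w = O w) (hnt : Nontriv O' e) : Nontriv O e := by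
  obtain ⟨q0, q1, h0, h1, h2, h3⟩ := hnt
  have hloc : ∀ q : List Bool, q.length ≤ ia e → NL (iC e) O q = NL (iC e) O' q := by
    intro q hq
    apply NL_congr
    intro w hw
    refine (h w (lt_of_lt_of_le hw (le_trans ?_ hN))).symm
    exact Nat.pow_le_pow_left (by omega) _
  exact ⟨q0, q1, h0, h1, by rw [hloc q0 h0, h2], by rw [hloc q1 h1, h3]⟩

theorem V_congr {O O' : Lang} {x : List Bool}
    (h : ∀ w : List Bool, w.length = 2 * x.length + 2 → O' w = O w) : V O' x = V O x := by
  unfold V
  congr 1
  apply propext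
  have hl : ∀ y : List Bool, y.length = x.length → ∀ b, (saddr x y b).length = 2 * x.length + 2 := by
    intro y hy b
    have hil : ∀ u v : List Bool, v.length = u.length → (il u v).length = 2 * u.length := by
      intro u
      induction u with
      | nil => intro v _; rfl
      | cons a u ih =>
        intro v hv
        match v, hv with
        | b :: v, hv =>
          simp only [il, List.length_cons] at hv ⊢
          rw [ih v (by omega)]; ring
    simp only [saddr, List.length_cons, List.length_reverse, hil x y hy]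
  constructor
  · rintro ⟨y, hy, h1⟩
    exact ⟨y, hy, by rw [← h _ (hl y hy true)]; exact h1⟩
  · rintro ⟨y, hy, h1⟩
    exact ⟨y, hy, by rw [h _ (hl y hy true)]; exact h1⟩

theorem saddr_length {x y : List Bool} (h : x.length = y.length) (b : Bool) :
    (saddr x y b).length = 2 * x.length + 2 := by
  have hil : ∀ u v : List Bool, v.length = u.length → (il u v).length = 2 * u.length := by
    intro u
    induction u with
    | nil => intro v _; rfl
    | cons a u ih =>
      intro v hv
      match v, hv with
      | b :: v, hv =>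
        simp only [il, List.length_cons] at hv ⊢
        rw [ih v (by omega)]; ring
  simp only [saddr, List.length_cons, List.length_reverse, hil x y h.symm]

/-! ### the leaky rule -/

open Classical in
/-- The leaky value of the entry `(e, z)`. -/
noncomputable def leak (O : Lang) (e : ℕ) (z : List Bool) : List Bool :=
  if h : Nontriv O e then
    (if NL (iN e) O z = true then h.choose_spec.choose else h.choose)
  else []

theorem leak_spec {O : Lang} {e : ℕ} (h : Nontriv O e) (z : List Bool) :
    (leak O e z).length ≤ ia e ∧ NL (iC e) O (leak O e z) = NL (iN e) O z := by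
  obtain ⟨h0, h1, h2, h3⟩ := h.choose_spec.choose_spec
  unfold leak
  rw [dif_pos h]
  split_ifs with hz
  · exact ⟨h1, by rw [h3, hz]⟩
  · refine ⟨h0, ?_⟩
    rw [Bool.not_eq_true] at hz
    rw [h2, hz]

/-- A correct leaky entry stays correct. -/
theorem good_leak {O O' : Lang} {e N : ℕ} {z : List Bool} (he : Adeq e)
    (h1 : (ia e + 2) ^ (iC e + 2) ≤ N) (h2 : (z.length + 2) ^ (iN e + 2) ≤ N)
    (hO : ∀ w : List Bool, w.length < N → O' w = O w)
    (hb : ∀ b c, O' (taddr e z b c) = bit (leak O e z) (b, c)) (hnt : Nontriv O' e) :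
    Good O' e z := by
  have hnt' := Nontriv_congr h1 hO hnt
  obtain ⟨l1, l2⟩ := leak_spec hnt' z
  refine ⟨leak O e z, ?_, hb, ?_⟩
  · calc ((leak O e z).length + 2) ^ (iC e + 2) ≤ (ia e + 2) ^ (iC e + 2) :=
          Nat.pow_le_pow_left (by omega) _
      _ ≤ 2 ^ e := (ia_bound he).le
      _ ≤ alen e z := two_pow_le_alen he z
  · rw [NL_congr (iC e) O' O, NL_congr (iN e) O' O z, l2]
    · intro w hw
      exact hO w (by omega)
    · intro w hw
      refine hO w (lt_of_lt_of_le hw (le_trans ?_ h1))
      exact Nat.pow_le_pow_left (by omega) _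

open Classical in
/-- The background of a zone: keys below `n` as in `O`; leaky entries that do not depend on the
level `n`; trivial secrets. -/
noncomputable def back (n : ℕ) (O : Lang) : Lang := fun w =>
  if key w < n then O w
  else match tdec w with
    | some p => if (p.1.2.length + 2) ^ (iN p.1.1 + 3) < n then bit (leak O p.1.1 p.1.2) p.2
        else false
    | none => match sdec w with
      | some p => decide (p.2.1 = List.replicate p.1.length false ∧ p.2.2 = false)
      | none => false

/-- trivial secrets -/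
theorem sec_triv {O : Lang} {m : ℕ}
    (h : ∀ (x y : List Bool) (b : Bool), x.length = m → y.length = m →
      O (saddr x y b) = decide (y = List.replicate x.length false ∧ b = false)) : Sec O m := by
  intro x hx
  refine ⟨(List.replicate m false, false), ⟨by simp, ?_⟩, ?_⟩
  · rw [h x _ _ hx (by simp)]
    simp [hx]
  · rintro ⟨y, b⟩ ⟨hy, hb⟩
    simp only at hy hb
    rw [h x y b hx hy, hx] at hb
    simp only [decide_eq_true_eq] at hb
    rw [hb.1, hb.2]

/-! ### the adversaries of a stage -/

/-- the machines against which the level is diagonalized -/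
def topFam (n k : ℕ) : Set (X n → DT Bool) :=
  (fun p : ℕ × Option Bool => fun x : X n => match p.2 with
    | none => PT p.1 x.1
    | some β => DT.tr (fun _ => DT.leaf β) (PT p.1 x.1)) ''
    ((Finset.range (k + 1) ×ˢ (Finset.univ : Finset (Option Bool)) : Finset (ℕ × Option Bool)) :
      Set (ℕ × Option Bool))

theorem topFam_small {n k B : ℕ} (h1 : n + (n + 2) ^ k + 1 ≤ B) (h2 : 3 * (k + 1) ≤ 2 ^ B) :
    Small B (topFam n k) := by
  classical
  refine ⟨Set.Finite.image _ (Finset.finite_toSet _), ?_, ?_⟩
  · refine (Set.ncard_image_le (Finset.finite_toSet _)).trans ?_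
    rw [Set.ncard_coe_finset, Finset.card_product, Finset.card_range, Finset.card_univ,
      Fintype.card_option, Fintype.card_bool]
    omega
  · rintro A ⟨⟨j, o⟩, hj, rfl⟩ x
    simp only [Finset.coe_product, Set.mem_prod, Finset.mem_coe, Finset.mem_range] at hj
    have hd : (PT j x.1).depth ≤ (n + 2) ^ k := by
      refine (depth_PT _ _).trans ?_
      rw [x.2]
      exact Nat.pow_le_pow_right (by omega) ((ex_le j).trans (by omega))
    cases o with
    | none => simp only; omega
    | some β =>
      simp only
      refine (DT.depth_tr _ _ 1 le_rfl (fun q => by simp)).trans ?_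
      omega

/-- ZONE -/
theorem zone (k : ℕ) : ∃ n0, ∀ n ≥ n0, ∀ O : Lang, ∃ O' : Lang, Ext n O O' ∧
    ∀ O'', Ext (n ^ (k + 2)) O' O'' →
      (∀ e z, Adeq e → n ≤ alen e z → alen e z < n ^ (k + 2) → Nontriv O'' e →
        (n ≤ (z.length + 2) ^ (iN e + 3) → Correct O'' e n) → Good O'' e z) ∧
      (∀ m, n ≤ 2 * m + 2 → 2 * m + 2 < n ^ (k + 2) → Sec O'' m) ∧ Diag O'' k n := by
  obtain ⟨R, hR⟩ := num_groups k
  obtain ⟨n1, hn1⟩ := num_growth k R
  obtain ⟨n2, hn2⟩ := num_zone k
  refine ⟨max (max n1 n2) 2, fun n hn O => ?_⟩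
  have hn1' : n1 ≤ n := le_trans (le_trans (le_max_left _ _) (le_max_left _ _)) hn
  have hn2' : n2 ≤ n := le_trans (le_trans (le_max_right _ _) (le_max_left _ _)) hn
  have hn3 : 2 ≤ n := le_trans (le_max_right _ _) hn
  obtain ⟨B, hB2, hB3, hB4, hB5, hB6, hB7⟩ := hn1 n hn1'
  obtain ⟨z1, z2, z3⟩ := hn2 n hn2'
  obtain ⟨G, hG1, hG2, hG3⟩ := hR n hn3
  have hpow : B ^ CC ^ G.card ≤ B ^ CC ^ R :=
    Nat.pow_le_pow_right (by omega) (Nat.pow_le_pow_right (by decide) hG1)
  obtain ⟨S, O', a1, a2, a3, a4⟩ := multi k n hn3 (back n O) B hB2 hB3 hB4 G hG2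
    (le_trans (Nat.mul_le_mul (Nat.mul_le_mul_left 3 (by omega)) (by omega)) hB6) (by omega)
    (topFam n k) (topFam_small hB4 hB5)
  -- positions of the level have keys `≥ n`
  have hgp : ∀ g ∈ G, ∀ w, key w < n → gpos k n g.1 g.2 w = none := by
    intro g hg w hw
    cases hgw : gpos k n g.1 g.2 w with
    | none => rfl
    | some p =>
      exfalso
      have hz := p.1.2.2.2.1
      have := iN_bound (hG2 g hg).2 p.1.1
      rw [gpos_eq_some hgw, key_taddr] at hw
      omega
  have hsp : ∀ w, key w < n → spos n w = none := by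
    intro w hw
    cases hsw : spos n w with
    | none => rfl
    | some p =>
      exfalso
      rw [spos_eq_some hsw, key_saddr _ _ _ (by rw [p.1.2, p.2.1.2]), p.1.2] at hw
      omega
  have hext : Ext n O O' := by
    intro w hw
    rw [a1 w (hsp w hw) (fun g hg => hgp g hg w hw)]
    simp only [back, if_pos hw]
  refine ⟨O', hext, fun O'' hO'' => ?_⟩
  have hnn : n ≤ n ^ (k + 2) := Nat.le_self_pow (by omega) n
  have hag : ∀ w : List Bool, w.length < n ^ (k + 2) → O'' w = O' w :=
    fun w hw => agree_of_ext hO'' w hw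
  have hagn : ∀ w : List Bool, w.length < n → O'' w = O w := by
    intro w hw
    rw [hag w (by omega)]
    exact agree_of_ext hext w hw
  -- the values of the secret language
  have hV : ∀ x : X n, V O'' x.1 = (S x).2 := by
    intro x
    rw [V_congr (O := O') (fun w hw => hag w (by rw [hw, x.2]; exact z2))]
    unfold V
    have hiff : (∃ y : List Bool, y.length = x.1.length ∧ O' (saddr x.1 y true) = true) ↔
        (S x).2 = true := by
      constructor
      · rintro ⟨y, hy, h1⟩
        have hy' : y.length = n := hy.trans x.2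
        have hs : spos n (saddr x.1 y true) = some (x, (⟨y, hy'⟩, true)) := by
          unfold spos
          rw [sdec_saddr _ _ _ hy.symm]
          simp only
          rw [dif_pos ⟨x.2, hy'⟩]
        rw [a2 _ _ hs] at h1
        simp only [decide_eq_true_eq] at h1
        rw [h1]
      · intro h1
        have hy' := (S x).1.2
        refine ⟨(S x).1.1, by rw [hy', x.2], ?_⟩
        have hs : spos n (saddr x.1 (S x).1.1 true) = some (x, ((S x).1, true)) := by
          unfold spos
          rw [sdec_saddr _ _ _ (by rw [hy', x.2])]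
          simp only
          rw [dif_pos ⟨x.2, hy'⟩]
        rw [a2 _ _ hs]
        simp only [decide_eq_true_eq]
        rw [← h1]
    cases hS : (S x).2 with
    | true => simpa using hiff.2 hS
    | false =>
      simp only [decide_eq_false_iff_not]
      rw [hiff, hS]
      simp
  refine ⟨fun e z he hz1 hz2 hnt hcor => ?_, fun m hm1 hm2 => ?_, fun j hj => ?_⟩
  · -- entries
    obtain ⟨nl1, nl2⟩ := num_leaky he z3 hz2
    rcases Nat.lt_or_ge ((z.length + 2) ^ (iN e + 3)) n with hl | hp
    · -- leaky
      have hb1 : (ia e + 2) ^ (iC e + 2) ≤ n := le_trans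
        (Nat.pow_le_pow_right (by omega) (by omega)) nl1
      have hb2 : (z.length + 2) ^ (iN e + 2) ≤ n := le_trans
        (Nat.pow_le_pow_right (by omega) (by omega)) hl.le
      refine good_leak (O := O) he hb1 hb2 hagn (fun b c => ?_) hnt
      rw [hO'' _ (by rw [key_taddr]; exact hz2), a1 _ ?_ ?_]
      · unfold back
        rw [if_neg (by rw [key_taddr]; omega), tdec_taddr]
        simp only
        rw [if_pos hl]
      · cases hs : spos n (taddr e z b c) with
        | none => rfl
        | some p =>
          exfalso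
          have := tdec_saddr p.1.1 p.2.1.1 p.2.2
          rw [← spos_eq_some hs, tdec_taddr] at this
          simp at this
      · intro g hg
        cases hgw : gpos k n g.1 g.2 (taddr e z b c) with
        | none => rfl
        | some p =>
          exfalso
          have e1 := tdec_taddr e z b c
          rw [gpos_eq_some hgw, tdec_taddr] at e1
          simp only [Option.some.injEq, Prod.mk.injEq] at e1
          obtain ⟨⟨e3, e4⟩, -⟩ := e1
          have h5 : n ≤ (p.1.1.length + 2) ^ (iN g.2 + 3) := p.1.2.2.2.1
          have h6 : n ≤ (z.length + 2) ^ (iN e + 3) := by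
            rw [← e3, ← e4]; exact h5
          omega
    · -- protected
      have hek := nl2 hp
      obtain ⟨t, ht1, ht2⟩ := hG3 e z hek he hp hz2
      obtain ⟨d1, d2, d3, d4⟩ := num_dep he hn3 ht2.1 ht2.2.1 hp
      have hL : 2 ^ (2 ^ t * e ^ 2) ≤ n ^ (k + 2) := by omega
      have hcor' : ∀ x : X n, PL (iM e) (join O' (NL (iC e) O')) x.1 = (S x).2 := by
        intro x
        rw [← hV x, ← hcor hp x.1 x.2]
        exact (corr_congr (n := n) (e := e) (L := n ^ (k + 2)) (by omega) hag x).symm
      obtain ⟨q, hq1, hq2, hq3⟩ := a3 (t, e) ht1 hcor' z ht2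
      change q.length ≤ qb n e at hq1
      refine ⟨q, ?_, fun b c => ?_, good_congr (n := n) (L := n ^ (k + 2)) (by omega) (by omega)
        hag q hq1 hq3⟩
      · have : (q.length + 2) ^ (iC e + 2) ≤ (qb n e + 2) ^ (iC e + 2) :=
          Nat.pow_le_pow_left (by omega) _
        omega
      · rw [hO'' _ (by rw [key_taddr]; exact hz2)]
        exact hq2 b c
  · -- secrets
    rcases eq_or_ne m n with hmn | hmn
    · subst hmn
      intro x hx
      refine ⟨((S ⟨x, hx⟩).1.1, (S ⟨x, hx⟩).2), ⟨(S ⟨x, hx⟩).1.2, ?_⟩, ?_⟩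
      · simp only
        have hy' := (S ⟨x, hx⟩).1.2
        have hs : spos m (saddr x (S ⟨x, hx⟩).1.1 (S ⟨x, hx⟩).2) =
            some (⟨x, hx⟩, ((S ⟨x, hx⟩).1, (S ⟨x, hx⟩).2)) := by
          unfold spos
          rw [sdec_saddr _ _ _ (by rw [hy', hx])]
          simp only
          rw [dif_pos ⟨hx, hy'⟩]
        rw [hag _ (by rw [saddr_length (by rw [hy', hx]), hx]; exact z2), a2 _ _ hs]
        simp
      · rintro ⟨y, b⟩ ⟨hy, hb⟩
        simp only at hy hb
        have hs : spos m (saddr x y b) = some (⟨x, hx⟩, (⟨y, hy⟩, b)) := by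
          unfold spos
          rw [sdec_saddr _ _ _ (by rw [hy, hx])]
          simp only
          rw [dif_pos ⟨hx, hy⟩]
        rw [hag _ (by rw [saddr_length (by rw [hy, hx]), hx]; exact z2), a2 _ _ hs] at hb
        simp only [decide_eq_true_eq] at hb
        rw [hb]
    · apply sec_triv
      intro x y b hx hy
      have hlen := saddr_length (x := x) (y := y) (by rw [hx, hy]) b
      rw [hag _ (by rw [hlen, hx]; exact hm2), a1 _ ?_ ?_]
      · unfold back
        rw [if_neg (by rw [key_saddr _ _ _ (by rw [hx, hy]), hx]; omega), tdec_saddr,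
          sdec_saddr _ _ _ (by rw [hx, hy])]
      · unfold spos
        rw [sdec_saddr _ _ _ (by rw [hx, hy])]
        simp only
        rw [dif_neg]
        rintro ⟨h1, -⟩
        exact hmn (hx.symm.trans h1)
      · intro g hg
        unfold gpos
        rw [tdec_saddr]
  · -- diagonalization
    have hPT : ∀ x : X n, ∀ w : List Bool,
        w.length ≤ x.1.length + (x.1.length + 2) ^ ex j → w.length < n ^ (k + 2) := by
      intro x w hw
      rw [x.2] at hw
      have : (n + 2) ^ ex j ≤ (n + 2) ^ k :=
        Nat.pow_le_pow_right (by omega) ((ex_le j).trans hj)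
      omega
    have hmem : ∀ o : Option Bool, (fun x : X n => match o with
        | none => PT j x.1
        | some β => DT.tr (fun _ => DT.leaf β) (PT j x.1)) ∈ topFam n k := by
      intro o
      refine ⟨(j, o), ?_, rfl⟩
      simp only [Finset.coe_product, Set.mem_prod, Finset.mem_coe, Finset.mem_range,
        Finset.mem_univ, and_true]
      omega
    constructor
    · obtain ⟨x, hx⟩ := a4 _ (hmem none)
      refine ⟨x.1, x.2, ?_⟩
      simp only at hx
      rw [hV x, ← eval_PT, DT.eval_congr (O := O'') (O' := O') _ _ (allQ_PT j x.1)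
        (fun w hw => hag w (hPT x w hw))]
      exact hx
    · intro β
      obtain ⟨x, hx⟩ := a4 _ (hmem (some β))
      refine ⟨x.1, x.2, ?_⟩
      simp only at hx
      rw [DT.eval_tr] at hx
      simp only [DT.eval_leaf] at hx
      rw [hV x, ← eval_PT, DT.eval_join_congr (O := O'') (O' := O') (B := fun _ => β)
        (B' := fun _ => β) _ _ (allQ_PT j x.1) (fun w hw => hag w ?_) (fun _ _ => rfl)]
      · exact hx
      · have := hPT x (false :: w) hw
        simp only [List.length_cons] at this
        omega

end Pool.Agent.CK
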