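import Pool.Agent.Lib_helper74.CKF.Basic

set_option autoImplicit false

namespace Pool.Agent.CK

theorem mach_step_eq (O : Lang) (cmd : Cmd) (k : List Cmd) (s : ℕ → List Bool)
    (h : ∀ r c d, cmd ≠ Cmd.ask r c d) :
    step O (cmd :: k, s) = step (fun _ => false) (cmd :: k, s) := by
  cases cmd with
  | ask r c d => exact absurd rfl (h r c d)
  | _ => rfl

theorem mach_runTree_succ (t : ℕ) (cmd : Cmd) (k : List Cmd) (s : ℕ → List Bool)
    (h : ∀ r c d, cmd ≠ Cmd.ask r c d) :
    runTree (t + 1) (cmd :: k, s) = runTree t (step (fun _ => false) (cmd :: k, s)) := by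
  cases cmd with
  | ask r c d => exact absurd rfl (h r c d)
  | _ => rfl

theorem mach_runTree_nil (t : ℕ) (s : ℕ → List Bool) :
    runTree (t + 1) ([], s) = runTree t ([], s) := rfl

theorem mach_runTree_ask (t : ℕ) (r : ℕ) (c d : Cmd) (k : List Cmd) (s : ℕ → List Bool) :
    runTree (t + 1) (Cmd.ask r c d :: k, s) =
      DT.node (s r) (runTree t (c :: k, s)) (runTree t (d :: k, s)) := rfl

theorem mach_eval_runTree (O : Lang) (t : ℕ) :
    ∀ cf : Config, (runTree t cf).eval O = (step O)^[t] cf := by
  induction t with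
  | zero => intro cf; rfl
  | succ t ih =>
    intro cf
    rw [Function.iterate_succ_apply]
    obtain ⟨l, s⟩ := cf
    cases l with
    | nil => rw [mach_runTree_nil, ih]; rfl
    | cons cmd k =>
      by_cases h : ∃ r c d, cmd = Cmd.ask r c d
      · obtain ⟨r, c, d, rfl⟩ := h
        rw [mach_runTree_ask, DT.eval_node, ih, ih, step]
        split_ifs <;> rfl
      · have h' : ∀ r c d, cmd ≠ Cmd.ask r c d := fun r c d e => h ⟨r, c, d, e⟩
        rw [mach_runTree_succ t cmd k s h', ih, mach_step_eq O cmd k s h']

theorem mach_depth_runTree (t : ℕ) : ∀ cf : Config, (runTree t cf).depth ≤ t := by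
  induction t with
  | zero => intro cf; exact Nat.zero_le _
  | succ t ih =>
    intro cf
    obtain ⟨l, s⟩ := cf
    cases l with
    | nil => rw [mach_runTree_nil]; exact (ih _).trans (Nat.le_succ _)
    | cons cmd k =>
      by_cases h : ∃ r c d, cmd = Cmd.ask r c d
      · obtain ⟨r, c, d, rfl⟩ := h
        rw [mach_runTree_ask, DT.depth_node]
        have h1 := ih (c :: k, s)
        have h2 := ih (d :: k, s)
        omega
      · have h' : ∀ r c d, cmd ≠ Cmd.ask r c d := fun r c d e => h ⟨r, c, d, e⟩
        rw [mach_runTree_succ t cmd k s h']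
        exact (ih _).trans (Nat.le_succ _)

theorem mach_step_len (cf : Config) (a : ℕ) (h : ∀ r, (cf.2 r).length ≤ a) :
    ∀ r, ((step (fun _ => false) cf).2 r).length ≤ a + 1 := by
  intro r
  obtain ⟨l, s⟩ := cf
  have hs : ∀ r, (s r).length ≤ a := h
  have h0 := hs r
  cases l with
  | nil => exact h0.trans (Nat.le_succ _)
  | cons cmd k =>
    cases cmd with
    | skip => exact h0.trans (Nat.le_succ _)
    | push r' b =>
      simp only [step]
      by_cases e : r = r'
      · subst e; rw [Function.update_self]; simpa using h0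
      · rw [Function.update_of_ne e]; exact h0.trans (Nat.le_succ _)
    | pop r' =>
      simp only [step]
      by_cases e : r = r'
      · subst e; rw [Function.update_self, List.length_tail]; omega
      · rw [Function.update_of_ne e]; exact h0.trans (Nat.le_succ _)
    | seq c d => exact h0.trans (Nat.le_succ _)
    | cond r' b c d => exact h0.trans (Nat.le_succ _)
    | loop r' c =>
      simp only [step]
      split_ifs <;> exact h0.trans (Nat.le_succ _)
    | ask r' c d => exact h0.trans (Nat.le_succ _)

theorem mach_allQ_runTree (t : ℕ) : ∀ (cf : Config) (a b : ℕ), (∀ r, (cf.2 r).length ≤ a) →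
    a + t ≤ b → (runTree t cf).AllQ (fun w => w.length < b) := by
  induction t with
  | zero => intro cf a b _ _; exact trivial
  | succ t ih =>
    intro cf a b hcf hab
    obtain ⟨l, s⟩ := cf
    have hs : ∀ r, (s r).length ≤ a := hcf
    cases l with
    | nil => rw [mach_runTree_nil]; exact ih _ a b hcf (by omega)
    | cons cmd k =>
      by_cases h : ∃ r c d, cmd = Cmd.ask r c d
      · obtain ⟨r, c, d, rfl⟩ := h
        rw [mach_runTree_ask]
        refine ⟨?_, ih _ a b hcf (by omega), ih _ a b hcf (by omega)⟩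
        have := hs r
        change (s r).length < b
        omega
      · have h' : ∀ r c d, cmd ≠ Cmd.ask r c d := fun r c d e => h ⟨r, c, d, e⟩
        rw [mach_runTree_succ t cmd k s h']
        exact ih _ (a + 1) b (mach_step_len _ a hcf) (by omega)

theorem mach_allQ_map {β γ : Type} (f : β → γ) (P : List Bool → Prop) (t : DT β)
    (h : t.AllQ P) : (t.map f).AllQ P := by
  induction t with
  | leaf b => exact trivial
  | node w n0 n1 h0 h1 => exact ⟨h.1, h0 h.2.1, h1 h.2.2⟩

theorem mach_init_len (x y : List Bool) (a : ℕ) (hx : x.length ≤ a) (hy : y.length ≤ a) :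
    ∀ r, (init x y r).length ≤ a := by
  intro r
  match r with
  | 0 => exact hx
  | 1 => exact hy
  | _ + 2 => exact Nat.zero_le _

theorem eval_PT (i : ℕ) (O : Lang) (x : List Bool) : (PT i x).eval O = PL i O x := by
  rw [PT, DT.eval_map, mach_eval_runTree]
  rfl

theorem depth_PT (i : ℕ) (x : List Bool) : (PT i x).depth ≤ (x.length + 2) ^ ex i := by
  rw [PT, DT.depth_map]
  exact mach_depth_runTree _ _

theorem allQ_PT (i : ℕ) (x : List Bool) :
    (PT i x).AllQ (fun w => w.length ≤ x.length + (x.length + 2) ^ ex i) := by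
  rw [PT]
  apply mach_allQ_map
  refine (mach_allQ_runTree _ _ x.length (x.length + (x.length + 2) ^ ex i)
    (mach_init_len x [] x.length le_rfl (Nat.zero_le _)) le_rfl).mono ?_
  intro w hw
  exact le_of_lt hw

theorem mach_accB_congr (O O' : Lang) (c : Cmd) (x y : List Bool) (t a b : ℕ)
    (hx : x.length ≤ a) (hy : y.length ≤ a) (hab : a + t ≤ b)
    (h : ∀ w : List Bool, w.length < b → O w = O' w) :
    accB O c x y t = accB O' c x y t := by
  have e : run O c x y t = run O' c x y t := by
    unfold run
    rw [← mach_eval_runTree, ← mach_eval_runTree]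
    exact DT.eval_congr _ _ (mach_allQ_runTree t _ a b (mach_init_len x y a hx hy) hab) h
  unfold accB
  rw [e]

theorem NL_congr (i : ℕ) (O O' : Lang) (x : List Bool)
    (h : ∀ w : List Bool, w.length < (x.length + 2) ^ (i + 2) → O w = O' w) :
    NL i O x = NL i O' x := by
  have hk : ex i ≤ i := Nat.unpair_right_le i
  set n := x.length + 2 with hn
  have hn2 : 2 ≤ n := by omega
  have h1 : n ^ ex i ≤ n ^ i := Nat.pow_le_pow_right (by omega) hk
  have h0 : 1 ≤ n ^ i := Nat.one_le_pow _ _ (by omega)
  have h2 : n ^ (i + 2) = n ^ i * n * n := by ring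
  have h3 : 2 * n ^ i ≤ n ^ i * n := by nlinarith
  have h4 : n ≤ n ^ i * n := by nlinarith
  have h5 : 2 * (n ^ i * n) ≤ n ^ i * n * n := by nlinarith
  have hb : max x.length (n ^ ex i) + n ^ ex i ≤ n ^ (i + 2) := by
    have : max x.length (n ^ ex i) ≤ n ^ i * n := by
      apply max_le
      · omega
      · omega
    omega
  have key : ∀ y : List Bool, y.length ≤ n ^ ex i →
      accB O (prog i) x y (n ^ ex i) = accB O' (prog i) x y (n ^ ex i) := by
    intro y hy
    exact mach_accB_congr O O' (prog i) x y (n ^ ex i) (max x.length (n ^ ex i)) (n ^ (i + 2))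
      (le_max_left _ _) (hy.trans (le_max_right _ _)) hb h
  unfold NL
  congr 1
  apply propext
  constructor
  · rintro ⟨y, hy, hy2⟩
    exact ⟨y, hy, by rw [← key y hy]; exact hy2⟩
  · rintro ⟨y, hy, hy2⟩
    exact ⟨y, hy, by rw [key y hy]; exact hy2⟩

end Pool.Agent.CK
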