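import Pool.Agent.Lib_helper74.CKF.DT

/-!
# Common definitions for the relativized collapse (MP_675993_lc)
-/

set_option autoImplicit false

namespace Pool.Agent.CK

deriving instance Encodable for Cmd

/-! ## Random tables -/

/-- indicator -/
def ind (b : Bool) : ℝ := if b = true then 1 else 0

section pm

variable {Z Q : Type} [Fintype Z] [DecidableEq Z] [Fintype Q] [DecidableEq Q]

/-- The distribution of the entry `z` of a random table with independent entries of distribution
`μ z`, when the entries in the list `ρ` are known. -/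
def wt (μ : Z → Q → ℝ) (ρ : List (Z × Q)) (z : Z) (q : Q) : ℝ :=
  match ρ.lookup z with
  | some q' => if q = q' then 1 else 0
  | none => μ z q

/-- The expectation of `F T` for a random table `T`, given the entries in `ρ`. -/
def Pr (μ : Z → Q → ℝ) (ρ : List (Z × Q)) (F : (Z → Q) → ℝ) : ℝ :=
  ∑ T : Z → Q, (∏ z, wt μ ρ z (T z)) * F T

/-- `μ z` is a probability distribution for every `z`. -/
def IsPD (μ : Z → Q → ℝ) : Prop := ∀ z, (∀ q, 0 ≤ μ z q) ∧ ∑ q, μ z q = 1

/-- The expectation of `F r` for a random list `r` of length `d` with independent entries. -/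
def exL (ν : Q → ℝ) : ℕ → (List Q → ℝ) → ℝ
  | 0, F => F []
  | d + 1, F => ∑ q, ν q * exL ν d (fun l => F (q :: l))

end pm

/-! ## Derived classes of adversaries -/

section next

variable {X Z Q ι : Type} [DecidableEq Z]

/-- Majorities of simulations. -/
def SimClass (pos : List Bool → Option (Z × ι)) (rd : Q → ι → Bool) (B : ℕ)
    (Fam : Set (X → DT Bool)) : Set (X → DT Bool) :=
  {A' | ∃ A ∈ Fam, ∃ ρ : List (Z × Q), ρ.length ≤ 31 * (B + 1) * B ∧ ∃ rs : List (List Q),
    rs.length = 2 * B + 1 ∧ (∀ r ∈ rs, r.length = B) ∧
    A' = fun x => DT.maj (rs.map fun r => sim pos rd (A x) ρ r)}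

/-- the admissible tests -/
def TestOK (B : ℕ) (Fam : Set (X → DT Bool)) (t : Test X Z Q) : Prop :=
  t.A ∈ Fam ∧ t.ρ.length ≤ 31 * (B + 1) * B ∧ t.pre.length ≤ B ∧ t.post.length ≤ B

/-- The reduction `M` with its questions answered by a threshold of tests. -/
def CompClass (pos : List Bool → Option (Z × ι)) (rd : Q → ι → Bool)
    (qf : List Bool → Option Q) (M : X → DT Bool) (B : ℕ) (Fam : Set (X → DT Bool)) :
    Set (X → DT Bool) :=
  {A' | ∃ l : List (Test X Z Q), l.length ≤ 4 * (32 * B) ^ 2 * (2 * B + 1) ∧
    (∀ t ∈ l, TestOK B Fam t) ∧ ∃ θ ≤ l.length + 1,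
    A' = fun x => DT.tr (fun w => match qf w with
      | none => DT.leaf false
      | some q => DT.thr (l.map fun t => t.tree pos rd q) θ) (M x)}

/-- The derived class. -/
def Next (pos : List Bool → Option (Z × ι)) (rd : Q → ι → Bool) (qf : List Bool → Option Q)
    (M : X → DT Bool) (B : ℕ) (Fam : Set (X → DT Bool)) : Set (X → DT Bool) :=
  SimClass pos rd B Fam ∪ CompClass pos rd qf M B Fam

/-- A finite class of at most `2 ^ B` adversaries of depth at most `B`. -/
def Small (B : ℕ) (Fam : Set (X → DT Bool)) : Prop :=
  Fam.Finite ∧ Fam.ncard ≤ 2 ^ B ∧ ∀ A ∈ Fam, ∀ x, (A x).depth ≤ B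

end next

/-! ## Indices of machines and languages -/

/-- the program with index `i` -/
def prog (i : ℕ) : Cmd := (Encodable.decode i.unpair.1).getD Cmd.skip

/-- the exponent with index `i` -/
def ex (i : ℕ) : ℕ := i.unpair.2

/-- acceptance as a truth value -/
def accB (O : Lang) (c : Cmd) (x y : List Bool) (t : ℕ) : Bool :=
  (run O c x y t).1.isEmpty && (((run O c x y t).2 0).head? == some true)

/-- the `i`-th language in `P^O` -/
def PL (i : ℕ) (O : Lang) : Lang := fun x => accB O (prog i) x [] ((x.length + 2) ^ ex i)

open Classical in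
/-- the `i`-th language in `NP^O` -/
noncomputable def NL (i : ℕ) (O : Lang) : Lang := fun x =>
  decide (∃ y : List Bool, y.length ≤ (x.length + 2) ^ ex i ∧
    accB O (prog i) x y ((x.length + 2) ^ ex i) = true)

/-- The decision tree of a program that runs for `t` steps. -/
def runTree : ℕ → Config → DT Config
  | 0, s => DT.leaf s
  | t + 1, (Cmd.ask r c d :: k, s) => DT.node (s r) (runTree t (c :: k, s)) (runTree t (d :: k, s))
  | t + 1, cf => runTree t (step (fun _ => false) cf)

/-- The decision tree of the `i`-th language in `P^O`. -/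
def PT (i : ℕ) (x : List Bool) : DT Bool :=
  (runTree ((x.length + 2) ^ ex i) ([prog i], init x [])).map fun cf =>
    cf.1.isEmpty && ((cf.2 0).head? == some true)

/-! Indices of tables: `e` codes the index `iC e` of the target language, the index `iM e` of the
Turing reduction, the index `iN e` of the source language, and a number `ia e`. -/

def iC (e : ℕ) : ℕ := e.unpair.1
def iM (e : ℕ) : ℕ := e.unpair.2.unpair.1
def iN (e : ℕ) : ℕ := e.unpair.2.unpair.2.unpair.1
def ia (e : ℕ) : ℕ := e.unpair.2.unpair.2.unpair.2

/-- adequate indices -/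
def Adeq (e : ℕ) : Prop :=
  (2 * iN e + 3) * (iC e + 3) * (iM e + 3) ≤ e ∧ (ia e + 2) ^ (2 * (iC e + 3)) ≤ 2 ^ e

/-! ## Addresses -/

/-- `1^n` -/
def ones (n : ℕ) : List Bool := List.replicate n true

/-- the address length of the entry `(e, z)` -/
def alen (e : ℕ) (z : List Bool) : ℕ := (z.length + 2) ^ (e ^ 2)

/-- The address of bit `(b, c)` of the entry `(e, z)`. -/
def taddr (e : ℕ) (z : List Bool) (b : ℕ) (c : Bool) : List Bool :=
  true :: c :: (ones b ++ false :: (ones e ++ false :: (ones (alen e z) ++ false :: z)))

/-- The bits of an entry: `(b, false)` says whether `b < |q|`, `(b, true)` is bit `b` of the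
reverse of `q`. -/
def bit (q : List Bool) (i : ℕ × Bool) : Bool :=
  if i.2 = true then q.reverse.getD i.1 false else decide (i.1 < q.length)

/-- interleaving -/
def il : List Bool → List Bool → List Bool
  | [], _ => []
  | _ :: _, [] => []
  | a :: x, b :: y => a :: b :: il x y

/-- The address of the secret bit: `x` has witness `y` and value `b`. -/
def saddr (x y : List Bool) (b : Bool) : List Bool := false :: b :: (il x y).reverse

open Classical in
/-- decoding of table addresses -/
noncomputable def tdec (w : List Bool) : Option ((ℕ × List Bool) × (ℕ × Bool)) :=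
  if h : ∃ p : (ℕ × List Bool) × (ℕ × Bool), w = taddr p.1.1 p.1.2 p.2.1 p.2.2
  then some h.choose else none

open Classical in
/-- decoding of secret addresses -/
noncomputable def sdec (w : List Bool) : Option (List Bool × (List Bool × Bool)) :=
  if h : ∃ p : List Bool × (List Bool × Bool), p.1.length = p.2.1.length ∧
    w = saddr p.1 p.2.1 p.2.2
  then some h.choose else none

/-- the key (moment of definition) of a position -/
noncomputable def key (w : List Bool) : ℕ := match tdec w with
  | some p => alen p.1.1 p.1.2
  | none => w.length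

/-- `O'` agrees with `O` on the positions with key below `N`. -/
def Ext (N : ℕ) (O O' : Lang) : Prop := ∀ w, key w < N → O' w = O w

open Classical in
/-- the secret language -/
noncomputable def V (O : Lang) : Lang := fun x =>
  decide (∃ y : List Bool, y.length = x.length ∧ O (saddr x y true) = true)

/-- Each `x` of length `n` has exactly one witness and value. -/
def Sec (O : Lang) (n : ℕ) : Prop :=
  ∀ x : List Bool, x.length = n →
    ∃! p : List Bool × Bool, p.1.length = n ∧ O (saddr x p.1 p.2) = true

/-- The entry `(e, z)` of the table in `O` is a correct value of the many-one reduction. -/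
def Good (O : Lang) (e : ℕ) (z : List Bool) : Prop :=
  ∃ q : List Bool, (q.length + 2) ^ (iC e + 2) ≤ alen e z ∧
    (∀ b c, O (taddr e z b c) = bit q (b, c)) ∧ NL (iC e) O q = NL (iN e) O z

/-- the target language has a yes- and a no-instance of length at most `ia e` -/
def Nontriv (O : Lang) (e : ℕ) : Prop :=
  ∃ q0 q1 : List Bool, q0.length ≤ ia e ∧ q1.length ≤ ia e ∧
    NL (iC e) O q0 = false ∧ NL (iC e) O q1 = true

/-- the Turing reduction is correct on the strings of length `n` -/
def Correct (O : Lang) (e n : ℕ) : Prop :=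
  ∀ x : List Bool, x.length = n → PL (iM e) (join O (NL (iC e) O)) x = V O x

/-- The diagonalization requirement. -/
def Diag (O : Lang) (k n : ℕ) : Prop :=
  ∀ j ≤ k, (∃ x : List Bool, x.length = n ∧ PL j O x ≠ V O x) ∧
    ∀ β : Bool, ∃ x : List Bool, x.length = n ∧ PL j (join O fun _ => β) x ≠ V O x

/-! ## Groups of table entries -/

/-- strings of length `n` -/
abbrev X (n : ℕ) : Type := {x : List Bool // x.length = n}

/-- The entries of the group `(t, e)` that are relevant for the level `n` and the stage `k`. -/
def ZS (k n t e : ℕ) : Set (List Bool) :=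
  {z | 2 ^ 2 ^ t ≤ z.length + 2 ∧ z.length + 2 < 2 ^ 2 ^ (t + 1) ∧
    n ≤ (z.length + 2) ^ (iN e + 3) ∧ alen e z < n ^ (k + 2)}

open Classical in
/-- the positions of the group -/
noncomputable def gpos (k n t e : ℕ) (w : List Bool) : Option (ZS k n t e × (ℕ × Bool)) :=
  match tdec w with
  | some p => if h : p.1.1 = e ∧ p.1.2 ∈ ZS k n t e then some (⟨p.1.2, h.2⟩, p.2) else none
  | none => none

/-- the positions of the secrets of the level `n` -/
noncomputable def spos (n : ℕ) (w : List Bool) : Option (X n × (X n × Bool)) :=
  match sdec w with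
  | some p => if h : p.1.length = n ∧ p.2.1.length = n then
      some (⟨p.1, h.1⟩, (⟨p.2.1, h.2⟩, p.2.2)) else none
  | none => none

/-- the length bound for the questions of `M` on strings of length `n` -/
def qb (n e : ℕ) : ℕ := n + (n + 2) ^ ex (iM e)

/-- the possible questions -/
abbrev QS (n e : ℕ) : Type := {q : List Bool // q.length ≤ qb n e}

/-- questions as elements of `QS` -/
def qf (n e : ℕ) (w : List Bool) : Option (QS n e) :=
  if h : w.length ≤ qb n e then some ⟨w, h⟩ else none

/-- `Good` with the length bound that is used for protected entries. -/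
def GoodP (O : Lang) (n e : ℕ) (z : List Bool) : Prop :=
  ∃ q : List Bool, q.length ≤ qb n e ∧
    (∀ b c, O (taddr e z b c) = bit q (b, c)) ∧ NL (iC e) O q = NL (iN e) O z

/-- the exponent of the blow-up in one step -/
def CC : ℕ := 40

end Pool.Agent.CK
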