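import Pool.Agent.Lib_helper74.CKF.Basic

/-!
# ADDR (MP_675993_lc): addresses
-/

set_option autoImplicit false

namespace Pool.Agent.CK

theorem addr_ones_inj (a b : ℕ) (u v : List Bool)
    (h : ones a ++ false :: u = ones b ++ false :: v) : a = b ∧ u = v := by
  induction a generalizing b with
  | zero =>
    cases b with
    | zero => simpa [ones] using h
    | succ b => simp [ones, List.replicate_succ] at h
  | succ a ih =>
    cases b with
    | zero => simp [ones, List.replicate_succ] at h
    | succ b =>
      have h' : ones a ++ false :: u = ones b ++ false :: v := by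
        simpa [ones, List.replicate_succ] using h
      obtain ⟨h1, h2⟩ := ih b h'
      exact ⟨by rw [h1], h2⟩

theorem addr_taddr_inj {e e' : ℕ} {z z' : List Bool} {b b' : ℕ} {c c' : Bool}
    (h : taddr e z b c = taddr e' z' b' c') : e = e' ∧ z = z' ∧ b = b' ∧ c = c' := by
  unfold taddr at h
  simp only [List.cons.injEq, true_and] at h
  obtain ⟨hc, h⟩ := h
  obtain ⟨hb, h⟩ := addr_ones_inj _ _ _ _ h
  obtain ⟨he, h⟩ := addr_ones_inj _ _ _ _ h
  obtain ⟨_, h⟩ := addr_ones_inj _ _ _ _ h
  exact ⟨he, h, hb, hc⟩

theorem tdec_taddr (e : ℕ) (z : List Bool) (b : ℕ) (c : Bool) :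
    tdec (taddr e z b c) = some ((e, z), (b, c)) := by
  have h : ∃ p : (ℕ × List Bool) × (ℕ × Bool),
      taddr e z b c = taddr p.1.1 p.1.2 p.2.1 p.2.2 := ⟨((e, z), (b, c)), rfl⟩
  rw [tdec, dif_pos h]
  obtain ⟨h1, h2, h3, h4⟩ := addr_taddr_inj h.choose_spec
  congr 1
  exact Prod.ext (Prod.ext h1.symm h2.symm) (Prod.ext h3.symm h4.symm)

theorem tdec_eq {w : List Bool} {p : (ℕ × List Bool) × (ℕ × Bool)} (h : tdec w = some p) :
    w = taddr p.1.1 p.1.2 p.2.1 p.2.2 := by
  unfold tdec at h
  split_ifs at h with h'
  · have := h'.choose_spec
    have h2 : h'.choose = p := Option.some.inj h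
    rw [h2] at this
    exact this

theorem addr_il_inj (x y x' y' : List Bool) (h : x.length = y.length)
    (h' : x'.length = y'.length) (hi : il x y = il x' y') : x = x' ∧ y = y' := by
  induction x generalizing y x' y' with
  | nil =>
    cases y with
    | nil =>
      cases x' with
      | nil =>
        cases y' with
        | nil => exact ⟨rfl, rfl⟩
        | cons b y' => simp at h'
      | cons a x' =>
        cases y' with
        | nil => simp at h'
        | cons b y' => simp [il] at hi
    | cons b y => simp at h
  | cons a x ih =>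
    cases y with
    | nil => simp at h
    | cons b y =>
      cases x' with
      | nil =>
        cases y' with
        | nil => simp [il] at hi
        | cons b y' => simp at h'
      | cons a' x' =>
        cases y' with
        | nil => simp at h'
        | cons b' y' =>
          simp only [il, List.cons.injEq] at hi
          obtain ⟨h1, h2, h3⟩ := hi
          obtain ⟨h4, h5⟩ := ih y x' y' (by simpa using h) (by simpa using h') h3
          exact ⟨by rw [h1, h4], by rw [h2, h5]⟩

theorem addr_il_length (x y : List Bool) (h : x.length = y.length) :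
    (il x y).length = 2 * x.length := by
  induction x generalizing y with
  | nil => simp [il]
  | cons a x ih =>
    cases y with
    | nil => simp at h
    | cons b y =>
      simp only [il, List.length_cons]
      rw [ih y (by simpa using h)]
      ring

theorem addr_saddr_inj {x y x' y' : List Bool} {b b' : Bool} (h : x.length = y.length)
    (h' : x'.length = y'.length) (hi : saddr x y b = saddr x' y' b') :
    x = x' ∧ y = y' ∧ b = b' := by
  unfold saddr at hi
  simp only [List.cons.injEq, true_and, List.reverse_inj] at hi
  obtain ⟨h1, h2⟩ := addr_il_inj _ _ _ _ h h' hi.2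
  exact ⟨h1, h2, hi.1⟩

theorem sdec_saddr (x y : List Bool) (b : Bool) (h : x.length = y.length) :
    sdec (saddr x y b) = some (x, (y, b)) := by
  have h' : ∃ p : List Bool × (List Bool × Bool), p.1.length = p.2.1.length ∧
      saddr x y b = saddr p.1 p.2.1 p.2.2 := ⟨(x, (y, b)), h, rfl⟩
  rw [sdec, dif_pos h']
  obtain ⟨h0, h1⟩ := h'.choose_spec
  obtain ⟨h2, h3, h4⟩ := addr_saddr_inj h h0 h1
  congr 1
  exact Prod.ext h2.symm (Prod.ext h3.symm h4.symm)

theorem sdec_eq {w : List Bool} {p : List Bool × (List Bool × Bool)} (h : sdec w = some p) :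
    p.1.length = p.2.1.length ∧ w = saddr p.1 p.2.1 p.2.2 := by
  unfold sdec at h
  split_ifs at h with h'
  · have := h'.choose_spec
    have h2 : h'.choose = p := Option.some.inj h
    rw [h2] at this
    exact this

theorem tdec_saddr (x y : List Bool) (b : Bool) : tdec (saddr x y b) = none := by
  unfold tdec
  rw [dif_neg]
  rintro ⟨p, hp⟩
  simp [saddr, taddr] at hp

theorem key_le (w : List Bool) : key w ≤ w.length := by
  unfold key
  split
  · rename_i p hp
    have := tdec_eq hp
    conv_rhs => rw [this]
    simp only [taddr, ones, List.length_cons, List.length_append, List.length_replicate]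
    omega
  · exact le_rfl

theorem key_taddr (e : ℕ) (z : List Bool) (b : ℕ) (c : Bool) :
    key (taddr e z b c) = alen e z := by
  unfold key
  rw [tdec_taddr]

theorem key_saddr (x y : List Bool) (b : Bool) (h : x.length = y.length) :
    key (saddr x y b) = 2 * x.length + 2 := by
  unfold key
  rw [tdec_saddr]
  simp only [saddr, List.length_cons, List.length_reverse]
  rw [addr_il_length x y h]

end Pool.Agent.CK
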