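import Pool.Agent.Lib_helper74.CKF.Basic

/-!
# CARD (MP_675993_lc): the derived class is small again
-/

set_option autoImplicit false

namespace Pool.Agent.CK

/-- finite with at most `2 ^ n` elements -/
def CardBd {α : Type} (S : Set α) (n : ℕ) : Prop := S.Finite ∧ S.ncard ≤ 2 ^ n

theorem card_mono {α : Type} {S T : Set α} {n m : ℕ} (h : CardBd T n) (hST : S ⊆ T)
    (hnm : n ≤ m) : CardBd S m := by
  refine ⟨h.1.subset hST, (Set.ncard_le_ncard hST h.1).trans (h.2.trans ?_)⟩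
  exact Nat.pow_le_pow_right (by norm_num) hnm

theorem card_image {α β : Type} {S : Set α} {n : ℕ} (f : α → β) (h : CardBd S n) :
    CardBd (f '' S) n :=
  ⟨h.1.image f, (Set.ncard_image_le h.1).trans h.2⟩

theorem card_prod {α β : Type} {S : Set α} {T : Set β} {n m : ℕ} (h : CardBd S n)
    (h' : CardBd T m) : CardBd (S ×ˢ T) (n + m) := by
  refine ⟨h.1.prod h'.1, ?_⟩
  rw [Set.ncard_prod, pow_add]
  exact Nat.mul_le_mul h.2 h'.2

theorem card_univ {α : Type} [Fintype α] {n : ℕ} (h : Fintype.card α ≤ 2 ^ n) :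
    CardBd (Set.univ : Set α) n := by
  refine ⟨Set.finite_univ, ?_⟩
  rw [Set.ncard_univ, Nat.card_eq_fintype_card]
  exact h

theorem card_union {α : Type} {S T : Set α} {n : ℕ} (h : CardBd S n) (h' : CardBd T n) :
    CardBd (S ∪ T) (n + 1) := by
  refine ⟨h.1.union h'.1, (Set.ncard_union_le S T).trans ?_⟩
  have := h.2
  have := h'.2
  rw [pow_succ]
  omega

theorem card_nat (m : ℕ) : CardBd {θ : ℕ | θ ≤ m} (m + 1) := by
  have h : {θ : ℕ | θ ≤ m} = ((Finset.range (m + 1) : Finset ℕ) : Set ℕ) := by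
    ext x
    simp [Nat.lt_succ_iff]
  rw [h]
  refine ⟨Finset.finite_toSet _, ?_⟩
  rw [Set.ncard_coe_finset, Finset.card_range]
  exact Nat.lt_two_pow_self.le

theorem card_list {α : Type} {S : Set α} {u : ℕ} (h : CardBd S u) (k : ℕ) :
    CardBd {l : List α | l.length ≤ k ∧ ∀ a ∈ l, a ∈ S} ((u + 1) * k) := by
  induction k with
  | zero =>
    have e : {l : List α | l.length ≤ 0 ∧ ∀ a ∈ l, a ∈ S} = {[]} := by
      ext l
      simp only [Set.mem_setOf_eq, Set.mem_singleton_iff]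
      constructor
      · intro hl
        exact List.length_eq_zero_iff.1 (Nat.le_zero.1 hl.1)
      · intro hl
        subst hl
        simp
    rw [e]
    refine ⟨Set.finite_singleton _, ?_⟩
    rw [Set.ncard_singleton]
    exact Nat.one_le_two_pow
  | succ k ih =>
    have hsub : {l : List α | l.length ≤ k + 1 ∧ ∀ a ∈ l, a ∈ S} ⊆
        {[]} ∪ (fun p : α × List α => p.1 :: p.2) ''
          (S ×ˢ {l : List α | l.length ≤ k ∧ ∀ a ∈ l, a ∈ S}) := by
      rintro l ⟨hl1, hl2⟩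
      cases l with
      | nil => left; rfl
      | cons a l =>
        right
        refine ⟨(a, l), ⟨hl2 a (by simp), ?_, fun b hb => hl2 b (by simp [hb])⟩, rfl⟩
        simpa using hl1
    have h1 : CardBd (({[]} : Set (List α)) ∪ (fun p : α × List α => p.1 :: p.2) ''
          (S ×ˢ {l : List α | l.length ≤ k ∧ ∀ a ∈ l, a ∈ S})) ((u + (u + 1) * k) + 1) := by
      apply card_union
      · refine ⟨Set.finite_singleton _, ?_⟩
        rw [Set.ncard_singleton]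
        exact Nat.one_le_two_pow
      · exact card_image _ (card_prod h ih)
    exact card_mono h1 hsub (by ring_nf; omega)

section

variable {X Z Q ι : Type} [Fintype X] [Fintype Z] [DecidableEq Z] [Fintype Q] [DecidableEq Q]

theorem card_fam {Fam : Set (X → DT Bool)} {B : ℕ} (hF : Small B Fam) : CardBd Fam B :=
  ⟨hF.1, hF.2.1⟩

theorem card_lists {α : Type} [Fintype α] {n : ℕ} (h : Fintype.card α ≤ 2 ^ n) (k : ℕ) :
    CardBd {l : List α | l.length ≤ k} ((n + 1) * k) :=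
  card_mono (card_list (card_univ h) k) (fun l hl => ⟨hl, fun _ _ => trivial⟩) le_rfl

theorem card_ZQ {B : ℕ} (hZ : Fintype.card Z ≤ 2 ^ B) (hQ : Fintype.card Q ≤ 2 ^ B) :
    Fintype.card (Z × Q) ≤ 2 ^ (2 * B) := by
  rw [Fintype.card_prod, two_mul, pow_add]
  exact Nat.mul_le_mul hZ hQ

theorem card_sim (pos : List Bool → Option (Z × ι)) (rd : Q → ι → Bool)
    (Fam : Set (X → DT Bool)) (B : ℕ)
    (hF : Small B Fam) (hZ : Fintype.card Z ≤ 2 ^ B) (hQ : Fintype.card Q ≤ 2 ^ B) :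
    CardBd (SimClass pos rd B Fam)
      (B + ((2 * B + 1) * (31 * (B + 1) * B) + ((B + 1) * B + 1) * (2 * B + 1))) := by
  have h1 := card_image (fun p : (X → DT Bool) × (List (Z × Q) × List (List Q)) =>
      (fun x => DT.maj (p.2.2.map fun r => sim pos rd (p.1 x) p.2.1 r)))
    (card_prod (card_fam hF) (card_prod (card_lists (card_ZQ hZ hQ) (31 * (B + 1) * B))
      (card_list (card_lists hQ B) (2 * B + 1))))
  refine card_mono h1 ?_ le_rfl
  rintro A' ⟨A, hA, ρ, hρ, rs, hrs, hr, rfl⟩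
  exact ⟨(A, (ρ, rs)), ⟨hA, hρ, hrs.le, fun r hr' => (hr r hr').le⟩, rfl⟩

theorem card_tests (Fam : Set (X → DT Bool)) (B : ℕ)
    (hF : Small B Fam) (hX : Fintype.card X ≤ 2 ^ B) (hZ : Fintype.card Z ≤ 2 ^ B)
    (hQ : Fintype.card Q ≤ 2 ^ B) :
    CardBd {t : Test X Z Q | TestOK B Fam t}
      (B + (B + ((2 * B + 1) * (31 * (B + 1) * B) + ((B + 1) * B + ((B + 1) * B + 1))))) := by
  have h1 := card_image (fun p : (X → DT Bool) × (X × (List (Z × Q) × (List Q ×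
        (List Q × Bool)))) => (⟨p.1, p.2.1, p.2.2.1, p.2.2.2.1, p.2.2.2.2.1, p.2.2.2.2.2⟩ :
          Test X Z Q))
    (card_prod (card_fam hF) (card_prod (card_univ hX)
      (card_prod (card_lists (card_ZQ hZ hQ) (31 * (B + 1) * B))
        (card_prod (card_lists hQ B) (card_prod (card_lists hQ B)
          (card_univ (α := Bool) (n := 1) (by simp)))))))
  refine card_mono h1 ?_ le_rfl
  rintro ⟨A, x, ρ, pre, post, β⟩ ⟨h1, h2, h3, h4⟩
  exact ⟨(A, (x, (ρ, (pre, (post, β))))), ⟨h1, trivial, h2, h3, h4, trivial⟩, rfl⟩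

theorem card_comp (pos : List Bool → Option (Z × ι)) (rd : Q → ι → Bool)
    (qf : List Bool → Option Q) (M : X → DT Bool)
    (Fam : Set (X → DT Bool)) (B : ℕ)
    (hF : Small B Fam) (hX : Fintype.card X ≤ 2 ^ B) (hZ : Fintype.card Z ≤ 2 ^ B)
    (hQ : Fintype.card Q ≤ 2 ^ B) :
    CardBd (CompClass pos rd qf M B Fam)
      (((B + (B + ((2 * B + 1) * (31 * (B + 1) * B) + ((B + 1) * B + ((B + 1) * B + 1))))) + 1) *
        (4 * (32 * B) ^ 2 * (2 * B + 1)) + ((4 * (32 * B) ^ 2 * (2 * B + 1) + 1) + 1)) := by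
  have h1 := card_image (fun p : List (Test X Z Q) × ℕ =>
      (fun x => DT.tr (fun w => match qf w with
      | none => DT.leaf false
      | some q => DT.thr (p.1.map fun t => t.tree pos rd q) p.2) (M x)))
    (card_prod (card_list (card_tests Fam B hF hX hZ hQ) (4 * (32 * B) ^ 2 * (2 * B + 1)))
      (card_nat (4 * (32 * B) ^ 2 * (2 * B + 1) + 1)))
  refine card_mono h1 ?_ le_rfl
  rintro A' ⟨l, hl, hl', θ, hθ, rfl⟩
  exact ⟨(l, θ), ⟨⟨hl, hl'⟩, hθ.trans (by simpa using hl)⟩, rfl⟩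

theorem card_num1 (B : ℕ) (hB : 2 ≤ B) :
    (((B + (B + ((2 * B + 1) * (31 * (B + 1) * B) + ((B + 1) * B + ((B + 1) * B + 1))))) + 1) *
        (4 * (32 * B) ^ 2 * (2 * B + 1)) + ((4 * (32 * B) ^ 2 * (2 * B + 1) + 1) + 1)) ≤
      B ^ 39 := by
  have h1 : (B + (B + ((2 * B + 1) * (31 * (B + 1) * B) + ((B + 1) * B +
      ((B + 1) * B + 1))))) + 1 ≤ 256 * B ^ 3 := by
    obtain ⟨b, rfl⟩ : ∃ b, B = b + 2 := ⟨B - 2, by omega⟩
    nlinarith [Nat.zero_le b, Nat.zero_le (b ^ 2), Nat.zero_le (b ^ 3)]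
  have h2 : 4 * (32 * B) ^ 2 * (2 * B + 1) + 1 + 1 ≤ 16384 * B ^ 3 := by
    obtain ⟨b, rfl⟩ : ∃ b, B = b + 2 := ⟨B - 2, by omega⟩
    nlinarith [Nat.zero_le b, Nat.zero_le (b ^ 2), Nat.zero_le (b ^ 3)]
  have h3 : 4 * (32 * B) ^ 2 * (2 * B + 1) ≤ 16384 * B ^ 3 := by omega
  have h4 : 1 ≤ B ^ 3 := Nat.one_le_pow _ _ (by omega)
  have h5 := Nat.mul_le_mul h1 h3
  have h6 : (2:ℕ) ^ 23 ≤ B ^ 23 := Nat.pow_le_pow_left hB 23
  have h7 : 256 * B ^ 3 * (16384 * B ^ 3) = 2 ^ 22 * B ^ 6 := by ring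
  have h8 : 16384 * B ^ 3 ≤ 2 ^ 22 * B ^ 6 := by
    have : B ^ 3 ≤ B ^ 6 := Nat.pow_le_pow_right (by omega) (by norm_num)
    omega
  have h9 : 2 ^ 23 * B ^ 6 ≤ B ^ 23 * B ^ 6 := Nat.mul_le_mul_right _ h6
  have h10 : B ^ 23 * B ^ 6 = B ^ 29 := by ring
  have h11 : B ^ 29 ≤ B ^ 39 := Nat.pow_le_pow_right (by omega) (by norm_num)
  have h12 : 2 ^ 23 * B ^ 6 = 2 ^ 22 * B ^ 6 + 2 ^ 22 * B ^ 6 := by ring
  omega

theorem card_num2 (B : ℕ) (hB : 2 ≤ B) :
    B + ((2 * B + 1) * (31 * (B + 1) * B) + ((B + 1) * B + 1) * (2 * B + 1)) ≤ B ^ 39 := by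
  have h1 : B + ((2 * B + 1) * (31 * (B + 1) * B) + ((B + 1) * B + 1) * (2 * B + 1)) ≤
      256 * B ^ 3 := by
    obtain ⟨b, rfl⟩ : ∃ b, B = b + 2 := ⟨B - 2, by omega⟩
    nlinarith [Nat.zero_le b, Nat.zero_le (b ^ 2), Nat.zero_le (b ^ 3)]
  have h2 : (2:ℕ) ^ 8 ≤ B ^ 8 := Nat.pow_le_pow_left hB 8
  have h3 : 2 ^ 8 * B ^ 3 ≤ B ^ 8 * B ^ 3 := Nat.mul_le_mul_right _ h2
  have h4 : B ^ 8 * B ^ 3 = B ^ 11 := by ring
  have h5 : B ^ 11 ≤ B ^ 39 := Nat.pow_le_pow_right (by omega) (by norm_num)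
  omega

theorem card_num3 (B : ℕ) (hB : 2 ≤ B) : (2 * B + 1) * B ≤ B ^ 40 := by
  have h1 : (2 * B + 1) ≤ 2 ^ 2 * B := by omega
  have h2 : (2:ℕ) ^ 2 ≤ B ^ 2 := Nat.pow_le_pow_left hB 2
  calc (2 * B + 1) * B ≤ (2 ^ 2 * B) * B := Nat.mul_le_mul_right _ h1
    _ ≤ (B ^ 2 * B) * B := Nat.mul_le_mul_right _ (Nat.mul_le_mul_right _ h2)
    _ = B ^ 4 := by ring
    _ ≤ B ^ 40 := Nat.pow_le_pow_right (by omega) (by norm_num)

theorem card_num4 (B : ℕ) (hB : 2 ≤ B) :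
    B * (4 * (32 * B) ^ 2 * (2 * B + 1) * B) ≤ B ^ 40 := by
  have h1 : (2 * B + 1) ≤ 2 ^ 2 * B := by omega
  have h2 : (2:ℕ) ^ 14 ≤ B ^ 14 := Nat.pow_le_pow_left hB 14
  calc B * (4 * (32 * B) ^ 2 * (2 * B + 1) * B) ≤ B * (4 * (32 * B) ^ 2 * (2 ^ 2 * B) * B) :=
        Nat.mul_le_mul_left _ (Nat.mul_le_mul_right _ (Nat.mul_le_mul_left _ h1))
    _ = 2 ^ 14 * B ^ 5 := by ring
    _ ≤ B ^ 14 * B ^ 5 := Nat.mul_le_mul_right _ h2
    _ = B ^ 19 := by ring
    _ ≤ B ^ 40 := Nat.pow_le_pow_right (by omega) (by norm_num)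

/-- CARD: the derived class is small again. -/
theorem small_next (pos : List Bool → Option (Z × ι)) (rd : Q → ι → Bool)
    (qf : List Bool → Option Q) (M : X → DT Bool) (Fam : Set (X → DT Bool)) (B : ℕ) (hB : 2 ≤ B)
    (hF : Small B Fam) (hX : Fintype.card X ≤ 2 ^ B) (hZ : Fintype.card Z ≤ 2 ^ B)
    (hQ : Fintype.card Q ≤ 2 ^ B) (hM : ∀ x, (M x).depth ≤ B) :
    Small (B ^ CC) (Next pos rd qf M B Fam) := by
  have h1 := card_mono (card_sim (ι := ι) pos rd Fam B hF hZ hQ) le_rfl (card_num2 B hB)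
  have h2 := card_mono (card_comp (ι := ι) pos rd qf M Fam B hF hX hZ hQ) le_rfl
    (card_num1 B hB)
  have h3 : B ^ 39 + 1 ≤ B ^ CC := by
    have e : B ^ CC = B ^ 39 * B := by rw [CC]; ring
    have e2 : 1 ≤ B ^ 39 := Nat.one_le_pow _ _ (by omega)
    rw [e]
    nlinarith
  have h4 := card_mono (card_union h1 h2) le_rfl h3
  refine ⟨h4.1, h4.2, ?_⟩
  rintro A' (⟨A, hA, ρ, hρ, rs, hrs, hr, rfl⟩ | ⟨l, hl, hl', θ, hθ, rfl⟩) x
  · refine (DT.depth_maj _ B ?_).trans ?_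
    · intro t ht
      obtain ⟨r, _, rfl⟩ := List.mem_map.1 ht
      exact (depth_sim pos rd _ _ _).trans (hF.2.2 A hA x)
    · rw [List.length_map, hrs]
      exact card_num3 B hB
  · refine (DT.depth_tr _ (M x) (4 * (32 * B) ^ 2 * (2 * B + 1) * B) ?_ ?_).trans ?_
    · have : 0 < 4 * (32 * B) ^ 2 * (2 * B + 1) * B := by positivity
      omega
    · intro w
      cases qf w with
      | none => simp
      | some q =>
        refine (DT.depth_thr _ _ B ?_).trans ?_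
        · intro t ht
          obtain ⟨t', ht', rfl⟩ := List.mem_map.1 ht
          exact (Test.depth_tree pos rd t' q).trans (hF.2.2 _ (hl' t' ht').1 _)
        · rw [List.length_map]
          exact Nat.mul_le_mul_right _ hl
    · exact (Nat.mul_le_mul_right _ (hM x)).trans (card_num4 B hB)

end

end Pool.Agent.CK
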