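import Pool.Agent.Lib_helper74.CKF.Basic

/-! # CK block HC (helper4) -/

set_option autoImplicit false
set_option linter.unusedSectionVars false

namespace Pool.Agent.CK

section

variable {Q : Type} [Fintype Q] [DecidableEq Q]

/-- weights on the positive instances -/
noncomputable def hc_w1 (c : Q → Bool) (γ : ℝ) (l : List (Q → Bool)) (q : Q) : ℝ :=
  if c q = true then (1 - γ) ^ (l.countP fun f => f q) else 0

/-- weights on the negative instances -/
noncomputable def hc_w0 (c : Q → Bool) (γ : ℝ) (l : List (Q → Bool)) (q : Q) : ℝ :=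
  if c q = true then 0 else (1 + γ) ^ (l.countP fun f => f q)

theorem hc_w1_cons (c : Q → Bool) (γ : ℝ) (f : Q → Bool) (l : List (Q → Bool)) (q : Q) :
    hc_w1 c γ (f :: l) q = hc_w1 c γ l q - γ * (hc_w1 c γ l q * ind (f q)) := by
  unfold hc_w1 ind
  rw [List.countP_cons]
  by_cases h : c q = true <;> cases hf : f q <;> simp [h, pow_succ]
  ring

theorem hc_w0_cons (c : Q → Bool) (γ : ℝ) (f : Q → Bool) (l : List (Q → Bool)) (q : Q) :
    hc_w0 c γ (f :: l) q = hc_w0 c γ l q + γ * (hc_w0 c γ l q * ind (f q)) := by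
  unfold hc_w0 ind
  rw [List.countP_cons]
  by_cases h : c q = true <;> cases hf : f q <;> simp [h, pow_succ]
  ring

theorem hc_w1_nonneg (c : Q → Bool) {γ : ℝ} (hγ : γ < 1) (l : List (Q → Bool)) (q : Q) :
    0 ≤ hc_w1 c γ l q := by
  unfold hc_w1
  split
  · have : 0 ≤ 1 - γ := by linarith
    positivity
  · exact le_rfl

theorem hc_w0_nonneg (c : Q → Bool) {γ : ℝ} (hγ : 0 ≤ γ) (l : List (Q → Bool)) (q : Q) :
    0 ≤ hc_w0 c γ l q := by
  unfold hc_w0
  split
  · exact le_rfl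
  · have : 0 ≤ 1 + γ := by linarith
    positivity

theorem hc_W1_pos (c : Q → Bool) {γ : ℝ} (hγ : γ < 1) (l : List (Q → Bool))
    (h1 : ∃ q, c q = true) : 0 < ∑ q, hc_w1 c γ l q := by
  obtain ⟨q, hq⟩ := h1
  refine Finset.sum_pos' (fun q _ => hc_w1_nonneg c hγ l q) ⟨q, Finset.mem_univ _, ?_⟩
  unfold hc_w1
  rw [if_pos hq]
  have : 0 < 1 - γ := by linarith
  positivity

theorem hc_W0_pos (c : Q → Bool) {γ : ℝ} (hγ : 0 ≤ γ) (l : List (Q → Bool))
    (h0 : ∃ q, c q = false) : 0 < ∑ q, hc_w0 c γ l q := by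
  obtain ⟨q, hq⟩ := h0
  refine Finset.sum_pos' (fun q _ => hc_w0_nonneg c hγ l q) ⟨q, Finset.mem_univ _, ?_⟩
  unfold hc_w0
  rw [if_neg (by simp [hq])]
  positivity

theorem hc_iter (c : Q → Bool) (D : Set (Q → Bool)) (N s : ℕ) (hN : 1 ≤ N)
    (hs : Fintype.card Q ≤ 2 ^ s) (h1 : ∃ q, c q = true) (h0 : ∃ q, c q = false)
    (hno : ¬ ∃ ν : Bool → Q → ℝ, (∀ b, (∀ q, 0 ≤ ν b q) ∧ ∑ q, ν b q = 1) ∧
      (∀ b q, ν b q ≠ 0 → c q = b) ∧
      ∀ f ∈ D, ∑ q, ν true q * ind (f q) ≤ ∑ q, ν false q * ind (f q) + 1 / (N : ℝ)) (m : ℕ) :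
    ∃ l : List (Q → Bool), l.length = m ∧ (∀ f ∈ l, f ∈ D) ∧
      (∑ q, hc_w1 c (1 / (2 * (N : ℝ))) l q) * (∑ q, hc_w0 c (1 / (2 * (N : ℝ))) l q) ≤
        2 ^ (2 * s) * (1 - 1 / (2 * (N : ℝ) ^ 2)) ^ m := by
  have hN' : (1 : ℝ) ≤ N := by exact_mod_cast hN
  set γ : ℝ := 1 / (2 * (N : ℝ)) with hγ
  have hγ0 : 0 ≤ γ := by positivity
  have hγ1 : γ < 1 := by
    rw [hγ, div_lt_one (by positivity)]
    linarith
  induction m with
  | zero =>
    refine ⟨[], rfl, by simp, ?_⟩
    have hcard : ((Fintype.card Q : ℕ) : ℝ) ≤ 2 ^ s := by exact_mod_cast hs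
    have a1 : ∑ q, hc_w1 c γ [] q ≤ Fintype.card Q := by
      calc ∑ q, hc_w1 c γ [] q ≤ ∑ _q : Q, (1 : ℝ) := Finset.sum_le_sum fun q _ => by
            unfold hc_w1; split <;> simp
        _ = _ := by simp
    have a0 : ∑ q, hc_w0 c γ [] q ≤ Fintype.card Q := by
      calc ∑ q, hc_w0 c γ [] q ≤ ∑ _q : Q, (1 : ℝ) := Finset.sum_le_sum fun q _ => by
            unfold hc_w0; split <;> simp
        _ = _ := by simp
    calc _ ≤ (2 : ℝ) ^ s * 2 ^ s := mul_le_mul (a1.trans hcard) (a0.trans hcard)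
            (hc_W0_pos c hγ0 [] h0).le (by positivity)
      _ = _ := by rw [pow_zero, mul_one, ← pow_add, two_mul]
  | succ m ih =>
    obtain ⟨l, hl, hlD, hW⟩ := ih
    have hW1 := hc_W1_pos c hγ1 l h1
    have hW0 := hc_W0_pos c hγ0 l h0
    set W1 := ∑ q, hc_w1 c γ l q with hW1d
    set W0 := ∑ q, hc_w0 c γ l q with hW0d
    have hex : ∃ f ∈ D, W0⁻¹ * (∑ q, hc_w0 c γ l q * ind (f q)) + 1 / (N : ℝ) <
        W1⁻¹ * (∑ q, hc_w1 c γ l q * ind (f q)) := by
      by_contra hcon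
      push Not at hcon
      apply hno
      refine ⟨fun b q => if b = true then W1⁻¹ * hc_w1 c γ l q else W0⁻¹ * hc_w0 c γ l q,
        ?_, ?_, ?_⟩
      · intro b
        cases b
        · simp only [Bool.false_eq_true, if_false]
          exact ⟨fun q => mul_nonneg (inv_nonneg.2 hW0.le) (hc_w0_nonneg c hγ0 l q), by
            rw [← Finset.mul_sum, ← hW0d, inv_mul_cancel₀ hW0.ne']⟩
        · simp only [if_true]
          exact ⟨fun q => mul_nonneg (inv_nonneg.2 hW1.le) (hc_w1_nonneg c hγ1 l q), by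
            rw [← Finset.mul_sum, ← hW1d, inv_mul_cancel₀ hW1.ne']⟩
      · intro b q hb
        cases b
        · simp only [Bool.false_eq_true, if_false] at hb
          by_contra hq
          apply hb
          have : c q = true := by simpa using hq
          simp [hc_w0, this]
        · simp only [if_true] at hb
          by_contra hq
          apply hb
          simp [hc_w1, hq]
      · intro f hf
        have := hcon f hf
        simp only [Bool.false_eq_true, if_false, if_true]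
        simp only [mul_assoc, ← Finset.mul_sum]
        exact this
    obtain ⟨f, hf, hlt⟩ := hex
    refine ⟨f :: l, by simp [hl], ?_, ?_⟩
    · intro g hg
      rcases List.mem_cons.1 hg with h | h
      · rw [h]; exact hf
      · exact hlD _ h
    · set S1 := ∑ q, hc_w1 c γ l q * ind (f q) with hS1
      set S0 := ∑ q, hc_w0 c γ l q * ind (f q) with hS0
      have e1 : ∑ q, hc_w1 c γ (f :: l) q = W1 - γ * S1 := by
        simp only [hc_w1_cons, Finset.sum_sub_distrib, ← Finset.mul_sum]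
        rfl
      have e0 : ∑ q, hc_w0 c γ (f :: l) q = W0 + γ * S0 := by
        simp only [hc_w0_cons, Finset.sum_add_distrib, ← Finset.mul_sum]
        rfl
      have hi : ∀ b, 0 ≤ ind b := fun b => by unfold ind; split <;> norm_num
      have hS1n : 0 ≤ S1 := Finset.sum_nonneg fun q _ => mul_nonneg (hc_w1_nonneg c hγ1 l q) (hi _)
      have hS0n : 0 ≤ S0 := Finset.sum_nonneg fun q _ => mul_nonneg (hc_w0_nonneg c hγ0 l q) (hi _)
      rw [e1, e0, pow_succ, ← mul_assoc]
      have h2 : W1 * W0 / N ≤ W0 * S1 - W1 * S0 := by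
        have h3 := mul_lt_mul_of_pos_left hlt (mul_pos hW1 hW0)
        have h4 : W1 * W0 * (W0⁻¹ * S0 + 1 / (N : ℝ)) = W1 * S0 + W1 * W0 / N := by
          field_simp
        have h5 : W1 * W0 * (W1⁻¹ * S1) = W0 * S1 := by
          field_simp
        rw [h4, h5] at h3
        linarith
      have h6 : (W1 - γ * S1) * (W0 + γ * S0) ≤ W1 * W0 * (1 - 1 / (2 * (N : ℝ) ^ 2)) := by
        have h7 : W1 * W0 * (1 - 1 / (2 * (N : ℝ) ^ 2)) = W1 * W0 - γ * (W1 * W0 / N) := by
          rw [hγ]; field_simp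
        rw [h7]
        have h8 : 0 ≤ γ * γ * (S1 * S0) := by positivity
        have h9 := mul_le_mul_of_nonneg_left h2 hγ0
        nlinarith
      have h10 : 0 ≤ 1 - 1 / (2 * (N : ℝ) ^ 2) := by
        rw [sub_nonneg, div_le_one (by positivity)]
        nlinarith
      exact h6.trans (mul_le_mul_of_nonneg_right hW h10)

theorem hardcore (c : Q → Bool) (D : Set (Q → Bool))
    (N s : ℕ) (hN : 1 ≤ N) (hs : Fintype.card Q ≤ 2 ^ s) :
    (∃ ν : Bool → Q → ℝ, (∀ b, (∀ q, 0 ≤ ν b q) ∧ ∑ q, ν b q = 1) ∧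
      (∀ b q, ν b q ≠ 0 → c q = b) ∧
      ∀ f ∈ D, ∑ q, ν true q * ind (f q) ≤ ∑ q, ν false q * ind (f q) + 1 / (N : ℝ)) ∨
    (∃ l : List (Q → Bool), l.length ≤ 4 * N ^ 2 * (2 * s + 1) ∧ (∀ f ∈ l, f ∈ D) ∧
      ∃ θ ≤ l.length + 1, ∀ q, c q = decide (θ ≤ l.countP fun f => f q)) := by
  classical
  by_cases hno : (∃ ν : Bool → Q → ℝ, (∀ b, (∀ q, 0 ≤ ν b q) ∧ ∑ q, ν b q = 1) ∧
      (∀ b q, ν b q ≠ 0 → c q = b) ∧
      ∀ f ∈ D, ∑ q, ν true q * ind (f q) ≤ ∑ q, ν false q * ind (f q) + 1 / (N : ℝ))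
  · exact Or.inl hno
  right
  by_cases h0 : ∃ q, c q = false
  swap
  · refine ⟨[], by simp, by simp, 0, by simp, fun q => ?_⟩
    have : c q = true := by
      by_contra hq
      exact h0 ⟨q, by simpa using hq⟩
    simp [this]
  by_cases h1 : ∃ q, c q = true
  swap
  · refine ⟨[], by simp, by simp, 1, by simp, fun q => ?_⟩
    have : c q = false := by
      by_contra hq
      exact h1 ⟨q, by simpa using hq⟩
    simp [this]
  obtain ⟨l, hl, hlD, hW⟩ := hc_iter c D N s hN hs h1 h0 hno (4 * N ^ 2 * (2 * s + 1))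
  have hN' : (1 : ℝ) ≤ N := by exact_mod_cast hN
  have claim : ∀ q1 q0, c q1 = true → c q0 = false →
      (l.countP fun f => f q0) < (l.countP fun f => f q1) := by
    intro q1 q0 hq1 hq0
    by_contra hcon
    push Not at hcon
    set γ : ℝ := 1 / (2 * (N : ℝ)) with hγ
    set m := 4 * N ^ 2 * (2 * s + 1) with hm
    have hγ0 : 0 ≤ γ := by positivity
    have hγ1 : γ < 1 := by
      rw [hγ, div_lt_one (by positivity)]
      linarith
    have b1 : (1 - γ) ^ (l.countP fun f => f q1) ≤ ∑ q, hc_w1 c γ l q := by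
      have := Finset.single_le_sum (f := fun q => hc_w1 c γ l q)
        (fun q _ => hc_w1_nonneg c hγ1 l q) (Finset.mem_univ q1)
      simpa [hc_w1, hq1] using this
    have b0 : (1 + γ) ^ (l.countP fun f => f q0) ≤ ∑ q, hc_w0 c γ l q := by
      have := Finset.single_le_sum (f := fun q => hc_w0 c γ l q)
        (fun q _ => hc_w0_nonneg c hγ0 l q) (Finset.mem_univ q0)
      simpa [hc_w0, hq0] using this
    have b2 : (1 + γ) ^ (l.countP fun f => f q1) ≤ (1 + γ) ^ (l.countP fun f => f q0) :=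
      pow_le_pow_right₀ (by linarith) hcon
    have b3 : (1 - γ ^ 2) ^ m ≤ (1 - γ ^ 2) ^ (l.countP fun f => f q1) := by
      apply pow_le_pow_of_le_one
      · nlinarith
      · nlinarith
      · rw [← hl]; exact List.countP_le_length
    have b4 : (1 - γ ^ 2) ^ (l.countP fun f => f q1) =
        (1 - γ) ^ (l.countP fun f => f q1) * (1 + γ) ^ (l.countP fun f => f q1) := by
      rw [← mul_pow]; congr 1; ring
    have hp1 : 0 ≤ (1 - γ) ^ (l.countP fun f => f q1) := pow_nonneg (by linarith) _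
    have hp2 : 0 ≤ (1 + γ) ^ (l.countP fun f => f q0) := pow_nonneg (by linarith) _
    have b5 : (1 - γ ^ 2) ^ m ≤ 2 ^ (2 * s) * (1 - 1 / (2 * (N : ℝ) ^ 2)) ^ m := by
      calc (1 - γ ^ 2) ^ m ≤ (1 - γ) ^ (l.countP fun f => f q1) *
              (1 + γ) ^ (l.countP fun f => f q1) := by rw [← b4]; exact b3
        _ ≤ (1 - γ) ^ (l.countP fun f => f q1) * (1 + γ) ^ (l.countP fun f => f q0) :=
            mul_le_mul_of_nonneg_left b2 hp1
        _ ≤ _ := mul_le_mul b1 b0 hp2 (hp1.trans b1)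
        _ ≤ _ := hW
    set g : ℝ := γ ^ 2 with hg
    have hgN : g * (4 * (N : ℝ) ^ 2) = 1 := by
      rw [hg, hγ]; field_simp; norm_num
    have hg2 : 1 - 1 / (2 * (N : ℝ) ^ 2) = 1 - 2 * g := by
      rw [hg, hγ]; field_simp
    have hg0 : 0 < g := by
      rw [hg, hγ]; positivity
    have hN2 : (1 : ℝ) ≤ (N : ℝ) ^ 2 := by nlinarith
    have hg1 : g ≤ 1 / 4 := by nlinarith [mul_nonneg hg0.le (sub_nonneg.2 hN2)]
    rw [hg2] at b5
    have b6 : ((1 + g) * (1 - 2 * g)) ^ m ≤ (1 - g) ^ m := by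
      apply pow_le_pow_left₀
      · apply mul_nonneg <;> linarith
      · nlinarith
    rw [mul_pow] at b6
    have hpos : 0 < (1 - 2 * g) ^ m := pow_pos (by linarith) _
    have b7 : (1 + g) ^ m ≤ 2 ^ (2 * s) := by
      have := b6.trans b5
      exact le_of_mul_le_mul_right this hpos
    have b8 : (2 : ℝ) ≤ (1 + g) ^ (4 * N ^ 2) := by
      have := one_add_mul_le_pow (a := g) (by linarith) (4 * N ^ 2)
      push_cast at this
      nlinarith
    have b9 : (2 : ℝ) ^ (2 * s + 1) ≤ (1 + g) ^ m := by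
      rw [hm, pow_mul]
      exact pow_le_pow_left₀ (by norm_num) b8 _
    have b10 := b9.trans b7
    rw [pow_succ] at b10
    have : (0 : ℝ) < 2 ^ (2 * s) := by positivity
    linarith
  refine ⟨l, hl.le, hlD, ?_⟩
  have hne : (Finset.univ.filter fun q => c q = true).Nonempty := by
    obtain ⟨q, hq⟩ := h1
    exact ⟨q, by simp [hq]⟩
  obtain ⟨q1, hq1m, hq1⟩ := Finset.exists_min_image
    (Finset.univ.filter fun q => c q = true) (fun q => l.countP fun f => f q) hne
  have hq1c : c q1 = true := by simpa using hq1m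
  refine ⟨l.countP fun f => f q1, (List.countP_le_length).trans (Nat.le_succ _), fun q => ?_⟩
  cases hq : c q
  · symm
    rw [decide_eq_false_iff_not, not_le]
    exact claim q1 q hq1c hq
  · symm
    rw [decide_eq_true_iff]
    exact hq1 q (by simp [hq])

end

end Pool.Agent.CK
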