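import Pool.Agent.Lib_helper74.CKF.TREE

/-!
# Block HYB
-/

set_option autoImplicit false

namespace Pool.Agent.CK

section hyb_exL

variable {Q : Type} [Fintype Q]

theorem hyb_exL_mono {ν : Q → ℝ} (hν : ∀ q, 0 ≤ ν q) (d : ℕ) {F G : List Q → ℝ}
    (h : ∀ l : List Q, l.length = d → F l ≤ G l) : exL ν d F ≤ exL ν d G := by
  induction d generalizing F G with
  | zero => exact h [] rfl
  | succ d ih =>
    refine Finset.sum_le_sum fun q _ => mul_le_mul_of_nonneg_left (ih ?_) (hν q)
    intro l hl
    exact h (q :: l) (by simp [hl])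

theorem hyb_exL_sum (ν : Q → ℝ) (d : ℕ) {J : Type} (s : Finset J) (a : J → ℝ)
    (F : J → List Q → ℝ) :
    exL ν d (fun l => ∑ j ∈ s, a j * F j l) = ∑ j ∈ s, a j * exL ν d (F j) := by
  induction d generalizing F with
  | zero => rfl
  | succ d ih =>
    change ∑ q, ν q * exL ν d (fun l => ∑ j ∈ s, a j * F j (q :: l)) =
      ∑ j ∈ s, a j * ∑ q, ν q * exL ν d (fun l => F j (q :: l))
    have h1 : ∀ q, exL ν d (fun l => ∑ j ∈ s, a j * F j (q :: l)) =
        ∑ j ∈ s, a j * exL ν d (fun l => F j (q :: l)) := fun q => ih (fun j l => F j (q :: l))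
    simp_rw [h1, Finset.mul_sum]
    rw [Finset.sum_comm]
    exact Finset.sum_congr rfl fun j _ => Finset.sum_congr rfl fun q _ => by ring

theorem hyb_exL_add (ν : Q → ℝ) (d : ℕ) (F G : List Q → ℝ) :
    exL ν d (fun l => F l + G l) = exL ν d F + exL ν d G := by
  induction d generalizing F G with
  | zero => rfl
  | succ d ih =>
    change ∑ q, ν q * exL ν d (fun l => F (q :: l) + G (q :: l)) =
      ∑ q, ν q * exL ν d (fun l => F (q :: l)) + ∑ q, ν q * exL ν d (fun l => G (q :: l))
    rw [← Finset.sum_add_distrib]
    refine Finset.sum_congr rfl fun q _ => ?_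
    rw [ih (fun l => F (q :: l)) (fun l => G (q :: l)), mul_add]

theorem hyb_exL_const {ν : Q → ℝ} (hν : ∑ q, ν q = 1) (d : ℕ) (c : ℝ) :
    exL ν d (fun _ => c) = c := by
  induction d with
  | zero => rfl
  | succ d ih =>
    change ∑ q, ν q * exL ν d (fun _ => c) = c
    rw [ih, ← Finset.sum_mul, hν, one_mul]

end hyb_exL

variable {Z Q ι : Type} [Fintype Z] [DecidableEq Z] [Fintype Q] [DecidableEq Q]

omit [Fintype Z] [Fintype Q] [DecidableEq Q] in
theorem hyb_sim_none (pos : List Bool → Option (Z × ι)) (rd : Q → ι → Bool) (O : Lang)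
    (w : List Bool) (n0 n1 : DT Bool) (h : pos w = none) (ρ : List (Z × Q)) (r : List Q) :
    (sim pos rd (DT.node w n0 n1) ρ r).eval O =
      (sim pos rd (if O w = true then n1 else n0) ρ r).eval O := by
  rw [sim, h]
  simp only [DT.eval_node]
  split_ifs <;> rfl

omit [Fintype Z] [Fintype Q] [DecidableEq Q] in
theorem hyb_sim_some (pos : List Bool → Option (Z × ι)) (rd : Q → ι → Bool) (O : Lang)
    (w : List Bool) (n0 n1 : DT Bool) {z : Z} {i : ι} (h : pos w = some (z, i))
    (ρ : List (Z × Q)) {q : Q} (hl : ρ.lookup z = some q) (r : List Q) :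
    (sim pos rd (DT.node w n0 n1) ρ r).eval O =
      (sim pos rd (if rd q i = true then n1 else n0) ρ r).eval O := by
  rw [sim, h]
  simp only [hl]
  split_ifs <;> rfl

omit [Fintype Z] [Fintype Q] [DecidableEq Q] in
theorem hyb_sim_new (pos : List Bool → Option (Z × ι)) (rd : Q → ι → Bool) (O : Lang)
    (w : List Bool) (n0 n1 : DT Bool) {z : Z} {i : ι} (h : pos w = some (z, i))
    (ρ : List (Z × Q)) (hl : ρ.lookup z = none) (q : Q) (r : List Q) :
    (sim pos rd (DT.node w n0 n1) ρ (q :: r)).eval O =
      (sim pos rd (if rd q i = true then n1 else n0) ((z, q) :: ρ) r).eval O := by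
  rw [sim, h]
  simp only [hl]
  split_ifs <;> rfl

theorem hyb_gen (ν : Bool → Q → ℝ) (hν : ∀ b, (∀ q, 0 ≤ ν b q) ∧ ∑ q, ν b q = 1) (κ : Z → Bool)
    (pos : List Bool → Option (Z × ι)) (rd : Q → ι → Bool) (O : Lang) (β : Bool) (ε : ℝ)
    (hε : 0 ≤ ε) (A : DT Bool) (ρ : List (Z × Q)) (K : ℕ)
    (hD : ∀ pre post : List Q, pre.length ≤ K → post.length ≤ K →
      ∑ q, ν true q * ind ((sim pos rd A ρ (pre ++ q :: post)).eval O == β) ≤
        ∑ q, ν false q * ind ((sim pos rd A ρ (pre ++ q :: post)).eval O == β) + ε)
    (τ : DT Bool) (ρ' : List (Z × Q)) (pre : List Q) (K' : ℕ) (hτ : τ.depth ≤ K')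
    (hpre : pre.length + K' ≤ K)
    (hsim : ∀ r : List Q, (sim pos rd A ρ (pre ++ r)).eval O = (sim pos rd τ ρ' r).eval O) :
    Pr (fun z => ν (κ z)) ρ' (fun T => ind (τ.eval (patch pos rd O T) == β)) ≤
      exL (ν false) K' (fun r => ind ((sim pos rd τ ρ' r).eval O == β)) + K' * ε := by
  have hμ : IsPD (fun z : Z => ν (κ z)) := fun z => hν (κ z)
  induction τ generalizing ρ' pre K' with
  | leaf b =>
    have h1 : ∀ r : List Q, (sim pos rd (DT.leaf b) ρ' r).eval O = b := fun r => rfl
    simp only [h1, DT.eval_leaf]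
    rw [hyb_exL_const (hν false).2]
    have h2 : Pr (fun z => ν (κ z)) ρ' (fun _ => ind (b == β)) = ind (b == β) := by
      have h3 := Pr_mul (fun z => ν (κ z)) ρ' (ind (b == β)) (fun _ => (1 : ℝ))
      rw [Pr_one hμ ρ'] at h3
      simpa using h3
    rw [h2]
    have : 0 ≤ (K' : ℝ) * ε := by positivity
    linarith
  | node w n0 n1 h0 h1 =>
    -- the induction hypothesis for a child
    have hchild : ∀ (b : Bool) (ρ'' : List (Z × Q)) (pre' : List Q) (K'' : ℕ),
        (DT.node w n0 n1).depth ≤ K'' + 1 → pre'.length + K'' ≤ K →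
        (∀ r : List Q, (sim pos rd A ρ (pre' ++ r)).eval O =
          (sim pos rd (if b = true then n1 else n0) ρ'' r).eval O) →
        Pr (fun z => ν (κ z)) ρ'' (fun T => ind ((if b = true then n1 else n0).eval
          (patch pos rd O T) == β)) ≤
        exL (ν false) K'' (fun r => ind ((sim pos rd (if b = true then n1 else n0) ρ'' r).eval O
          == β)) + K'' * ε := by
      intro b ρ'' pre' K'' hd hp hs
      rw [DT.depth_node] at hd
      cases b with
      | true =>
        simp only [if_true] at hs ⊢
        exact h1 ρ'' pre' K'' (by omega) hp hs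
      | false =>
        simp only [Bool.false_eq_true, if_false] at hs ⊢
        exact h0 ρ'' pre' K'' (by omega) hp hs
    cases hp : pos w with
    | none =>
      have e : ∀ T : Z → Q, (DT.node w n0 n1).eval (patch pos rd O T) =
        (if O w = true then n1 else n0).eval (patch pos rd O T) :=
        fun T => tree_eval_none pos rd O w n0 n1 hp T
      have e' : ∀ r : List Q, (sim pos rd (DT.node w n0 n1) ρ' r).eval O =
        (sim pos rd (if O w = true then n1 else n0) ρ' r).eval O :=
        fun r => hyb_sim_none pos rd O w n0 n1 hp ρ' r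
      simp only [e, e'] at hsim ⊢
      exact hchild (O w) ρ' pre K' (by omega) hpre hsim
    | some p =>
      obtain ⟨z, i⟩ := p
      cases hl : ρ'.lookup z with
      | some q =>
        rw [Pr_congr (fun z => ν (κ z)) ρ' (G := fun T =>
            ind ((if rd q i = true then n1 else n0).eval (patch pos rd O T) == β)) (fun T hT => by
              rw [tree_eval_some pos rd O w n0 n1 hp T (hT z q hl)])]
        have e' : ∀ r : List Q, (sim pos rd (DT.node w n0 n1) ρ' r).eval O =
          (sim pos rd (if rd q i = true then n1 else n0) ρ' r).eval O :=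
          fun r => hyb_sim_some pos rd O w n0 n1 hp ρ' hl r
        simp only [e'] at hsim ⊢
        exact hchild (rd q i) ρ' pre K' (by omega) hpre hsim
      | none =>
        obtain ⟨K'', rfl⟩ : ∃ K'', K' = K'' + 1 := by
          rw [DT.depth_node] at hτ
          exact ⟨K' - 1, by omega⟩
        -- the value after the question, in terms of the original simulation
        set S : Q → ℝ := fun q => exL (ν false) K''
          (fun r => ind ((sim pos rd A ρ (pre ++ q :: r)).eval O == β)) with hS
        have hR : exL (ν false) (K'' + 1)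
            (fun r => ind ((sim pos rd (DT.node w n0 n1) ρ' r).eval O == β)) =
            ∑ q, ν false q * S q := by
          change ∑ q, ν false q * exL (ν false) K''
            (fun r => ind ((sim pos rd (DT.node w n0 n1) ρ' (q :: r)).eval O == β)) = _
          refine Finset.sum_congr rfl fun q _ => ?_
          simp only [hS, hsim]
        have hL : Pr (fun z => ν (κ z)) ρ'
            (fun T => ind ((DT.node w n0 n1).eval (patch pos rd O T) == β)) ≤
            ∑ q, ν (κ z) q * (S q + K'' * ε) := by
          rw [Pr_reveal (fun z => ν (κ z)) ρ' z hl]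
          refine Finset.sum_le_sum fun q _ => mul_le_mul_of_nonneg_left ?_ ((hν (κ z)).1 q)
          have hself : ((z, q) :: ρ').lookup z = some q := by simp
          rw [Pr_congr (fun z => ν (κ z)) ((z, q) :: ρ') (G := fun T =>
            ind ((if rd q i = true then n1 else n0).eval (patch pos rd O T) == β)) (fun T hT => by
              rw [tree_eval_some pos rd O w n0 n1 hp T (hT z q hself)])]
          have e' : ∀ r : List Q, (sim pos rd A ρ ((pre ++ [q]) ++ r)).eval O =
              (sim pos rd (if rd q i = true then n1 else n0) ((z, q) :: ρ') r).eval O := by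
            intro r
            rw [← hyb_sim_new pos rd O w n0 n1 hp ρ' hl q r, ← hsim (q :: r)]
            simp
          have h2 := hchild (rd q i) ((z, q) :: ρ') (pre ++ [q]) K'' hτ
            (by simp only [List.length_append, List.length_singleton]; omega) e'
          refine h2.trans (le_of_eq ?_)
          congr 1
          simp only [hS, ← e']
          simp only [List.append_assoc, List.singleton_append]
        have hL2 : ∑ q, ν (κ z) q * (S q + K'' * ε) = ∑ q, ν (κ z) q * S q + K'' * ε := by
          simp_rw [mul_add]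
          rw [Finset.sum_add_distrib, ← Finset.sum_mul, (hν (κ z)).2, one_mul]
        have hmain : ∑ q, ν (κ z) q * S q ≤ ∑ q, ν false q * S q + ε := by
          cases hκ : κ z with
          | false => linarith
          | true =>
            have e1 : ∀ b : Bool, ∑ q, ν b q * S q = exL (ν false) K'' (fun r =>
                ∑ q, ν b q * ind ((sim pos rd A ρ (pre ++ q :: r)).eval O == β)) := fun b =>
              (hyb_exL_sum (ν false) K'' Finset.univ (ν b)
                (fun q r => ind ((sim pos rd A ρ (pre ++ q :: r)).eval O == β))).symm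
            rw [e1 true, e1 false]
            have e2 := hyb_exL_add (ν false) K'' (fun r =>
                ∑ q, ν false q * ind ((sim pos rd A ρ (pre ++ q :: r)).eval O == β)) (fun _ => ε)
            rw [hyb_exL_const (hν false).2] at e2
            rw [← e2]
            refine hyb_exL_mono (hν false).1 K'' fun r hr => ?_
            exact hD pre r (by omega) (by omega)
        rw [hR]
        rw [hL2] at hL
        push_cast
        linarith

/-- HYB: replace the table by independent samples of `ν false`. -/
theorem hybrid (ν : Bool → Q → ℝ) (hν : ∀ b, (∀ q, 0 ≤ ν b q) ∧ ∑ q, ν b q = 1) (κ : Z → Bool)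
    (pos : List Bool → Option (Z × ι)) (rd : Q → ι → Bool) (O : Lang) (β : Bool) (ε : ℝ)
    (hε : 0 ≤ ε) (A : DT Bool) (ρ : List (Z × Q)) (K : ℕ) (hK : A.depth ≤ K)
    (hD : ∀ pre post : List Q, pre.length ≤ K → post.length ≤ K →
      ∑ q, ν true q * ind ((sim pos rd A ρ (pre ++ q :: post)).eval O == β) ≤
        ∑ q, ν false q * ind ((sim pos rd A ρ (pre ++ q :: post)).eval O == β) + ε) :
    Pr (fun z => ν (κ z)) ρ (fun T => ind (A.eval (patch pos rd O T) == β)) ≤
      exL (ν false) K (fun r => ind ((sim pos rd A ρ r).eval O == β)) + K * ε :=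
  hyb_gen ν hν κ pos rd O β ε hε A ρ K hD A ρ [] K hK (by simp) (fun r => by simp)

end Pool.Agent.CK
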