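import Pool.Agent.Lib_helper74.CKF.PROG1

/-!
# Block PROG2: the machine that reads the table
-/

set_option autoImplicit false

namespace Pool.Agent.CK

theorem prog2_ones (n : ℕ) (d : List Bool) : ones n ++ true :: d = ones (n + 1) ++ d := by
  induction n with
  | zero => rfl
  | succ n ih =>
    change true :: (ones n ++ true :: d) = true :: (ones (n + 1) ++ d)
    rw [ih]

/-- push `n` ones on stack `r` -/
def prog2_pushN (r : ℕ) : ℕ → Cmd
  | 0 => Cmd.skip
  | n + 1 => Cmd.seq (Cmd.push r true) (prog2_pushN r n)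

theorem prog2_pushN_run (O : Lang) (r n : ℕ) : ∀ s : ℕ → List Bool,
    prog1_Run O (prog2_pushN r n) s (Function.update s r (ones n ++ s r)) (2 * n + 1) := by
  induction n with
  | zero =>
    intro s
    have h : Function.update s r (ones 0 ++ s r) = s := by
      simp [ones]
    rw [h]
    exact prog1_skip O s
  | succ n ih =>
    intro s
    have h := ih (Function.update s r (true :: s r))
    rw [Function.update_idem, Function.update_self, prog2_ones] at h
    exact prog1_mono (prog1_seq (prog1_push O s r true) h) (by omega)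

/-! ### A: reverse the input and count -/

def prog2_bodyA : Cmd :=
  Cmd.cond 0 Cmd.skip (Cmd.seq (Cmd.pop 0) (Cmd.seq (Cmd.push 3 false) (Cmd.push 4 true)))
    (Cmd.seq (Cmd.pop 0) (Cmd.seq (Cmd.push 3 true) (Cmd.push 4 true)))

theorem prog2_A (O : Lang) (x : List Bool) : ∀ c d : List Bool,
    prog1_Run O (Cmd.loop 0 prog2_bodyA) (prog1_st x [] [] c d [] [] [] [] [])
      (prog1_st [] [] [] (x.reverse ++ c) (ones x.length ++ d) [] [] [] [] [])
      (7 * x.length + 1) := by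
  induction x with
  | nil => intro c d; exact prog1_loop_nil rfl
  | cons a x ih =>
    intro c d
    have h := ih (a :: c) (true :: d)
    rw [prog2_ones] at h
    have e1 : x.reverse ++ a :: c = (a :: x).reverse ++ c := by simp
    rw [e1] at h
    refine prog1_mono (prog1_loop_cons (T1 := 6) ?_ ?_ h) ?_
    · simp [prog1_st]
    · cases a with
      | false =>
        exact prog1_cond_false (l := x) rfl (prog1_seq (prog1_pop0 _ _ _ _ _ _ _ _ _ _ O)
          (prog1_seq (prog1_push3 _ _ _ _ _ _ _ _ _ _ O false)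
            (prog1_push4 _ _ _ _ _ _ _ _ _ _ O true)))
      | true =>
        exact prog1_cond_true (l := x) rfl (prog1_seq (prog1_pop0 _ _ _ _ _ _ _ _ _ _ O)
          (prog1_seq (prog1_push3 _ _ _ _ _ _ _ _ _ _ O true)
            (prog1_push4 _ _ _ _ _ _ _ _ _ _ O true)))
    · simp only [List.length_cons]; omega

/-! ### C: copy the input to the address -/

def prog2_bodyC : Cmd :=
  Cmd.cond 3 Cmd.skip (Cmd.seq (Cmd.pop 3) (Cmd.push 1 false))
    (Cmd.seq (Cmd.pop 3) (Cmd.push 1 true))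

theorem prog2_C (O : Lang) (d : List Bool) (x : List Bool) : ∀ c : List Bool,
    prog1_Run O (Cmd.loop 3 prog2_bodyC) (prog1_st [] c [] x d [] [] [] [] [])
      (prog1_st [] (x.reverse ++ c) [] [] d [] [] [] [] []) (5 * x.length + 1) := by
  induction x with
  | nil => intro c; exact prog1_loop_nil rfl
  | cons a x ih =>
    intro c
    have h := ih (a :: c)
    have e1 : x.reverse ++ a :: c = (a :: x).reverse ++ c := by simp
    rw [e1] at h
    refine prog1_mono (prog1_loop_cons (T1 := 4) ?_ ?_ h) ?_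
    · simp [prog1_st]
    · cases a with
      | false =>
        exact prog1_cond_false (l := x) rfl (prog1_seq (prog1_pop3 _ _ _ _ _ _ _ _ _ _ O)
          (prog1_push1 _ _ _ _ _ _ _ _ _ _ O false))
      | true =>
        exact prog1_cond_true (l := x) rfl (prog1_seq (prog1_pop3 _ _ _ _ _ _ _ _ _ _ O)
          (prog1_push1 _ _ _ _ _ _ _ _ _ _ O true))
    · simp only [List.length_cons]; omega

/-! ### D: the power `m ^ N` in unary -/

section D

variable (O : Lang) (R : List Bool)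

theorem prog2_succ (a j : ℕ) : ones (a + (j + 1)) = ones (a + 1 + j) := by
  congr 1; omega

theorem prog2_L4 (c5 c6 : List Bool) (j : ℕ) : ∀ a b : ℕ,
    prog1_Run O (Cmd.loop 4 (Cmd.seq (Cmd.pop 4) (Cmd.seq (Cmd.push 7 true) (Cmd.push 8 true))))
      (prog1_st [] R [] [] (ones j) c5 c6 (ones a) (ones b) [])
      (prog1_st [] R [] [] [] c5 c6 (ones (a + j)) (ones (b + j)) []) (6 * j + 1) := by
  induction j with
  | zero => intro a b; exact prog1_loop_nil rfl
  | succ j ih =>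
    intro a b
    have h := ih (a + 1) (b + 1)
    rw [← prog2_succ, ← prog2_succ] at h
    refine prog1_mono (prog1_loop_cons (T1 := 5) ?_ ?_ h) (by omega)
    · simp [prog1_st, ones]
    · exact prog1_seq (prog1_pop4 _ _ _ _ _ _ _ _ _ _ O)
        (prog1_seq (prog1_push7 _ _ _ _ _ _ _ _ _ _ O true)
          (prog1_push8 _ _ _ _ _ _ _ _ _ _ O true))

theorem prog2_L7 (c5 c6 c8 : List Bool) (j : ℕ) : ∀ a : ℕ,
    prog1_Run O (Cmd.loop 7 (Cmd.seq (Cmd.pop 7) (Cmd.push 4 true)))
      (prog1_st [] R [] [] (ones a) c5 c6 (ones j) c8 [])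
      (prog1_st [] R [] [] (ones (a + j)) c5 c6 [] c8 []) (4 * j + 1) := by
  induction j with
  | zero => intro a; exact prog1_loop_nil rfl
  | succ j ih =>
    intro a
    have h := ih (a + 1)
    rw [← prog2_succ] at h
    refine prog1_mono (prog1_loop_cons (T1 := 3) ?_ ?_ h) (by omega)
    · simp [prog1_st, ones]
    · exact prog1_seq (prog1_pop7 _ _ _ _ _ _ _ _ _ _ O)
        (prog1_push4 _ _ _ _ _ _ _ _ _ _ O true)

def prog2_body6 : Cmd :=
  Cmd.seq (Cmd.pop 6) (Cmd.seq
    (Cmd.loop 4 (Cmd.seq (Cmd.pop 4) (Cmd.seq (Cmd.push 7 true) (Cmd.push 8 true))))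
    (Cmd.loop 7 (Cmd.seq (Cmd.pop 7) (Cmd.push 4 true))))

theorem prog2_B6 (m : ℕ) (c5 : List Bool) (j b : ℕ) :
    prog1_Run O prog2_body6 (prog1_st [] R [] [] (ones m) c5 (ones (j + 1)) [] (ones b) [])
      (prog1_st [] R [] [] (ones m) c5 (ones j) [] (ones (b + m)) []) (10 * m + 5) := by
  have h1 := prog2_L4 O R c5 (ones j) m 0 b
  have h2 := prog2_L7 O R c5 (ones j) (ones (b + m)) m 0
  rw [Nat.zero_add] at h1 h2
  exact prog1_mono (prog1_seq (prog1_pop6 _ _ _ _ _ _ _ _ _ _ O) (prog1_seq h1 h2)) (by omega)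

theorem prog2_L6 (m : ℕ) (c5 : List Bool) (j : ℕ) : ∀ b : ℕ,
    prog1_Run O (Cmd.loop 6 prog2_body6)
      (prog1_st [] R [] [] (ones m) c5 (ones j) [] (ones b) [])
      (prog1_st [] R [] [] (ones m) c5 [] [] (ones (b + j * m)) []) (j * (10 * m + 6) + 1) := by
  induction j with
  | zero =>
    intro b
    rw [Nat.zero_mul, Nat.zero_mul, Nat.add_zero]
    exact prog1_loop_nil rfl
  | succ j ih =>
    intro b
    have h := ih (b + m)
    have e1 : b + m + j * m = b + (j + 1) * m := by ring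
    rw [e1] at h
    refine prog1_mono (prog1_loop_cons ?_ (prog2_B6 O R m c5 j b) h) ?_
    · simp [prog1_st, ones]
    · have e2 : (j + 1) * (10 * m + 6) = j * (10 * m + 6) + (10 * m + 6) := by ring
      omega

theorem prog2_L8 (m : ℕ) (c5 : List Bool) (j : ℕ) : ∀ a : ℕ,
    prog1_Run O (Cmd.loop 8 (Cmd.seq (Cmd.pop 8) (Cmd.push 6 true)))
      (prog1_st [] R [] [] (ones m) c5 (ones a) [] (ones j) [])
      (prog1_st [] R [] [] (ones m) c5 (ones (a + j)) [] [] []) (4 * j + 1) := by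
  induction j with
  | zero => intro a; exact prog1_loop_nil rfl
  | succ j ih =>
    intro a
    have h := ih (a + 1)
    rw [← prog2_succ] at h
    refine prog1_mono (prog1_loop_cons (T1 := 3) ?_ ?_ h) (by omega)
    · simp [prog1_st, ones]
    · exact prog1_seq (prog1_pop8 _ _ _ _ _ _ _ _ _ _ O)
        (prog1_push6 _ _ _ _ _ _ _ _ _ _ O true)

def prog2_body5 : Cmd :=
  Cmd.seq (Cmd.pop 5) (Cmd.seq (Cmd.loop 6 prog2_body6)
    (Cmd.loop 8 (Cmd.seq (Cmd.pop 8) (Cmd.push 6 true))))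

theorem prog2_B5 (m i j : ℕ) :
    prog1_Run O prog2_body5 (prog1_st [] R [] [] (ones m) (ones (i + 1)) (ones j) [] [] [])
      (prog1_st [] R [] [] (ones m) (ones i) (ones (j * m)) [] [] [])
      (j * (14 * m + 6) + 5) := by
  have h1 := prog2_L6 O R m (ones i) j 0
  have h2 := prog2_L8 O R m (ones i) (j * m) 0
  rw [Nat.zero_add] at h1 h2
  refine prog1_mono (prog1_seq (prog1_pop5 _ _ _ _ _ _ _ _ _ _ O) (prog1_seq h1 h2)) ?_
  have e1 : j * (14 * m + 6) = j * (10 * m + 6) + 4 * (j * m) := by ring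
  omega

theorem prog2_D (m : ℕ) (hm : 1 ≤ m) (i : ℕ) : ∀ j : ℕ,
    prog1_Run O (Cmd.loop 5 prog2_body5)
      (prog1_st [] R [] [] (ones m) (ones i) (ones j) [] [] [])
      (prog1_st [] R [] [] (ones m) [] (ones (j * m ^ i)) [] [] [])
      (i * (j * m ^ i * (14 * m + 6) + 6) + 1) := by
  induction i with
  | zero =>
    intro j
    rw [pow_zero, Nat.mul_one, Nat.zero_mul]
    exact prog1_loop_nil rfl
  | succ i ih =>
    intro j
    have h := ih (j * m)
    have e1 : j * m * m ^ i = j * m ^ (i + 1) := by ring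
    rw [e1] at h
    refine prog1_mono (prog1_loop_cons ?_ (prog2_B5 O R m i j) h) ?_
    · simp [prog1_st, ones]
    · have h1 : 1 ≤ m ^ (i + 1) := Nat.one_le_pow _ _ hm
      have h2 : j * (14 * m + 6) ≤ j * m ^ (i + 1) * (14 * m + 6) :=
        Nat.mul_le_mul_right _ (Nat.le_mul_of_pos_right _ h1)
      have e2 : (i + 1) * (j * m ^ (i + 1) * (14 * m + 6) + 6) =
          i * (j * m ^ (i + 1) * (14 * m + 6) + 6) + (j * m ^ (i + 1) * (14 * m + 6) + 6) := by ring
      omega

theorem prog2_E (m : ℕ) (j : ℕ) : ∀ a : List Bool,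
    prog1_Run O (Cmd.loop 6 (Cmd.seq (Cmd.pop 6) (Cmd.push 1 true)))
      (prog1_st [] a [] [] (ones m) [] (ones j) [] [] [])
      (prog1_st [] (ones j ++ a) [] [] (ones m) [] [] [] [] []) (4 * j + 1) := by
  induction j with
  | zero => intro a; exact prog1_loop_nil rfl
  | succ j ih =>
    intro a
    have h := ih (true :: a)
    rw [prog2_ones] at h
    refine prog1_mono (prog1_loop_cons (T1 := 3) ?_ ?_ h) (by omega)
    · simp [prog1_st, ones]
    · exact prog1_seq (prog1_pop6 _ _ _ _ _ _ _ _ _ _ O)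
        (prog1_push1 _ _ _ _ _ _ _ _ _ _ O true)

end D

/-! ### F: read the entry -/

def prog2_Y (β : Bool) : Cmd :=
  Cmd.seq (Cmd.pop 1) (Cmd.seq (Cmd.pop 1) (Cmd.seq (Cmd.push 0 β) (Cmd.push 1 true)))

def prog2_bodyF : Cmd :=
  Cmd.seq (Cmd.push 1 false) (Cmd.seq (Cmd.push 1 true) (Cmd.ask 1 (Cmd.pop 9)
    (Cmd.seq (Cmd.pop 1) (Cmd.seq (Cmd.pop 1) (Cmd.seq (Cmd.push 1 true) (Cmd.seq (Cmd.push 1 true)
      (Cmd.ask 1 (prog2_Y false) (prog2_Y true))))))))

theorem prog2_Y_run (O : Lang) (β : Bool) (w A d : List Bool) :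
    prog1_Run O (prog2_Y β) (prog1_st w (true :: true :: A) [] [] d [] [] [] [] [true])
      (prog1_st (β :: w) (true :: A) [] [] d [] [] [] [] [true]) 7 :=
  prog1_seq (prog1_pop1 _ _ _ _ _ _ _ _ _ _ O) (prog1_seq (prog1_pop1 _ _ _ _ _ _ _ _ _ _ O)
    (prog1_seq (prog1_push0 _ _ _ _ _ _ _ _ _ _ O β) (prog1_push1 _ _ _ _ _ _ _ _ _ _ O true)))

/-- one round of reading when there is a further bit -/
theorem prog2_F_more (O : Lang) (w A d : List Bool) (β : Bool) (h0 : O (true :: false :: A) = true)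
    (h1 : O (true :: true :: A) = β) :
    prog1_Run O prog2_bodyF (prog1_st w A [] [] d [] [] [] [] [true])
      (prog1_st (β :: w) (true :: A) [] [] d [] [] [] [] [true]) 21 := by
  refine prog1_seq (T1 := 1) (T2 := 19) (prog1_push1 _ _ _ _ _ _ _ _ _ _ O false)
    (prog1_seq (T1 := 1) (T2 := 17) (prog1_push1 _ _ _ _ _ _ _ _ _ _ O true)
      (prog1_ask_true (T := 16) h0 ?_))
  refine prog1_seq (T1 := 1) (T2 := 14) (prog1_pop1 _ _ _ _ _ _ _ _ _ _ O)
    (prog1_seq (T1 := 1) (T2 := 12) (prog1_pop1 _ _ _ _ _ _ _ _ _ _ O)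
      (prog1_seq (T1 := 1) (T2 := 10) (prog1_push1 _ _ _ _ _ _ _ _ _ _ O true)
        (prog1_seq (T1 := 1) (T2 := 8) (prog1_push1 _ _ _ _ _ _ _ _ _ _ O true) ?_)))
  cases β with
  | false => exact prog1_ask_false (T := 7) h1 (prog2_Y_run O false w A d)
  | true => exact prog1_ask_true (T := 7) h1 (prog2_Y_run O true w A d)

/-- the last round -/
theorem prog2_F_end (O : Lang) (w A d : List Bool) (h0 : O (true :: false :: A) = false) :
    prog1_Run O prog2_bodyF (prog1_st w A [] [] d [] [] [] [] [true])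
      (prog1_st w (true :: false :: A) [] [] d [] [] [] [] []) 6 :=
  prog1_seq (T1 := 1) (T2 := 4) (prog1_push1 _ _ _ _ _ _ _ _ _ _ O false)
    (prog1_seq (T1 := 1) (T2 := 2) (prog1_push1 _ _ _ _ _ _ _ _ _ _ O true)
      (prog1_ask_false (T := 1) h0 (prog1_pop9 _ _ _ _ _ _ _ _ _ _ O)))

theorem prog2_F (O : Lang) (q R d : List Bool)
    (h : ∀ b c, O (true :: c :: (ones b ++ R)) = bit q (b, c)) (k : ℕ) : ∀ b, b + k = q.length →
    ∃ s', prog1_Run O (Cmd.loop 9 prog2_bodyF)
      (prog1_st ((q.reverse.take b).reverse) (ones b ++ R) [] [] d [] [] [] [] [true]) s'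
      (22 * k + 8) ∧ s' 0 = q := by
  induction k with
  | zero =>
    intro b hb
    have hq : (q.reverse.take b).reverse = q := by
      rw [List.take_of_length_le (by simp; omega), List.reverse_reverse]
    rw [hq]
    have h0 : O (true :: false :: (ones b ++ R)) = false := by
      rw [h]; simp [bit]; omega
    refine ⟨_, prog1_mono (prog1_loop_cons ?_ (prog2_F_end O q (ones b ++ R) d h0)
      (prog1_loop_nil rfl)) (by omega), rfl⟩
    simp [prog1_st]
  | succ k ih =>
    intro b hb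
    obtain ⟨s', h1, h2⟩ := ih (b + 1) (by omega)
    refine ⟨s', ?_, h2⟩
    have h0 : O (true :: false :: (ones b ++ R)) = true := by
      rw [h]; simp [bit]; omega
    have h3 : O (true :: true :: (ones b ++ R)) = q.reverse.getD b false := by
      rw [h]; simp [bit]
    have hw : (q.reverse.take (b + 1)).reverse =
        q.reverse.getD b false :: (q.reverse.take b).reverse := by
      have hlt : b < q.reverse.length := by simp; omega
      rw [List.take_succ_eq_append_getElem hlt, List.reverse_append, List.getD_eq_getElem _ _ hlt]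
      rfl
    rw [hw] at h1
    refine prog1_mono (prog1_loop_cons ?_
      (prog2_F_more O _ (ones b ++ R) d _ h0 h3) h1) (by omega)
    simp [prog1_st]

/-! ### The whole program -/

def prog2_P (e : ℕ) : Cmd :=
  Cmd.seq (Cmd.loop 0 prog2_bodyA) (Cmd.seq (Cmd.push 4 true) (Cmd.seq (Cmd.push 4 true)
  (Cmd.seq (Cmd.loop 3 prog2_bodyC) (Cmd.seq (Cmd.push 1 false)
  (Cmd.seq (prog2_pushN 5 (e ^ 2)) (Cmd.seq (Cmd.push 6 true) (Cmd.seq (Cmd.loop 5 prog2_body5)
  (Cmd.seq (Cmd.loop 6 (Cmd.seq (Cmd.pop 6) (Cmd.push 1 true))) (Cmd.seq (Cmd.push 1 false)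
  (Cmd.seq (prog2_pushN 1 e) (Cmd.seq (Cmd.push 1 false) (Cmd.seq (Cmd.push 9 true)
    (Cmd.loop 9 prog2_bodyF)))))))))))))

/-- the time bound -/
def prog2_T (e n : ℕ) : ℕ :=
  12 * n + (e ^ 2 * ((n + 2) ^ e ^ 2 * (14 * (n + 2) + 6) + 6)) + 26 * (n + 2) ^ e ^ 2 +
    2 * e ^ 2 + 2 * e + 60

theorem prog2_run (O : Lang) (e : ℕ) (q z : List Bool) (hq : q.length ≤ alen e z)
    (h : ∀ b c, O (taddr e z b c) = bit q (b, c)) :
    ∃ s', prog1_Run O (prog2_P e) (init z []) s' (prog2_T e z.length) ∧ s' 0 = q := by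
  rw [prog1_init]
  set m := z.length + 2 with hm
  have hal : alen e z = m ^ e ^ 2 := rfl
  set R : List Bool := false :: (ones e ++ false :: (ones (m ^ e ^ 2) ++ false :: z)) with hR
  obtain ⟨s', hF, hs'⟩ := prog2_F O q R (ones m) (fun b c => h b c) q.length 0 (by omega)
  refine ⟨s', ?_, hs'⟩
  have hA := prog2_A O z [] []
  rw [List.append_nil, List.append_nil] at hA
  have hC := prog2_C O (ones m) z.reverse []
  rw [List.reverse_reverse, List.append_nil, List.length_reverse] at hC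
  have h5 := prog2_pushN_run O 5 (e ^ 2) (prog1_st [] (false :: z) [] [] (ones m) [] [] [] [] [])
  rw [prog1_up5] at h5
  have h5' : ones (e ^ 2) ++ (prog1_st [] (false :: z) [] [] (ones m) [] [] [] [] []) 5 =
      ones (e ^ 2) := List.append_nil _
  rw [h5'] at h5
  have hD := prog2_D O (false :: z) m (by omega) (e ^ 2) 1
  rw [Nat.one_mul] at hD
  have hE := prog2_E O m (m ^ e ^ 2) (false :: z)
  have h1 := prog2_pushN_run O 1 e
    (prog1_st [] (false :: (ones (m ^ e ^ 2) ++ false :: z)) [] [] (ones m) [] [] [] [] [])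
  rw [prog1_up1] at h1
  refine prog1_mono (prog1_seq hA (prog1_seq (prog1_push4 _ _ _ _ _ _ _ _ _ _ O true)
    (prog1_seq (prog1_push4 _ _ _ _ _ _ _ _ _ _ O true)
    (prog1_seq hC (prog1_seq (prog1_push1 _ _ _ _ _ _ _ _ _ _ O false)
    (prog1_seq h5 (prog1_seq (prog1_push6 _ _ _ _ _ _ _ _ _ _ O true)
    (prog1_seq hD (prog1_seq hE (prog1_seq (prog1_push1 _ _ _ _ _ _ _ _ _ _ O false)
    (prog1_seq h1 (prog1_seq (prog1_push1 _ _ _ _ _ _ _ _ _ _ O false)
    (prog1_seq (prog1_push9 _ _ _ _ _ _ _ _ _ _ O true) hF))))))))))))) ?_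
  rw [prog2_T, ← hm]
  rw [hal] at hq
  omega

theorem prog2_time (e n : ℕ) : prog2_T e n ≤
    (n + 2) ^ (100 + 28 * e ^ 2 + 2 * e + (e ^ 2 + 1)) := by
  set m := n + 2 with hm
  set N := e ^ 2 with hN
  have hm2 : 2 ≤ m := by omega
  have hQ1 : m ^ N ≤ m ^ (N + 1) := Nat.pow_le_pow_right (by omega) (by omega)
  have hQ2 : m ≤ m ^ (N + 1) := Nat.le_self_pow (by omega) m
  have hQ3 : 1 ≤ m ^ (N + 1) := Nat.one_le_pow _ _ (by omega)
  have hQ4 : m ^ (N + 1) = m ^ N * m := pow_succ _ _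
  have h1 : prog2_T e n ≤ (100 + 28 * N + 2 * e) * m ^ (N + 1) := by
    rw [prog2_T, ← hm, ← hN]
    have e1 : N * (m ^ N * (14 * m + 6) + 6) = 14 * (N * (m ^ N * m)) + 6 * (N * m ^ N) + 6 * N := by
      ring
    rw [e1, ← hQ4]
    have a1 : N * m ^ N ≤ N * m ^ (N + 1) := Nat.mul_le_mul_left _ hQ1
    have a2 : N ≤ N * m ^ (N + 1) := Nat.le_mul_of_pos_right _ hQ3
    have a3 : e ≤ e * m ^ (N + 1) := Nat.le_mul_of_pos_right _ hQ3
    have e2 : (100 + 28 * N + 2 * e) * m ^ (N + 1) =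
        100 * m ^ (N + 1) + 28 * (N * m ^ (N + 1)) + 2 * (e * m ^ (N + 1)) := by ring
    rw [e2]
    omega
  refine h1.trans ?_
  rw [pow_add m (100 + 28 * N + 2 * e) (N + 1)]
  refine Nat.mul_le_mul_right _ ?_
  exact (Nat.lt_two_pow_self.le).trans (Nat.pow_le_pow_left hm2 _)

/-- PROG2: the machine that reads the table -/
theorem inFP_read (O : Lang) (e : ℕ) (f : List Bool → List Bool)
    (hf : ∀ z, (f z).length ≤ alen e z)
    (h : ∀ z b c, O (taddr e z b c) = bit (f z) (b, c)) : InFP O f := by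
  refine ⟨prog2_P e, 100 + 28 * e ^ 2 + 2 * e + (e ^ 2 + 1), fun z => ?_⟩
  obtain ⟨s', h1, h2⟩ := prog2_run O e (f z) z (hf z) (fun b c => h z b c)
  have h3 := prog1_final h1 (prog2_time e z.length)
  constructor
  · simp only [Halts, run, h3]
  · simp only [run, h3]
    exact h2

end Pool.Agent.CK
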