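import Pool.Agent.Lib_helper74.CKF.Basic

/-!
# Block PROG1: the secret language is in `UP` and in `coUP`
-/

set_option autoImplicit false

namespace Pool.Agent.CK

/-- `c` takes the stacks `s` to `s'` in at most `T` steps. -/
def prog1_Run (O : Lang) (c : Cmd) (s s' : ℕ → List Bool) (T : ℕ) : Prop :=
  ∃ t ≤ T, ∀ k, (step O)^[t] (c :: k, s) = (k, s')

theorem prog1_mono {O : Lang} {c : Cmd} {s s' : ℕ → List Bool} {T T' : ℕ}
    (h : prog1_Run O c s s' T) (hT : T ≤ T') : prog1_Run O c s s' T' := by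
  obtain ⟨t, ht, h⟩ := h
  exact ⟨t, ht.trans hT, h⟩

theorem prog1_skip (O : Lang) (s : ℕ → List Bool) : prog1_Run O Cmd.skip s s 1 :=
  ⟨1, le_rfl, fun _ => rfl⟩

theorem prog1_push (O : Lang) (s : ℕ → List Bool) (r : ℕ) (b : Bool) :
    prog1_Run O (Cmd.push r b) s (Function.update s r (b :: s r)) 1 :=
  ⟨1, le_rfl, fun _ => rfl⟩

theorem prog1_pop (O : Lang) (s : ℕ → List Bool) (r : ℕ) :
    prog1_Run O (Cmd.pop r) s (Function.update s r (s r).tail) 1 :=
  ⟨1, le_rfl, fun _ => rfl⟩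

theorem prog1_seq {O : Lang} {c d : Cmd} {s s1 s2 : ℕ → List Bool} {T1 T2 : ℕ}
    (h1 : prog1_Run O c s s1 T1) (h2 : prog1_Run O d s1 s2 T2) :
    prog1_Run O (Cmd.seq c d) s s2 (T1 + T2 + 1) := by
  obtain ⟨t1, ht1, h1⟩ := h1
  obtain ⟨t2, ht2, h2⟩ := h2
  refine ⟨t2 + t1 + 1, by omega, fun k => ?_⟩
  rw [Function.iterate_add_apply, Function.iterate_add_apply]
  have : (step O)^[1] (Cmd.seq c d :: k, s) = (c :: d :: k, s) := rfl
  rw [this, h1, h2]

theorem prog1_cond_nil {O : Lang} {r : ℕ} {b c d : Cmd} {s s' : ℕ → List Bool} {T : ℕ}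
    (hr : s r = []) (h : prog1_Run O b s s' T) : prog1_Run O (Cmd.cond r b c d) s s' (T + 1) := by
  obtain ⟨t, ht, h⟩ := h
  refine ⟨t + 1, by omega, fun k => ?_⟩
  rw [Function.iterate_add_apply]
  have : (step O)^[1] (Cmd.cond r b c d :: k, s) = (b :: k, s) := by
    simp only [Function.iterate_one, step, hr]
  rw [this, h]

theorem prog1_cond_false {O : Lang} {r : ℕ} {b c d : Cmd} {s s' : ℕ → List Bool} {T : ℕ}
    {l : List Bool} (hr : s r = false :: l) (h : prog1_Run O c s s' T) :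
    prog1_Run O (Cmd.cond r b c d) s s' (T + 1) := by
  obtain ⟨t, ht, h⟩ := h
  refine ⟨t + 1, by omega, fun k => ?_⟩
  rw [Function.iterate_add_apply]
  have : (step O)^[1] (Cmd.cond r b c d :: k, s) = (c :: k, s) := by
    simp only [Function.iterate_one, step, hr]
  rw [this, h]

theorem prog1_cond_true {O : Lang} {r : ℕ} {b c d : Cmd} {s s' : ℕ → List Bool} {T : ℕ}
    {l : List Bool} (hr : s r = true :: l) (h : prog1_Run O d s s' T) :
    prog1_Run O (Cmd.cond r b c d) s s' (T + 1) := by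
  obtain ⟨t, ht, h⟩ := h
  refine ⟨t + 1, by omega, fun k => ?_⟩
  rw [Function.iterate_add_apply]
  have : (step O)^[1] (Cmd.cond r b c d :: k, s) = (d :: k, s) := by
    simp only [Function.iterate_one, step, hr]
  rw [this, h]

theorem prog1_ask_true {O : Lang} {r : ℕ} {c d : Cmd} {s s' : ℕ → List Bool} {T : ℕ}
    (hr : O (s r) = true) (h : prog1_Run O d s s' T) :
    prog1_Run O (Cmd.ask r c d) s s' (T + 1) := by
  obtain ⟨t, ht, h⟩ := h
  refine ⟨t + 1, by omega, fun k => ?_⟩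
  rw [Function.iterate_add_apply]
  have : (step O)^[1] (Cmd.ask r c d :: k, s) = (d :: k, s) := by
    simp only [Function.iterate_one, step, hr, if_true]
  rw [this, h]

theorem prog1_ask_false {O : Lang} {r : ℕ} {c d : Cmd} {s s' : ℕ → List Bool} {T : ℕ}
    (hr : O (s r) = false) (h : prog1_Run O c s s' T) :
    prog1_Run O (Cmd.ask r c d) s s' (T + 1) := by
  obtain ⟨t, ht, h⟩ := h
  refine ⟨t + 1, by omega, fun k => ?_⟩
  rw [Function.iterate_add_apply]
  have : (step O)^[1] (Cmd.ask r c d :: k, s) = (c :: k, s) := by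
    simp [step, hr]
  rw [this, h]

theorem prog1_loop_nil {O : Lang} {r : ℕ} {c : Cmd} {s : ℕ → List Bool} (hr : s r = []) :
    prog1_Run O (Cmd.loop r c) s s 1 := by
  refine ⟨1, le_rfl, fun k => ?_⟩
  simp only [Function.iterate_one, step, hr, if_true]

theorem prog1_loop_cons {O : Lang} {r : ℕ} {c : Cmd} {s s1 s2 : ℕ → List Bool} {T1 T2 : ℕ}
    (hr : s r ≠ []) (h1 : prog1_Run O c s s1 T1) (h2 : prog1_Run O (Cmd.loop r c) s1 s2 T2) :
    prog1_Run O (Cmd.loop r c) s s2 (T1 + T2 + 1) := by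
  obtain ⟨t1, ht1, h1⟩ := h1
  obtain ⟨t2, ht2, h2⟩ := h2
  refine ⟨t2 + t1 + 1, by omega, fun k => ?_⟩
  rw [Function.iterate_add_apply, Function.iterate_add_apply]
  have : (step O)^[1] (Cmd.loop r c :: k, s) = (c :: Cmd.loop r c :: k, s) := by
    simp only [Function.iterate_one, step, hr, if_false]
  rw [this, h1, h2]

/-- a loop along a family of states -/
theorem prog1_loop {O : Lang} {r : ℕ} {c : Cmd} {S : ℕ → ℕ → List Bool} {T : ℕ} (n : ℕ)
    (h0 : S 0 r = []) (h1 : ∀ j < n, S (j + 1) r ≠ [])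
    (hc : ∀ j < n, prog1_Run O c (S (j + 1)) (S j) T) :
    prog1_Run O (Cmd.loop r c) (S n) (S 0) (n * (T + 1) + 1) := by
  induction n with
  | zero => simpa using prog1_loop_nil h0
  | succ n ih =>
    have h2 := ih (fun j hj => h1 j (by omega)) (fun j hj => hc j (by omega))
    refine prog1_mono (prog1_loop_cons (h1 n (by omega)) (hc n (by omega)) h2) ?_
    rw [Nat.succ_mul]
    omega

theorem prog1_iter_nil (O : Lang) (s : ℕ → List Bool) (t : ℕ) :
    (step O)^[t] ([], s) = ([], s) := by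
  induction t with
  | zero => rfl
  | succ t ih => rw [Function.iterate_succ_apply]; exact ih

theorem prog1_final {O : Lang} {c : Cmd} {s s' : ℕ → List Bool} {T T' : ℕ}
    (h : prog1_Run O c s s' T) (hT : T ≤ T') : (step O)^[T'] ([c], s) = ([], s') := by
  obtain ⟨t, ht, h⟩ := h
  obtain ⟨u, rfl⟩ := Nat.exists_eq_add_of_le (ht.trans hT)
  rw [Nat.add_comm, Function.iterate_add_apply, h, prog1_iter_nil]

/-- explicit stacks -/
def prog1_st (a0 a1 a2 a3 a4 a5 a6 a7 a8 a9 : List Bool) : ℕ → List Bool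
  | 0 => a0
  | 1 => a1
  | 2 => a2
  | 3 => a3
  | 4 => a4
  | 5 => a5
  | 6 => a6
  | 7 => a7
  | 8 => a8
  | 9 => a9
  | _ + 10 => []

section st

variable (a0 a1 a2 a3 a4 a5 a6 a7 a8 a9 x : List Bool)

theorem prog1_init (x y : List Bool) : init x y = prog1_st x y [] [] [] [] [] [] [] [] := by
  funext r
  match r with
  | 0 | 1 | 2 | 3 | 4 | 5 | 6 | 7 | 8 | 9 => rfl
  | _ + 10 => rfl

theorem prog1_up0 : Function.update (prog1_st a0 a1 a2 a3 a4 a5 a6 a7 a8 a9) 0 x =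
    prog1_st x a1 a2 a3 a4 a5 a6 a7 a8 a9 := by
  funext r
  match r with
  | 0 | 1 | 2 | 3 | 4 | 5 | 6 | 7 | 8 | 9 => simp [Function.update, prog1_st]
  | _ + 10 => simp [Function.update, prog1_st]

theorem prog1_up1 : Function.update (prog1_st a0 a1 a2 a3 a4 a5 a6 a7 a8 a9) 1 x =
    prog1_st a0 x a2 a3 a4 a5 a6 a7 a8 a9 := by
  funext r
  match r with
  | 0 | 1 | 2 | 3 | 4 | 5 | 6 | 7 | 8 | 9 => simp [Function.update, prog1_st]
  | _ + 10 => simp [Function.update, prog1_st]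

theorem prog1_up2 : Function.update (prog1_st a0 a1 a2 a3 a4 a5 a6 a7 a8 a9) 2 x =
    prog1_st a0 a1 x a3 a4 a5 a6 a7 a8 a9 := by
  funext r
  match r with
  | 0 | 1 | 2 | 3 | 4 | 5 | 6 | 7 | 8 | 9 => simp [Function.update, prog1_st]
  | _ + 10 => simp [Function.update, prog1_st]

theorem prog1_up3 : Function.update (prog1_st a0 a1 a2 a3 a4 a5 a6 a7 a8 a9) 3 x =
    prog1_st a0 a1 a2 x a4 a5 a6 a7 a8 a9 := by
  funext r
  match r with
  | 0 | 1 | 2 | 3 | 4 | 5 | 6 | 7 | 8 | 9 => simp [Function.update, prog1_st]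
  | _ + 10 => simp [Function.update, prog1_st]

theorem prog1_up4 : Function.update (prog1_st a0 a1 a2 a3 a4 a5 a6 a7 a8 a9) 4 x =
    prog1_st a0 a1 a2 a3 x a5 a6 a7 a8 a9 := by
  funext r
  match r with
  | 0 | 1 | 2 | 3 | 4 | 5 | 6 | 7 | 8 | 9 => simp [Function.update, prog1_st]
  | _ + 10 => simp [Function.update, prog1_st]

theorem prog1_up5 : Function.update (prog1_st a0 a1 a2 a3 a4 a5 a6 a7 a8 a9) 5 x =
    prog1_st a0 a1 a2 a3 a4 x a6 a7 a8 a9 := by
  funext r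
  match r with
  | 0 | 1 | 2 | 3 | 4 | 5 | 6 | 7 | 8 | 9 => simp [Function.update, prog1_st]
  | _ + 10 => simp [Function.update, prog1_st]

theorem prog1_up6 : Function.update (prog1_st a0 a1 a2 a3 a4 a5 a6 a7 a8 a9) 6 x =
    prog1_st a0 a1 a2 a3 a4 a5 x a7 a8 a9 := by
  funext r
  match r with
  | 0 | 1 | 2 | 3 | 4 | 5 | 6 | 7 | 8 | 9 => simp [Function.update, prog1_st]
  | _ + 10 => simp [Function.update, prog1_st]

theorem prog1_up7 : Function.update (prog1_st a0 a1 a2 a3 a4 a5 a6 a7 a8 a9) 7 x =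
    prog1_st a0 a1 a2 a3 a4 a5 a6 x a8 a9 := by
  funext r
  match r with
  | 0 | 1 | 2 | 3 | 4 | 5 | 6 | 7 | 8 | 9 => simp [Function.update, prog1_st]
  | _ + 10 => simp [Function.update, prog1_st]

theorem prog1_up8 : Function.update (prog1_st a0 a1 a2 a3 a4 a5 a6 a7 a8 a9) 8 x =
    prog1_st a0 a1 a2 a3 a4 a5 a6 a7 x a9 := by
  funext r
  match r with
  | 0 | 1 | 2 | 3 | 4 | 5 | 6 | 7 | 8 | 9 => simp [Function.update, prog1_st]
  | _ + 10 => simp [Function.update, prog1_st]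

theorem prog1_up9 : Function.update (prog1_st a0 a1 a2 a3 a4 a5 a6 a7 a8 a9) 9 x =
    prog1_st a0 a1 a2 a3 a4 a5 a6 a7 a8 x := by
  funext r
  match r with
  | 0 | 1 | 2 | 3 | 4 | 5 | 6 | 7 | 8 | 9 => simp [Function.update, prog1_st]
  | _ + 10 => simp [Function.update, prog1_st]

theorem prog1_push0 (O : Lang) (b : Bool) : prog1_Run O (Cmd.push 0 b)
    (prog1_st a0 a1 a2 a3 a4 a5 a6 a7 a8 a9) (prog1_st (b :: a0) a1 a2 a3 a4 a5 a6 a7 a8 a9) 1 := by
  have h := prog1_push O (prog1_st a0 a1 a2 a3 a4 a5 a6 a7 a8 a9) 0 b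
  rwa [prog1_up0] at h
theorem prog1_push1 (O : Lang) (b : Bool) : prog1_Run O (Cmd.push 1 b)
    (prog1_st a0 a1 a2 a3 a4 a5 a6 a7 a8 a9) (prog1_st a0 (b :: a1) a2 a3 a4 a5 a6 a7 a8 a9) 1 := by
  have h := prog1_push O (prog1_st a0 a1 a2 a3 a4 a5 a6 a7 a8 a9) 1 b
  rwa [prog1_up1] at h
theorem prog1_push2 (O : Lang) (b : Bool) : prog1_Run O (Cmd.push 2 b)
    (prog1_st a0 a1 a2 a3 a4 a5 a6 a7 a8 a9) (prog1_st a0 a1 (b :: a2) a3 a4 a5 a6 a7 a8 a9) 1 := by
  have h := prog1_push O (prog1_st a0 a1 a2 a3 a4 a5 a6 a7 a8 a9) 2 b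
  rwa [prog1_up2] at h
theorem prog1_push3 (O : Lang) (b : Bool) : prog1_Run O (Cmd.push 3 b)
    (prog1_st a0 a1 a2 a3 a4 a5 a6 a7 a8 a9) (prog1_st a0 a1 a2 (b :: a3) a4 a5 a6 a7 a8 a9) 1 := by
  have h := prog1_push O (prog1_st a0 a1 a2 a3 a4 a5 a6 a7 a8 a9) 3 b
  rwa [prog1_up3] at h
theorem prog1_push4 (O : Lang) (b : Bool) : prog1_Run O (Cmd.push 4 b)
    (prog1_st a0 a1 a2 a3 a4 a5 a6 a7 a8 a9) (prog1_st a0 a1 a2 a3 (b :: a4) a5 a6 a7 a8 a9) 1 := by
  have h := prog1_push O (prog1_st a0 a1 a2 a3 a4 a5 a6 a7 a8 a9) 4 b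
  rwa [prog1_up4] at h
theorem prog1_push5 (O : Lang) (b : Bool) : prog1_Run O (Cmd.push 5 b)
    (prog1_st a0 a1 a2 a3 a4 a5 a6 a7 a8 a9) (prog1_st a0 a1 a2 a3 a4 (b :: a5) a6 a7 a8 a9) 1 := by
  have h := prog1_push O (prog1_st a0 a1 a2 a3 a4 a5 a6 a7 a8 a9) 5 b
  rwa [prog1_up5] at h
theorem prog1_push6 (O : Lang) (b : Bool) : prog1_Run O (Cmd.push 6 b)
    (prog1_st a0 a1 a2 a3 a4 a5 a6 a7 a8 a9) (prog1_st a0 a1 a2 a3 a4 a5 (b :: a6) a7 a8 a9) 1 := by
  have h := prog1_push O (prog1_st a0 a1 a2 a3 a4 a5 a6 a7 a8 a9) 6 b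
  rwa [prog1_up6] at h
theorem prog1_push7 (O : Lang) (b : Bool) : prog1_Run O (Cmd.push 7 b)
    (prog1_st a0 a1 a2 a3 a4 a5 a6 a7 a8 a9) (prog1_st a0 a1 a2 a3 a4 a5 a6 (b :: a7) a8 a9) 1 := by
  have h := prog1_push O (prog1_st a0 a1 a2 a3 a4 a5 a6 a7 a8 a9) 7 b
  rwa [prog1_up7] at h
theorem prog1_push8 (O : Lang) (b : Bool) : prog1_Run O (Cmd.push 8 b)
    (prog1_st a0 a1 a2 a3 a4 a5 a6 a7 a8 a9) (prog1_st a0 a1 a2 a3 a4 a5 a6 a7 (b :: a8) a9) 1 := by
  have h := prog1_push O (prog1_st a0 a1 a2 a3 a4 a5 a6 a7 a8 a9) 8 b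
  rwa [prog1_up8] at h
theorem prog1_push9 (O : Lang) (b : Bool) : prog1_Run O (Cmd.push 9 b)
    (prog1_st a0 a1 a2 a3 a4 a5 a6 a7 a8 a9) (prog1_st a0 a1 a2 a3 a4 a5 a6 a7 a8 (b :: a9)) 1 := by
  have h := prog1_push O (prog1_st a0 a1 a2 a3 a4 a5 a6 a7 a8 a9) 9 b
  rwa [prog1_up9] at h

theorem prog1_pop0 (O : Lang) : prog1_Run O (Cmd.pop 0)
    (prog1_st a0 a1 a2 a3 a4 a5 a6 a7 a8 a9) (prog1_st a0.tail a1 a2 a3 a4 a5 a6 a7 a8 a9) 1 := by
  have h := prog1_pop O (prog1_st a0 a1 a2 a3 a4 a5 a6 a7 a8 a9) 0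
  rwa [prog1_up0] at h
theorem prog1_pop1 (O : Lang) : prog1_Run O (Cmd.pop 1)
    (prog1_st a0 a1 a2 a3 a4 a5 a6 a7 a8 a9) (prog1_st a0 a1.tail a2 a3 a4 a5 a6 a7 a8 a9) 1 := by
  have h := prog1_pop O (prog1_st a0 a1 a2 a3 a4 a5 a6 a7 a8 a9) 1
  rwa [prog1_up1] at h
theorem prog1_pop3 (O : Lang) : prog1_Run O (Cmd.pop 3)
    (prog1_st a0 a1 a2 a3 a4 a5 a6 a7 a8 a9) (prog1_st a0 a1 a2 a3.tail a4 a5 a6 a7 a8 a9) 1 := by
  have h := prog1_pop O (prog1_st a0 a1 a2 a3 a4 a5 a6 a7 a8 a9) 3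
  rwa [prog1_up3] at h
theorem prog1_pop4 (O : Lang) : prog1_Run O (Cmd.pop 4)
    (prog1_st a0 a1 a2 a3 a4 a5 a6 a7 a8 a9) (prog1_st a0 a1 a2 a3 a4.tail a5 a6 a7 a8 a9) 1 := by
  have h := prog1_pop O (prog1_st a0 a1 a2 a3 a4 a5 a6 a7 a8 a9) 4
  rwa [prog1_up4] at h
theorem prog1_pop5 (O : Lang) : prog1_Run O (Cmd.pop 5)
    (prog1_st a0 a1 a2 a3 a4 a5 a6 a7 a8 a9) (prog1_st a0 a1 a2 a3 a4 a5.tail a6 a7 a8 a9) 1 := by
  have h := prog1_pop O (prog1_st a0 a1 a2 a3 a4 a5 a6 a7 a8 a9) 5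
  rwa [prog1_up5] at h
theorem prog1_pop6 (O : Lang) : prog1_Run O (Cmd.pop 6)
    (prog1_st a0 a1 a2 a3 a4 a5 a6 a7 a8 a9) (prog1_st a0 a1 a2 a3 a4 a5 a6.tail a7 a8 a9) 1 := by
  have h := prog1_pop O (prog1_st a0 a1 a2 a3 a4 a5 a6 a7 a8 a9) 6
  rwa [prog1_up6] at h
theorem prog1_pop7 (O : Lang) : prog1_Run O (Cmd.pop 7)
    (prog1_st a0 a1 a2 a3 a4 a5 a6 a7 a8 a9) (prog1_st a0 a1 a2 a3 a4 a5 a6 a7.tail a8 a9) 1 := by
  have h := prog1_pop O (prog1_st a0 a1 a2 a3 a4 a5 a6 a7 a8 a9) 7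
  rwa [prog1_up7] at h
theorem prog1_pop8 (O : Lang) : prog1_Run O (Cmd.pop 8)
    (prog1_st a0 a1 a2 a3 a4 a5 a6 a7 a8 a9) (prog1_st a0 a1 a2 a3 a4 a5 a6 a7 a8.tail a9) 1 := by
  have h := prog1_pop O (prog1_st a0 a1 a2 a3 a4 a5 a6 a7 a8 a9) 8
  rwa [prog1_up8] at h
theorem prog1_pop9 (O : Lang) : prog1_Run O (Cmd.pop 9)
    (prog1_st a0 a1 a2 a3 a4 a5 a6 a7 a8 a9) (prog1_st a0 a1 a2 a3 a4 a5 a6 a7 a8 a9.tail) 1 := by
  have h := prog1_pop O (prog1_st a0 a1 a2 a3 a4 a5 a6 a7 a8 a9) 9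
  rwa [prog1_up9] at h

end st

/-! ### The program -/

/-- one round: move the top bits of stacks 0 and 1 to stack 2 -/
def prog1_body : Cmd :=
  Cmd.seq (Cmd.cond 0 Cmd.skip (Cmd.seq (Cmd.pop 0) (Cmd.push 2 false))
      (Cmd.seq (Cmd.pop 0) (Cmd.push 2 true)))
    (Cmd.cond 1 (Cmd.push 3 true) (Cmd.seq (Cmd.pop 1) (Cmd.push 2 false))
      (Cmd.seq (Cmd.pop 1) (Cmd.push 2 true)))

/-- stacks with four entries -/
abbrev prog1_s4 (a b c d : List Bool) : ℕ → List Bool := prog1_st a b c d [] [] [] [] [] []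

theorem prog1_first (O : Lang) (a : Bool) (x y c d : List Bool) :
    prog1_Run O (Cmd.cond 0 Cmd.skip (Cmd.seq (Cmd.pop 0) (Cmd.push 2 false))
      (Cmd.seq (Cmd.pop 0) (Cmd.push 2 true))) (prog1_s4 (a :: x) y c d)
      (prog1_s4 x y (a :: c) d) 4 := by
  cases a with
  | false =>
    exact prog1_cond_false (l := x) rfl
      (prog1_seq (prog1_pop0 _ _ _ _ _ _ _ _ _ _ O) (prog1_push2 _ _ _ _ _ _ _ _ _ _ O false))
  | true =>
    exact prog1_cond_true (l := x) rfl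
      (prog1_seq (prog1_pop0 _ _ _ _ _ _ _ _ _ _ O) (prog1_push2 _ _ _ _ _ _ _ _ _ _ O true))

theorem prog1_second (O : Lang) (b : Bool) (x y c d : List Bool) :
    prog1_Run O (Cmd.cond 1 (Cmd.push 3 true) (Cmd.seq (Cmd.pop 1) (Cmd.push 2 false))
      (Cmd.seq (Cmd.pop 1) (Cmd.push 2 true))) (prog1_s4 x (b :: y) c d)
      (prog1_s4 x y (b :: c) d) 4 := by
  cases b with
  | false =>
    exact prog1_cond_false (l := y) rfl
      (prog1_seq (prog1_pop1 _ _ _ _ _ _ _ _ _ _ O) (prog1_push2 _ _ _ _ _ _ _ _ _ _ O false))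
  | true =>
    exact prog1_cond_true (l := y) rfl
      (prog1_seq (prog1_pop1 _ _ _ _ _ _ _ _ _ _ O) (prog1_push2 _ _ _ _ _ _ _ _ _ _ O true))

theorem prog1_second' (O : Lang) (x c d : List Bool) :
    prog1_Run O (Cmd.cond 1 (Cmd.push 3 true) (Cmd.seq (Cmd.pop 1) (Cmd.push 2 false))
      (Cmd.seq (Cmd.pop 1) (Cmd.push 2 true))) (prog1_s4 x [] c d)
      (prog1_s4 x [] c (true :: d)) 4 :=
  prog1_mono (prog1_cond_nil rfl (prog1_push3 _ _ _ _ _ _ _ _ _ _ O true)) (by norm_num)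

theorem prog1_body_cons (O : Lang) (a b : Bool) (x y c d : List Bool) :
    prog1_Run O prog1_body (prog1_s4 (a :: x) (b :: y) c d) (prog1_s4 x y (b :: a :: c) d) 9 :=
  prog1_seq (prog1_first O a x (b :: y) c d) (prog1_second O b x y (a :: c) d)

theorem prog1_body_nil (O : Lang) (a : Bool) (x c d : List Bool) :
    prog1_Run O prog1_body (prog1_s4 (a :: x) [] c d) (prog1_s4 x [] (a :: c) (true :: d)) 9 :=
  prog1_seq (prog1_first O a x [] c d) (prog1_second' O x (a :: c) d)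

/-- the loop: the stack 3 ends up empty if and only if `|x| ≤ |y|` -/
theorem prog1_main (O : Lang) (x : List Bool) : ∀ (y c d : List Bool),
    ∃ c' d', prog1_Run O (Cmd.loop 0 prog1_body) (prog1_s4 x y c d)
      (prog1_s4 [] (y.drop x.length) c' d') (10 * x.length + 1) ∧
      (x.length ≤ y.length → d' = d) ∧ (y.length < x.length → d' ≠ []) ∧
      (x.length = y.length → c' = (il x y).reverse ++ c) ∧ (d ≠ [] → d' ≠ []) := by
  induction x with
  | nil =>
    intro y c d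
    refine ⟨c, d, ?_, fun _ => rfl, fun h => absurd h (by simp), fun h => ?_, fun h => h⟩
    · simpa using prog1_loop_nil (O := O) (r := 0) (c := prog1_body)
        (s := prog1_s4 [] y c d) rfl
    · simp [il]
  | cons a x ih =>
    intro y c d
    cases y with
    | nil =>
      obtain ⟨c', d', h1, h2, h3, h4, h5⟩ := ih [] (a :: c) (true :: d)
      refine ⟨c', d', ?_, ?_, ?_, ?_, ?_⟩
      · refine prog1_mono (prog1_loop_cons (s1 := prog1_s4 x [] (a :: c) (true :: d))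
          (T2 := 10 * x.length + 1) ?_ (prog1_body_nil O a x c d) ?_) ?_
        · simp [prog1_st]
        · simpa using h1
        · simp only [List.length_cons]; omega
      · intro h; simp at h
      · intro _; exact h5 (by simp)
      · intro h; simp at h
      · intro _; exact h5 (by simp)
    | cons b y =>
      obtain ⟨c', d', h1, h2, h3, h4, h5⟩ := ih y (b :: a :: c) d
      refine ⟨c', d', ?_, ?_, ?_, ?_, ?_⟩
      · refine prog1_mono (prog1_loop_cons (s1 := prog1_s4 x y (b :: a :: c) d)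
          (T2 := 10 * x.length + 1) ?_ (prog1_body_cons O a b x y c d) ?_) ?_
        · simp [prog1_st]
        · simpa using h1
        · simp only [List.length_cons]; omega
      · intro h; exact h2 (by simpa using h)
      · intro h; exact h3 (by simpa using h)
      · intro h
        rw [h4 (by simpa using h)]
        simp [il]
      · intro h; exact h5 h

/-- the program for the value `b` -/
def prog1_P (b : Bool) : Cmd :=
  Cmd.seq (Cmd.loop 0 prog1_body) (Cmd.seq (Cmd.cond 1 Cmd.skip (Cmd.push 3 true) (Cmd.push 3 true))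
    (Cmd.cond 3 (Cmd.seq (Cmd.push 2 b) (Cmd.seq (Cmd.push 2 false)
      (Cmd.ask 2 Cmd.skip (Cmd.push 0 true)))) Cmd.skip Cmd.skip))

theorem prog1_spec (O : Lang) (b : Bool) (x y : List Bool) :
    ∃ s', prog1_Run O (prog1_P b) (init x y) s' (10 * x.length + 16) ∧
      ((s' 0).head? = some true ↔ (y.length = x.length ∧ O (saddr x y b) = true)) := by
  obtain ⟨c', d', h1, h2, h3, h4, h5⟩ := prog1_main O x y [] []
  rw [prog1_init]
  rcases lt_trichotomy y.length x.length with hlt | heq | hgt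
  · -- y shorter
    have hd : d' ≠ [] := h3 hlt
    have hy : y.drop x.length = [] := List.drop_eq_nil_of_le hlt.le
    rw [hy] at h1
    obtain ⟨u, v, rfl⟩ : ∃ u v, d' = u :: v := by
      cases d' with
      | nil => exact absurd rfl hd
      | cons u v => exact ⟨u, v, rfl⟩
    refine ⟨prog1_s4 [] [] c' (u :: v), ?_, ?_⟩
    · refine prog1_mono (prog1_seq h1 (prog1_seq (T1 := 2) (T2 := 2)
        (prog1_cond_nil rfl (prog1_skip O _)) ?_)) (by omega)
      cases u with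
      | false => exact prog1_cond_false (l := v) rfl (prog1_skip O _)
      | true => exact prog1_cond_true (l := v) rfl (prog1_skip O _)
    · constructor
      · intro h; simp [prog1_st] at h
      · rintro ⟨h, -⟩; omega
  · have hd : d' = [] := h2 heq.ge
    have hc : c' = (il x y).reverse := by rw [h4 heq.symm, List.append_nil]
    have hy : y.drop x.length = [] := List.drop_eq_nil_of_le heq.le
    rw [hy, hd, hc] at h1
    have hq : (prog1_st [] [] (false :: b :: (il x y).reverse) [] [] [] [] [] [] []) 2 =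
        saddr x y b := rfl
    cases hO : O (saddr x y b) with
    | true =>
      refine ⟨prog1_s4 [true] [] (false :: b :: (il x y).reverse) [], ?_, ?_⟩
      · refine prog1_mono (prog1_seq h1 (prog1_seq (T1 := 2) (T2 := 7)
          (prog1_cond_nil rfl (prog1_skip O _)) ?_)) (by omega)
        refine prog1_cond_nil rfl (T := 6) ?_
        refine prog1_mono (prog1_seq (prog1_push2 _ _ _ _ _ _ _ _ _ _ O b)
          (prog1_seq (prog1_push2 _ _ _ _ _ _ _ _ _ _ O false)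
            (prog1_ask_true (by rw [hq, hO]) (prog1_push0 _ _ _ _ _ _ _ _ _ _ O true)))) ?_
        norm_num
      · simp [prog1_st, heq]
    | false =>
      refine ⟨prog1_s4 [] [] (false :: b :: (il x y).reverse) [], ?_, ?_⟩
      · refine prog1_mono (prog1_seq h1 (prog1_seq (T1 := 2) (T2 := 7)
          (prog1_cond_nil rfl (prog1_skip O _)) ?_)) (by omega)
        refine prog1_cond_nil rfl (T := 6) ?_
        refine prog1_mono (prog1_seq (prog1_push2 _ _ _ _ _ _ _ _ _ _ O b)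
          (prog1_seq (prog1_push2 _ _ _ _ _ _ _ _ _ _ O false)
            (prog1_ask_false (by rw [hq, hO]) (prog1_skip O _)))) ?_
        norm_num
      · simp [prog1_st]
  · obtain ⟨u, v, huv⟩ : ∃ u v, y.drop x.length = u :: v := by
      cases h : y.drop x.length with
      | nil => have := List.drop_eq_nil_iff.1 h; omega
      | cons u v => exact ⟨u, v, rfl⟩
    rw [huv] at h1
    refine ⟨prog1_s4 [] (u :: v) c' (true :: d'), ?_, ?_⟩
    · refine prog1_mono (prog1_seq h1 (prog1_seq (T1 := 2) (T2 := 2)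
        (s1 := prog1_s4 [] (u :: v) c' (true :: d')) ?_
        (prog1_cond_true (l := d') rfl (prog1_skip O _)))) (by omega)
      cases u with
      | false => exact prog1_cond_false (l := v) rfl (prog1_push3 _ _ _ _ _ _ _ _ _ _ O true)
      | true => exact prog1_cond_true (l := v) rfl (prog1_push3 _ _ _ _ _ _ _ _ _ _ O true)
    · constructor
      · intro h; simp [prog1_st] at h
      · rintro ⟨h, -⟩; omega

theorem prog1_time (n : ℕ) : 10 * n + 16 ≤ (n + 2) ^ 5 := by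
  have h : (n + 2) ^ 5 = (n + 2) * (n + 2) ^ 4 := by ring
  have h4 : 16 ≤ (n + 2) ^ 4 := by
    calc 16 = 2 ^ 4 := by norm_num
      _ ≤ (n + 2) ^ 4 := Nat.pow_le_pow_left (by omega) 4
  rw [h]
  nlinarith

theorem prog1_acc (O : Lang) (b : Bool) (x y : List Bool) :
    Halts O (prog1_P b) x y ((x.length + 2) ^ 5) ∧
    (Accepts O (prog1_P b) x y ((x.length + 2) ^ 5) ↔
      (y.length = x.length ∧ O (saddr x y b) = true)) := by
  obtain ⟨s', h1, h2⟩ := prog1_spec O b x y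
  have h3 := prog1_final h1 (prog1_time x.length)
  constructor
  · simp only [Halts, run, h3]
  · simp only [Accepts, run, h3, true_and]
    exact h2

/-- PROG1 -/
theorem inUP_V {O : Lang} (h : ∀ n, Sec O n) : InUP O (V O) := by
  refine ⟨prog1_P true, 5, fun x y _ => (prog1_acc O true x y).1, fun x => ?_, ?_⟩
  · simp only [V, decide_eq_true_eq]
    constructor
    · rintro ⟨y, hy, hO⟩
      refine ⟨y, ?_, (prog1_acc O true x y).2.2 ⟨hy, hO⟩⟩
      have := prog1_time x.length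
      omega
    · rintro ⟨y, -, hA⟩
      exact ⟨y, (prog1_acc O true x y).2.1 hA⟩
  · intro x y y' _ _ hy hy'
    obtain ⟨h1, h2⟩ := (prog1_acc O true x y).2.1 hy
    obtain ⟨h3, h4⟩ := (prog1_acc O true x y').2.1 hy'
    have := (h x.length x rfl).unique (y₁ := (y, true)) (y₂ := (y', true)) ⟨h1, h2⟩ ⟨h3, h4⟩
    exact (Prod.ext_iff.1 this).1

/-- PROG1 -/
theorem inUP_compl_V {O : Lang} (h : ∀ n, Sec O n) : InUP O (fun x => !V O x) := by
  refine ⟨prog1_P false, 5, fun x y _ => (prog1_acc O false x y).1, fun x => ?_, ?_⟩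
  · simp only [Bool.not_eq_true', V, decide_eq_false_iff_not]
    constructor
    · intro hn
      obtain ⟨⟨y, b⟩, ⟨hy, hO⟩, -⟩ := h x.length x rfl
      have hb : b = false := by
        cases b with
        | false => rfl
        | true => exact absurd ⟨y, hy, hO⟩ hn
      subst hb
      refine ⟨y, ?_, (prog1_acc O false x y).2.2 ⟨hy, hO⟩⟩
      have := prog1_time x.length
      simp only at hy
      omega
    · rintro ⟨y, -, hA⟩ ⟨y', hy', hO'⟩
      obtain ⟨h1, h2⟩ := (prog1_acc O false x y).2.1 hA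
      have := (h x.length x rfl).unique (y₁ := (y, false)) (y₂ := (y', true)) ⟨h1, h2⟩
        ⟨hy', hO'⟩
      exact absurd (Prod.ext_iff.1 this).2 (by simp)
  · intro x y y' _ _ hy hy'
    obtain ⟨h1, h2⟩ := (prog1_acc O false x y).2.1 hy
    obtain ⟨h3, h4⟩ := (prog1_acc O false x y').2.1 hy'
    have := (h x.length x rfl).unique (y₁ := (y, false)) (y₂ := (y', false)) ⟨h1, h2⟩ ⟨h3, h4⟩
    exact (Prod.ext_iff.1 this).1

end Pool.Agent.CK
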