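import Pool.Agent.Lib_helper74.CKF.LIMIT
import Pool.Agent.Lib_helper74.CKF.ENUM
import Pool.Agent.Lib_helper74.CKF.PROG2

set_option autoImplicit false

namespace Pool.Agent.CK

theorem InUP.inNP {O L : Lang} (h : InUP O L) : InNP O L := by
  obtain ⟨c, k, h1, h2, -⟩ := h
  exact ⟨c, k, h1, h2⟩

/-- Every language is Turing reducible to itself. -/
theorem turing_refl (O L : Lang) : TuringReducible O L L := by
  refine ⟨Cmd.seq (Cmd.push 0 true) (Cmd.ask 0 (Cmd.push 0 false) (Cmd.push 0 true)), 2,
    fun x => ?_⟩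
  have h4 : ∃ m, (x.length + 2) ^ 2 = m + 4 := ⟨x.length ^ 2 + 4 * x.length, by ring⟩
  obtain ⟨m, hm⟩ := h4
  have hstop : ∀ (j : ℕ) (s : ℕ → List Bool), (step (join O L))^[j] ([], s) = ([], s) := by
    intro j s
    induction j with
    | zero => rfl
    | succ j ih => rw [Function.iterate_succ_apply', ih]; rfl
  have hrun : run (join O L) (Cmd.seq (Cmd.push 0 true)
      (Cmd.ask 0 (Cmd.push 0 false) (Cmd.push 0 true))) x [] ((x.length + 2) ^ 2) =
      ([], Function.update (Function.update (init x []) 0 (true :: x)) 0 (L x :: true :: x)) := by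
    rw [hm]
    unfold run
    rw [Function.iterate_add_apply]
    have h0 : (step (join O L))^[4] ([Cmd.seq (Cmd.push 0 true)
        (Cmd.ask 0 (Cmd.push 0 false) (Cmd.push 0 true))], init x []) =
        ([], Function.update (Function.update (init x []) 0 (true :: x)) 0
          (L x :: true :: x)) := by
      cases hL : L x <;>
        simp [Function.iterate_succ_apply', step, join, init, hL]
    rw [h0, hstop]
  constructor
  · unfold Halts
    rw [hrun]
  · unfold Accepts
    rw [hrun]
    simp

/-- FINAL -/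
theorem final_strong : ∃ O L : Lang, InUP O L ∧ InUP O (fun x => !L x) ∧ ¬ InP O L ∧
    ManyOneComplete O L ∧
    (∀ C, InNP O C → TuringReducible O L C → ManyOneComplete O C) ∧
    ∀ C, TuringComplete O C → ManyOneComplete O C := by
  obtain ⟨O, hG, hS, hD⟩ := limit
  have hmain : ∀ C, InNP O C → TuringReducible O (V O) C → ManyOneComplete O C := by
    intro C hC hT
    refine ⟨hC, fun A hA => ?_⟩
    obtain ⟨i, hi⟩ := exists_NL hC
    obtain ⟨l, hl⟩ := exists_NL hA
    obtain ⟨j, hj⟩ := exists_PL hT
    obtain ⟨k', hk', n, hDn⟩ := hD j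
    obtain ⟨-, hβ⟩ := hDn j hk'
    have hex : ∀ β : Bool, ∃ q, C q = !β := by
      intro β
      by_contra hcon
      push Not at hcon
      have hCβ : C = fun _ => β := by
        funext q
        have := hcon q
        cases hq : C q <;> cases hb : β <;> simp_all
      obtain ⟨x, -, hx⟩ := hβ β
      exact hx (by rw [← hCβ, hj])
    obtain ⟨q0, hq0⟩ := hex true
    obtain ⟨q1, hq1⟩ := hex false
    obtain ⟨e, he1, he2, he3, he4, he5⟩ := exists_index i j l (max q0.length q1.length)
    have hnt : Nontriv O e := by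
      refine ⟨q0, q1, (le_max_left _ _).trans he4, (le_max_right _ _).trans he4, ?_, ?_⟩
      · rw [he1, hi, hq0]; rfl
      · rw [he1, hi, hq1]; rfl
    have hcor : ∀ n, Correct O e n := by
      intro n x _
      rw [he2, he1, hi, hj]
    have hgood := fun z => hG e z he5 hnt hcor
    choose f hf1 hf2 hf3 using hgood
    refine ⟨f, inFP_read O e f (fun z => ?_) hf2, fun z => ?_⟩
    · refine le_trans ?_ (hf1 z)
      calc (f z).length ≤ (f z).length + 2 := by omega
        _ = ((f z).length + 2) ^ 1 := (pow_one _).symm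
        _ ≤ ((f z).length + 2) ^ (iC e + 2) := Nat.pow_le_pow_right (by omega) (by omega)
    · have := hf3 z
      rw [he1, hi, he3, hl] at this
      exact this.symm
  have hNP : InNP O (V O) := (inUP_V hS).inNP
  refine ⟨O, V O, inUP_V hS, inUP_compl_V hS, fun hP => ?_, hmain _ hNP (turing_refl O _), hmain,
    fun C hC => hmain C hC.1 (hC.2 _ hNP)⟩
  obtain ⟨i, hi⟩ := exists_PL hP
  obtain ⟨k', hk', n, hDn⟩ := hD i
  obtain ⟨⟨x, -, hx⟩, -⟩ := hDn i hk'
  exact hx (by rw [hi])

end Pool.Agent.CK
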