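import Pool.Agent.Lib_helper74.CKF.Basic

/-!
# Block PM: product measures
-/

set_option autoImplicit false

namespace Pool.Agent.CK

variable {Z Q : Type} [Fintype Z] [DecidableEq Z] [Fintype Q] [DecidableEq Q]

omit [Fintype Z] [Fintype Q] in
theorem pm_wt_some {μ : Z → Q → ℝ} {ρ : List (Z × Q)} {z : Z} {q' : Q}
    (h : ρ.lookup z = some q') (q : Q) : wt μ ρ z q = if q = q' then 1 else 0 := by
  unfold wt
  rw [h]

omit [Fintype Z] [Fintype Q] in
theorem pm_wt_none {μ : Z → Q → ℝ} {ρ : List (Z × Q)} {z : Z}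
    (h : ρ.lookup z = none) (q : Q) : wt μ ρ z q = μ z q := by
  unfold wt
  rw [h]

omit [Fintype Z] in
theorem pm_wt_nonneg {μ : Z → Q → ℝ} (hμ : IsPD μ) (ρ : List (Z × Q)) (z : Z) (q : Q) :
    0 ≤ wt μ ρ z q := by
  cases h : ρ.lookup z with
  | none => rw [pm_wt_none h]; exact (hμ z).1 q
  | some q' =>
    rw [pm_wt_some h]
    split_ifs
    · exact zero_le_one
    · exact le_refl _

omit [Fintype Z] in
theorem pm_wt_sum {μ : Z → Q → ℝ} (hμ : IsPD μ) (ρ : List (Z × Q)) (z : Z) :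
    ∑ q, wt μ ρ z q = 1 := by
  cases h : ρ.lookup z with
  | none =>
    simp_rw [pm_wt_none h]
    exact (hμ z).2
  | some q' =>
    simp_rw [pm_wt_some h]
    rw [Finset.sum_ite_eq' Finset.univ q' (fun _ => (1 : ℝ))]
    simp

theorem pm_prod_nonneg {μ : Z → Q → ℝ} (hμ : IsPD μ) (ρ : List (Z × Q)) (T : Z → Q) :
    0 ≤ ∏ z, wt μ ρ z (T z) :=
  Finset.prod_nonneg fun z _ => pm_wt_nonneg hμ ρ z (T z)

omit [Fintype Q] in
theorem pm_prod_zero (μ : Z → Q → ℝ) (ρ : List (Z × Q)) (T : Z → Q)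
    (h : ¬ ∀ z q, ρ.lookup z = some q → T z = q) : ∏ z, wt μ ρ z (T z) = 0 := by
  push Not at h
  obtain ⟨z, q, h1, h2⟩ := h
  refine Finset.prod_eq_zero (Finset.mem_univ z) ?_
  rw [pm_wt_some h1, if_neg h2]

/-- PM -/
theorem Pr_one {μ : Z → Q → ℝ} (hμ : IsPD μ) (ρ : List (Z × Q)) :
    Pr μ ρ (fun _ => 1) = 1 := by
  unfold Pr
  simp only [mul_one]
  have h := Finset.prod_univ_sum (fun _ : Z => (Finset.univ : Finset Q))
    (fun z q => wt μ ρ z q)
  rw [Fintype.piFinset_univ] at h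
  rw [← h]
  exact Finset.prod_eq_one fun z _ => pm_wt_sum hμ ρ z

/-- PM -/
theorem Pr_mono {μ : Z → Q → ℝ} (hμ : IsPD μ) (ρ : List (Z × Q)) {F G : (Z → Q) → ℝ}
    (h : ∀ T, F T ≤ G T) : Pr μ ρ F ≤ Pr μ ρ G :=
  Finset.sum_le_sum fun T _ => mul_le_mul_of_nonneg_left (h T) (pm_prod_nonneg hμ ρ T)

/-- PM: only tables that agree with `ρ` matter -/
theorem Pr_congr (μ : Z → Q → ℝ) (ρ : List (Z × Q)) {F G : (Z → Q) → ℝ}
    (h : ∀ T, (∀ z q, ρ.lookup z = some q → T z = q) → F T = G T) : Pr μ ρ F = Pr μ ρ G := by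
  refine Finset.sum_congr rfl fun T _ => ?_
  by_cases hT : ∀ z q, ρ.lookup z = some q → T z = q
  · rw [h T hT]
  · rw [pm_prod_zero μ ρ T hT, zero_mul, zero_mul]

/-- PM: monotone version of `Pr_congr` -/
theorem Pr_mono_on {μ : Z → Q → ℝ} (hμ : IsPD μ) (ρ : List (Z × Q)) {F G : (Z → Q) → ℝ}
    (h : ∀ T, (∀ z q, ρ.lookup z = some q → T z = q) → F T ≤ G T) : Pr μ ρ F ≤ Pr μ ρ G := by
  refine Finset.sum_le_sum fun T _ => ?_
  by_cases hT : ∀ z q, ρ.lookup z = some q → T z = q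
  · exact mul_le_mul_of_nonneg_left (h T hT) (pm_prod_nonneg hμ ρ T)
  · rw [pm_prod_zero μ ρ T hT, zero_mul, zero_mul]

/-- PM -/
theorem Pr_add (μ : Z → Q → ℝ) (ρ : List (Z × Q)) (F G : (Z → Q) → ℝ) :
    Pr μ ρ (fun T => F T + G T) = Pr μ ρ F + Pr μ ρ G := by
  unfold Pr
  rw [← Finset.sum_add_distrib]
  exact Finset.sum_congr rfl fun T _ => mul_add _ _ _

/-- PM -/
theorem Pr_mul (μ : Z → Q → ℝ) (ρ : List (Z × Q)) (a : ℝ) (F : (Z → Q) → ℝ) :
    Pr μ ρ (fun T => a * F T) = a * Pr μ ρ F := by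
  unfold Pr
  rw [Finset.mul_sum]
  exact Finset.sum_congr rfl fun T _ => by ring

theorem pm_sum {J : Type} (s : Finset J) (μ : Z → Q → ℝ) (ρ : List (Z × Q))
    (F : J → (Z → Q) → ℝ) :
    Pr μ ρ (fun T => ∑ j ∈ s, F j T) = ∑ j ∈ s, Pr μ ρ (F j) := by
  unfold Pr
  rw [Finset.sum_comm]
  exact Finset.sum_congr rfl fun T _ => Finset.mul_sum _ _ _

omit [Fintype Z] [Fintype Q] in
theorem pm_wt_cons_self (μ : Z → Q → ℝ) (ρ : List (Z × Q)) (z : Z) (q q' : Q) :
    wt μ ((z, q) :: ρ) z q' = if q' = q then 1 else 0 :=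
  pm_wt_some (by simp) q'

omit [Fintype Z] [Fintype Q] in
theorem pm_wt_cons_ne (μ : Z → Q → ℝ) (ρ : List (Z × Q)) {z z' : Z} (h : z' ≠ z) (q q' : Q) :
    wt μ ((z, q) :: ρ) z' q' = wt μ ρ z' q' := by
  have h1 : ((z, q) :: ρ).lookup z' = ρ.lookup z' := by
    rw [List.lookup_cons]
    have : (z' == z) = false := by simpa using h
    rw [this]
  unfold wt
  rw [h1]

omit [Fintype Q] in
theorem pm_prod_cons (μ : Z → Q → ℝ) (ρ : List (Z × Q)) (z : Z) (q : Q) (T : Z → Q) :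
    ∏ z', wt μ ((z, q) :: ρ) z' (T z') =
      (if T z = q then 1 else 0) * ∏ z' ∈ Finset.univ.erase z, wt μ ρ z' (T z') := by
  rw [← Finset.mul_prod_erase Finset.univ _ (Finset.mem_univ z), pm_wt_cons_self]
  congr 1
  exact Finset.prod_congr rfl fun z' hz' => pm_wt_cons_ne μ ρ (Finset.ne_of_mem_erase hz') q _

/-- PM: reveal one entry -/
theorem Pr_reveal (μ : Z → Q → ℝ) (ρ : List (Z × Q)) (z : Z) (hz : ρ.lookup z = none)
    (F : (Z → Q) → ℝ) : Pr μ ρ F = ∑ q, μ z q * Pr μ ((z, q) :: ρ) F := by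
  unfold Pr
  simp_rw [Finset.mul_sum]
  rw [Finset.sum_comm]
  refine Finset.sum_congr rfl fun T _ => ?_
  simp_rw [pm_prod_cons]
  rw [← Finset.mul_prod_erase Finset.univ _ (Finset.mem_univ z), pm_wt_none hz]
  have h1 : ∀ q, μ z q * ((if T z = q then 1 else 0) *
      (∏ z' ∈ Finset.univ.erase z, wt μ ρ z' (T z')) * F T) =
      if T z = q then μ z q * (∏ z' ∈ Finset.univ.erase z, wt μ ρ z' (T z')) * F T else 0 := by
    intro q
    split_ifs <;> ring
  simp_rw [h1]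
  rw [Finset.sum_ite_eq Finset.univ (T z)]
  simp

theorem pm_shift (μ : Z → Q → ℝ) (ρ : List (Z × Q)) (z : Z) (q q' : Q) (G : (Z → Q) → ℝ) :
    Pr μ ((z, q') :: ρ) (fun T => G (Function.update T z q)) = Pr μ ((z, q) :: ρ) G := by
  unfold Pr
  set e : (Z → Q) ≃ (Z → Q) := Equiv.piCongrRight
    (fun z' => if z' = z then Equiv.swap q q' else Equiv.refl Q) with he
  have hez : ∀ T : Z → Q, e T z = Equiv.swap q q' (T z) := by
    intro T
    simp [he]
  have hen : ∀ (T : Z → Q) (z' : Z), z' ≠ z → e T z' = T z' := by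
    intro T z' h
    simp [he, h]
  rw [← Equiv.sum_comp e]
  refine Finset.sum_congr rfl fun T _ => ?_
  rw [pm_prod_cons, pm_prod_cons, hez]
  have h1 : ∏ z' ∈ Finset.univ.erase z, wt μ ρ z' (e T z') =
      ∏ z' ∈ Finset.univ.erase z, wt μ ρ z' (T z') :=
    Finset.prod_congr rfl fun z' hz' => by rw [hen T z' (Finset.ne_of_mem_erase hz')]
  rw [h1]
  by_cases h : T z = q
  · have h2 : Function.update (e T) z q = T := by
      funext z'
      by_cases h3 : z' = z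
      · rw [h3, Function.update_self, h]
      · rw [Function.update_of_ne h3, hen T z' h3]
    simp only [h2, h, Equiv.swap_apply_left, if_true]
  · have h2 : Equiv.swap q q' (T z) ≠ q' := by
      intro h3
      apply h
      exact (Equiv.swap q q').injective (h3.trans (Equiv.swap_apply_left q q').symm)
    rw [if_neg h2, if_neg h, zero_mul, zero_mul, zero_mul]

/-- PM: average over one entry -/
theorem Pr_resample {μ : Z → Q → ℝ} (hμ : IsPD μ) (ρ : List (Z × Q)) (z : Z)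
    (hz : ρ.lookup z = none) (F : (Z → Q) → ℝ) :
    Pr μ ρ F = Pr μ ρ (fun T => ∑ q, μ z q * F (Function.update T z q)) := by
  rw [Pr_reveal μ ρ z hz (fun T => ∑ q, μ z q * F (Function.update T z q))]
  have h1 : ∀ q', Pr μ ((z, q') :: ρ) (fun T => ∑ q, μ z q * F (Function.update T z q)) =
      Pr μ ρ F := by
    intro q'
    rw [pm_sum, Pr_reveal μ ρ z hz F]
    refine Finset.sum_congr rfl fun q _ => ?_
    rw [Pr_mul, pm_shift]
  simp_rw [h1]
  rw [← Finset.sum_mul, (hμ z).2, one_mul]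

/-- PM: if the expectation is positive there is a table with positive weight and value -/
theorem Pr_pos {μ : Z → Q → ℝ} (hμ : IsPD μ) (ρ : List (Z × Q)) (F : (Z → Q) → ℝ)
    (h : 0 < Pr μ ρ F) : ∃ T, (∀ z, ρ.lookup z = none → μ z (T z) ≠ 0) ∧ 0 < F T := by
  obtain ⟨T, -, hT⟩ := Finset.exists_lt_of_sum_lt (s := Finset.univ) (f := fun _ : Z → Q => (0 : ℝ))
    (g := fun T => (∏ z, wt μ ρ z (T z)) * F T) (by rw [Finset.sum_const_zero]; exact h)
  have h0 := pm_prod_nonneg hμ ρ T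
  have h1 : 0 < ∏ z, wt μ ρ z (T z) := by
    rcases h0.eq_or_lt with h2 | h2
    · rw [← h2, zero_mul] at hT
      exact absurd hT (lt_irrefl _)
    · exact h2
  refine ⟨T, fun z hz h3 => ?_, (pos_iff_pos_of_mul_pos hT).1 h1⟩
  have h4 : ∏ z, wt μ ρ z (T z) = 0 := by
    refine Finset.prod_eq_zero (Finset.mem_univ z) ?_
    rw [pm_wt_none hz, h3]
  exact h1.ne' h4

end Pool.Agent.CK
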