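import Pool.Agent.Lib_helper74.CKF.Defs

/-!
# Decision trees over an oracle
-/

set_option autoImplicit false

namespace Pool.Agent.CK

/-- Decision trees that ask an oracle about strings; `n0` is the continuation for the answer
`false`, `n1` for the answer `true`. -/
inductive DT (β : Type) : Type
  | leaf (b : β)
  | node (w : List Bool) (n0 n1 : DT β)

namespace DT

variable {β γ : Type}

/-- the value of the tree for the oracle `O` -/
def eval (O : Lang) : DT β → β
  | leaf b => b
  | node w n0 n1 => if O w = true then eval O n1 else eval O n0

/-- the depth -/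
def depth : DT β → ℕ
  | leaf _ => 0
  | node _ n0 n1 => max (depth n0) (depth n1) + 1

/-- all strings asked by the tree have property `P` -/
def AllQ (P : List Bool → Prop) : DT β → Prop
  | leaf _ => True
  | node w n0 n1 => P w ∧ AllQ P n0 ∧ AllQ P n1

/-- composition -/
def bind : DT β → (β → DT γ) → DT γ
  | leaf b, f => f b
  | node w n0 n1, f => node w (bind n0 f) (bind n1 f)

/-- apply a function to the leaves -/
def map (f : β → γ) : DT β → DT γ
  | leaf b => leaf (f b)
  | node w n0 n1 => node w (map f n0) (map f n1)

@[simp] theorem eval_leaf (O : Lang) (b : β) : (leaf b).eval O = b := rfl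

theorem eval_node (O : Lang) (w : List Bool) (n0 n1 : DT β) :
    (node w n0 n1).eval O = if O w = true then n1.eval O else n0.eval O := rfl

@[simp] theorem depth_leaf (b : β) : (leaf b).depth = 0 := rfl

theorem depth_node (w : List Bool) (n0 n1 : DT β) :
    (node w n0 n1).depth = max n0.depth n1.depth + 1 := rfl

theorem eval_bind (O : Lang) (t : DT β) (f : β → DT γ) :
    (t.bind f).eval O = (f (t.eval O)).eval O := by
  induction t with
  | leaf b => rfl
  | node w n0 n1 h0 h1 =>
    simp only [bind, eval_node, h0, h1]
    split_ifs <;> rfl

theorem depth_bind (t : DT β) (f : β → DT γ) (d : ℕ) (h : ∀ b, (f b).depth ≤ d) :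
    (t.bind f).depth ≤ t.depth + d := by
  induction t with
  | leaf b => simpa [bind] using h b
  | node w n0 n1 h0 h1 =>
    simp only [bind, depth_node]
    omega

theorem eval_map (O : Lang) (t : DT β) (f : β → γ) : (t.map f).eval O = f (t.eval O) := by
  induction t with
  | leaf b => rfl
  | node w n0 n1 h0 h1 =>
    simp only [map, eval_node, h0, h1]
    split_ifs <;> rfl

theorem depth_map (t : DT β) (f : β → γ) : (t.map f).depth = t.depth := by
  induction t with
  | leaf b => rfl
  | node w n0 n1 h0 h1 => simp [map, depth_node, h0, h1]

/-- trees only see the strings they ask about -/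
theorem eval_congr {O O' : Lang} (t : DT β) (P : List Bool → Prop) (h : t.AllQ P)
    (hO : ∀ w, P w → O w = O' w) : t.eval O = t.eval O' := by
  induction t with
  | leaf b => rfl
  | node w n0 n1 h0 h1 =>
    obtain ⟨hw, h2, h3⟩ := h
    rw [eval_node, eval_node, hO w hw, h0 h2, h1 h3]

theorem AllQ.mono {P Q : List Bool → Prop} {t : DT β} (h : t.AllQ P) (hPQ : ∀ w, P w → Q w) :
    t.AllQ Q := by
  induction t with
  | leaf b => trivial
  | node w n0 n1 h0 h1 => exact ⟨hPQ w h.1, h0 h.2.1, h1 h.2.2⟩

/-- Replace the queries of the join `O ⊕ B`: questions to `O` are asked, questions `q` to `B`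
are answered by the tree `f q`. -/
def tr (f : List Bool → DT Bool) : DT β → DT β
  | leaf b => leaf b
  | node [] n0 _ => tr f n0
  | node (false :: w) n0 n1 => node w (tr f n0) (tr f n1)
  | node (true :: q) n0 n1 => (f q).bind fun a => if a = true then tr f n1 else tr f n0

theorem eval_tr (O : Lang) (f : List Bool → DT Bool) (t : DT β) :
    (tr f t).eval O = t.eval (join O fun q => (f q).eval O) := by
  induction t with
  | leaf b => rfl
  | node w n0 n1 h0 h1 =>
    match w with
    | [] => rw [tr, h0, eval_node]; rfl
    | false :: w => rw [tr, eval_node, eval_node, h0, h1]; rfl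
    | true :: q =>
      rw [tr, eval_bind, eval_node]
      change eval O (if (f q).eval O = true then tr f n1 else tr f n0) =
        if (f q).eval O = true then _ else _
      split_ifs <;> assumption

theorem depth_tr (f : List Bool → DT Bool) (t : DT β) (d : ℕ) (hd : 1 ≤ d)
    (h : ∀ q, (f q).depth ≤ d) : (tr f t).depth ≤ t.depth * d := by
  induction t with
  | leaf b => simp [tr]
  | node w n0 n1 h0 h1 =>
    have e0 : n0.depth * d ≤ max n0.depth n1.depth * d := Nat.mul_le_mul_right _ (le_max_left _ _)
    have e1 : n1.depth * d ≤ max n0.depth n1.depth * d := Nat.mul_le_mul_right _ (le_max_right _ _)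
    have e2 : (node w n0 n1).depth * d = max n0.depth n1.depth * d + d := by
      rw [depth_node]; ring
    rw [e2]
    match w with
    | [] => rw [tr]; omega
    | false :: w =>
      rw [tr, depth_node]
      omega
    | true :: q =>
      rw [tr]
      refine (depth_bind _ _ (max n0.depth n1.depth * d) ?_).trans ?_
      · intro a
        split_ifs
        · omega
        · omega
      · have := h q
        omega

/-- If two answers to the `B`-questions agree on the questions asked, the values agree. -/
theorem eval_join_congr {O O' B B' : Lang} (t : DT β) (P : List Bool → Prop) (h : t.AllQ P)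
    (hO : ∀ w, P (false :: w) → O w = O' w) (hB : ∀ w, P (true :: w) → B w = B' w) :
    t.eval (join O B) = t.eval (join O' B') := by
  apply eval_congr t P h
  intro w hw
  match w with
  | [] => rfl
  | false :: w => exact hO w hw
  | true :: w => exact hB w hw

/-- count the trees with value `true` -/
def count : List (DT Bool) → DT ℕ
  | [] => leaf 0
  | t :: l => t.bind fun a => (count l).map fun n => if a = true then n + 1 else n

theorem eval_count (O : Lang) (l : List (DT Bool)) :
    (count l).eval O = l.countP fun t => t.eval O := by
  induction l with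
  | nil => rfl
  | cons t l ih =>
    rw [count, eval_bind, eval_map, ih, List.countP_cons]
    split_ifs <;> rfl

theorem depth_count (l : List (DT Bool)) (d : ℕ) (h : ∀ t ∈ l, t.depth ≤ d) :
    (count l).depth ≤ l.length * d := by
  induction l with
  | nil => simp [count]
  | cons t l ih =>
    rw [count]
    refine (depth_bind _ _ (l.length * d) ?_).trans ?_
    · intro b
      rw [depth_map]
      exact ih fun t ht => h t (List.mem_cons_of_mem _ ht)
    · have := h t (List.mem_cons_self ..)
      simp only [List.length_cons]
      have e : (l.length + 1) * d = l.length * d + d := by ring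
      omega

/-- majority -/
def maj (l : List (DT Bool)) : DT Bool := (count l).map fun n => decide (l.length < 2 * n)

/-- at least `θ` of the trees have value `true` -/
def thr (l : List (DT Bool)) (θ : ℕ) : DT Bool := (count l).map fun n => decide (θ ≤ n)

theorem eval_maj (O : Lang) (l : List (DT Bool)) :
    (maj l).eval O = decide (l.length < 2 * l.countP fun t => t.eval O) := by
  rw [maj, eval_map, eval_count]

theorem eval_thr (O : Lang) (l : List (DT Bool)) (θ : ℕ) :
    (thr l θ).eval O = decide (θ ≤ l.countP fun t => t.eval O) := by
  rw [thr, eval_map, eval_count]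

theorem depth_maj (l : List (DT Bool)) (d : ℕ) (h : ∀ t ∈ l, t.depth ≤ d) :
    (maj l).depth ≤ l.length * d := by
  rw [maj, depth_map]; exact depth_count l d h

theorem depth_thr (l : List (DT Bool)) (θ d : ℕ) (h : ∀ t ∈ l, t.depth ≤ d) :
    (thr l θ).depth ≤ l.length * d := by
  rw [thr, depth_map]; exact depth_count l d h

end DT

/-! ## Tables and simulation -/

section table

variable {Z Q ι : Type} [DecidableEq Z]

/-- The oracle `O` with the table `T` written into it: the positions `w` with `pos w = some (z, i)`
contain `rd (T z) i`. -/
def patch (pos : List Bool → Option (Z × ι)) (rd : Q → ι → Bool) (O : Lang) (T : Z → Q) : Lang :=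
  fun w => match pos w with
    | none => O w
    | some (z, i) => rd (T z) i

/-- Simulation of the tree without the table: `ρ` is the list of the table entries known so far,
new entries are taken from the list `r`. -/
def sim (pos : List Bool → Option (Z × ι)) (rd : Q → ι → Bool) :
    DT Bool → List (Z × Q) → List Q → DT Bool
  | DT.leaf b, _, _ => DT.leaf b
  | DT.node w n0 n1, ρ, r => match pos w with
    | none => DT.node w (sim pos rd n0 ρ r) (sim pos rd n1 ρ r)
    | some (z, i) => match ρ.lookup z with
      | some q => if rd q i = true then sim pos rd n1 ρ r else sim pos rd n0 ρ r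
      | none => match r with
        | [] => DT.leaf false
        | q :: r => if rd q i = true then sim pos rd n1 ((z, q) :: ρ) r
            else sim pos rd n0 ((z, q) :: ρ) r

theorem depth_sim (pos : List Bool → Option (Z × ι)) (rd : Q → ι → Bool) (t : DT Bool)
    (ρ : List (Z × Q)) (r : List Q) : (sim pos rd t ρ r).depth ≤ t.depth := by
  induction t generalizing ρ r with
  | leaf b => simp [sim]
  | node w n0 n1 h0 h1 =>
    have a0 := h0 ρ r
    have a1 := h1 ρ r
    rw [sim, DT.depth_node]
    split
    · rw [DT.depth_node]; omega
    · split
      · split_ifs <;> omega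
      · split
        · simp
        · rename_i q r
          split_ifs
          · refine (h1 _ _).trans ?_
            omega
          · refine (h0 _ _).trans ?_
            omega

/-- A test: run the simulation of `A x` with the memory `ρ`, the `k`-th new table entry being the
argument `q` of the test (`k = pre.length`), and compare the result with `β`. -/
structure Test (X Z Q : Type) where
  A : X → DT Bool
  x : X
  ρ : List (Z × Q)
  pre : List Q
  post : List Q
  β : Bool

/-- the tree of a test -/
def Test.tree {X : Type} (pos : List Bool → Option (Z × ι)) (rd : Q → ι → Bool) (t : Test X Z Q)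
    (q : Q) : DT Bool :=
  (sim pos rd (t.A t.x) t.ρ (t.pre ++ q :: t.post)).map fun b => b == t.β

/-- the value of a test -/
def Test.val {X : Type} (pos : List Bool → Option (Z × ι)) (rd : Q → ι → Bool) (O : Lang)
    (t : Test X Z Q) (q : Q) : Bool :=
  (sim pos rd (t.A t.x) t.ρ (t.pre ++ q :: t.post)).eval O == t.β

theorem Test.eval_tree {X : Type} (pos : List Bool → Option (Z × ι)) (rd : Q → ι → Bool)
    (O : Lang) (t : Test X Z Q) (q : Q) : (t.tree pos rd q).eval O = t.val pos rd O q := by
  rw [Test.tree, DT.eval_map, Test.val]

theorem Test.depth_tree {X : Type} (pos : List Bool → Option (Z × ι)) (rd : Q → ι → Bool)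
    (t : Test X Z Q) (q : Q) : (t.tree pos rd q).depth ≤ (t.A t.x).depth := by
  rw [Test.tree, DT.depth_map]; exact depth_sim pos rd _ _ _

end table

end Pool.Agent.CK
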