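import Mathlib

/-!
# Relativized polynomial time: machine model and complexity classes

(MP_675993_lc.)  Machines are while-programs that work on finitely many stacks of bits and may ask
an oracle about the content of a stack; every elementary action takes one step.
-/

set_option autoImplicit false

namespace Pool.Agent.CK

/-- Languages (and oracles): sets of bit strings, given by their characteristic functions. -/
abbrev Lang : Type := List Bool → Bool

/-- Programs of an oracle machine with stacks `0, 1, 2, ...` of bits. -/
inductive Cmd : Type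
  /-- do nothing -/
  | skip
  /-- push the bit `b` on stack `r` -/
  | push (r : ℕ) (b : Bool)
  /-- remove the top bit of stack `r` (if there is one) -/
  | pop (r : ℕ)
  /-- first `c`, then `d` -/
  | seq (c d : Cmd)
  /-- `b` if stack `r` is empty, `c` if its top bit is `0`, `d` if its top bit is `1` -/
  | cond (r : ℕ) (b c d : Cmd)
  /-- while stack `r` is not empty do `c` -/
  | loop (r : ℕ) (c : Cmd)
  /-- if the content of stack `r` (top bit first) is in the oracle then `d`, otherwise `c` -/
  | ask (r : ℕ) (c d : Cmd)
  deriving DecidableEq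

/-- A configuration: the commands that are still to be executed, and the contents of the stacks
(top bit first). -/
abbrev Config : Type := List Cmd × (ℕ → List Bool)

/-- One step of the computation with oracle `O`. -/
def step (O : Lang) : Config → Config
  | ([], s) => ([], s)
  | (Cmd.skip :: k, s) => (k, s)
  | (Cmd.push r b :: k, s) => (k, Function.update s r (b :: s r))
  | (Cmd.pop r :: k, s) => (k, Function.update s r (s r).tail)
  | (Cmd.seq c d :: k, s) => (c :: d :: k, s)
  | (Cmd.cond r b c d :: k, s) =>
    ((match s r with | [] => b | false :: _ => c | true :: _ => d) :: k, s)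
  | (Cmd.loop r c :: k, s) => if s r = [] then (k, s) else (c :: Cmd.loop r c :: k, s)
  | (Cmd.ask r c d :: k, s) => ((if O (s r) = true then d else c) :: k, s)

/-- The initial stacks: `x` on stack `0`, `y` on stack `1`, all other stacks are empty. -/
def init (x y : List Bool) : ℕ → List Bool
  | 0 => x
  | 1 => y
  | _ + 2 => []

/-- The configuration after `t` steps of the program `c` with oracle `O` and inputs `x`, `y`. -/
def run (O : Lang) (c : Cmd) (x y : List Bool) (t : ℕ) : Config :=
  (step O)^[t] ([c], init x y)

/-- The program has halted after at most `t` steps: nothing is left to be done. -/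
def Halts (O : Lang) (c : Cmd) (x y : List Bool) (t : ℕ) : Prop :=
  (run O c x y t).1 = []

/-- The program accepts within `t` steps: it has halted with a `1` on top of stack `0`. -/
def Accepts (O : Lang) (c : Cmd) (x y : List Bool) (t : ℕ) : Prop :=
  (run O c x y t).1 = [] ∧ ((run O c x y t).2 0).head? = some true

/-- `L ∈ P^O`. -/
def InP (O L : Lang) : Prop :=
  ∃ (c : Cmd) (k : ℕ), ∀ x : List Bool,
    Halts O c x [] ((x.length + 2) ^ k) ∧ (Accepts O c x [] ((x.length + 2) ^ k) ↔ L x = true)

/-- `f ∈ FP^O`: the output is the content of stack `0`. -/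
def InFP (O : Lang) (f : List Bool → List Bool) : Prop :=
  ∃ (c : Cmd) (k : ℕ), ∀ x : List Bool,
    Halts O c x [] ((x.length + 2) ^ k) ∧ (run O c x [] ((x.length + 2) ^ k)).2 0 = f x

/-- `L ∈ NP^O`: witnesses `y` of polynomial length, checked in polynomial time (with the input
`x` on stack `0` and the witness `y` on stack `1`). -/
def InNP (O L : Lang) : Prop :=
  ∃ (c : Cmd) (k : ℕ),
    (∀ x y : List Bool, y.length ≤ (x.length + 2) ^ k → Halts O c x y ((x.length + 2) ^ k)) ∧
    ∀ x : List Bool, L x = true ↔
      ∃ y : List Bool, y.length ≤ (x.length + 2) ^ k ∧ Accepts O c x y ((x.length + 2) ^ k)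

/-- `L ∈ UP^O`: as `InNP`, with at most one witness for each input. -/
def InUP (O L : Lang) : Prop :=
  ∃ (c : Cmd) (k : ℕ),
    (∀ x y : List Bool, y.length ≤ (x.length + 2) ^ k → Halts O c x y ((x.length + 2) ^ k)) ∧
    (∀ x : List Bool, L x = true ↔
      ∃ y : List Bool, y.length ≤ (x.length + 2) ^ k ∧ Accepts O c x y ((x.length + 2) ^ k)) ∧
    ∀ x y y' : List Bool, y.length ≤ (x.length + 2) ^ k → y'.length ≤ (x.length + 2) ^ k →
      Accepts O c x y ((x.length + 2) ^ k) → Accepts O c x y' ((x.length + 2) ^ k) → y = y'

/-- The join `O ⊕ B` of two oracles: `0w` asks `O` about `w`, `1w` asks `B` about `w`. -/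
def join (O B : Lang) : Lang
  | [] => false
  | false :: w => O w
  | true :: w => B w

/-- `A ≤_T^P B` relative to `O`. -/
def TuringReducible (O A B : Lang) : Prop := InP (join O B) A

/-- `A ≤_m^P B` relative to `O`. -/
def ManyOneReducible (O A B : Lang) : Prop :=
  ∃ f : List Bool → List Bool, InFP O f ∧ ∀ x, A x = B (f x)

/-- `C` is `≤_T^P`-complete for `NP`, relative to `O`. -/
def TuringComplete (O C : Lang) : Prop := InNP O C ∧ ∀ A, InNP O A → TuringReducible O A C

/-- `C` is `≤_m^P`-complete for `NP`, relative to `O`. -/
def ManyOneComplete (O C : Lang) : Prop := InNP O C ∧ ∀ A, InNP O A → ManyOneReducible O A C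

end Pool.Agent.CK
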