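import Pool.Agent.Lib_helper74.CKF.Basic

/-! # CK block MAJ (helper4) -/

set_option autoImplicit false
set_option linter.unusedSectionVars false

namespace Pool.Agent.CK

section

variable {X Q : Type} [Fintype X] [Fintype Q] [DecidableEq Q]

theorem maj_exL_const (ν : Q → ℝ) (hν : ∑ q, ν q = 1) (K : ℕ) (c : ℝ) :
    exL ν K (fun _ => c) = c := by
  induction K with
  | zero => rfl
  | succ d ih =>
    simp only [exL, ih]
    rw [← Finset.sum_mul, hν, one_mul]

theorem maj_exL_add (ν : Q → ℝ) (K : ℕ) (F G : List Q → ℝ) :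
    exL ν K (fun r => F r + G r) = exL ν K F + exL ν K G := by
  induction K generalizing F G with
  | zero => rfl
  | succ d ih =>
    simp only [exL, ih]
    rw [← Finset.sum_add_distrib]
    exact Finset.sum_congr rfl fun q _ => by ring

theorem maj_exL_mul (ν : Q → ℝ) (K : ℕ) (a : ℝ) (F : List Q → ℝ) :
    exL ν K (fun r => a * F r) = a * exL ν K F := by
  induction K generalizing F with
  | zero => rfl
  | succ d ih =>
    simp only [exL, ih]
    rw [Finset.mul_sum]
    exact Finset.sum_congr rfl fun q _ => by ring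

theorem maj_exL_sum (ν : Q → ℝ) (hν : ∑ q, ν q = 1) (K : ℕ) (s : Finset X)
    (F : X → List Q → ℝ) :
    exL ν K (fun r => ∑ x ∈ s, F x r) = ∑ x ∈ s, exL ν K (F x) := by
  classical
  induction s using Finset.induction_on with
  | empty => simpa using maj_exL_const ν hν K 0
  | insert a s ha ih =>
    rw [Finset.sum_insert ha, ← ih, ← maj_exL_add]
    congr 1
    funext r
    rw [Finset.sum_insert ha]

theorem maj_exists_le (ν : Q → ℝ) (hν : (∀ q, 0 ≤ ν q) ∧ ∑ q, ν q = 1) (K : ℕ)
    (F : List Q → ℝ) (B : ℝ) (h : exL ν K F ≤ B) : ∃ r : List Q, r.length = K ∧ F r ≤ B := by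
  induction K generalizing F with
  | zero => exact ⟨[], rfl, h⟩
  | succ d ih =>
    by_contra hcon
    push Not at hcon
    have h1 : ∀ q, B < exL ν d (fun l => F (q :: l)) := by
      intro q
      by_contra hq
      push Not at hq
      obtain ⟨r, hr, hr'⟩ := ih (fun l => F (q :: l)) hq
      exact absurd hr' (not_le.mpr (hcon (q :: r) (by simp [hr])))
    have h2 : ∑ q, ν q * B < ∑ q, ν q * exL ν d (fun l => F (q :: l)) := by
      apply Finset.sum_lt_sum
      · intro q _
        exact mul_le_mul_of_nonneg_left (h1 q).le (hν.1 q)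
      · have : ∃ q, 0 < ν q := by
          by_contra hn
          push Not at hn
          have : ∑ q, ν q ≤ 0 := Finset.sum_nonpos fun q _ => hn q
          rw [hν.2] at this
          linarith
        obtain ⟨q, hq⟩ := this
        exact ⟨q, Finset.mem_univ _, mul_lt_mul_of_pos_left (h1 q) hq⟩
    rw [← Finset.sum_mul, hν.2, one_mul] at h2
    simp only [exL] at h
    linarith

theorem maj_greedy (ν : Q → ℝ) (hν : (∀ q, 0 ≤ ν q) ∧ ∑ q, ν q = 1) (K : ℕ)
    (G : X → List Q → Bool) (hG : ∀ x, 15 / 16 ≤ exL ν K (fun r => ind (G x r))) (m : ℕ) :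
    ∃ rs : List (List Q), rs.length = m ∧ (∀ r ∈ rs, r.length = K) ∧
      ∑ x, (4 : ℝ) ^ (rs.countP (fun r => !G x r)) ≤ Fintype.card X * (19 / 16) ^ m := by
  induction m with
  | zero => exact ⟨[], rfl, by simp, by simp⟩
  | succ m ih =>
    obtain ⟨rs, h1, h2, h3⟩ := ih
    have key : exL ν K (fun r => ∑ x, (4 : ℝ) ^ (rs.countP (fun r => !G x r)) *
        (4 + (-3) * ind (G x r))) ≤ (19 / 16) * ∑ x, (4 : ℝ) ^ (rs.countP (fun r => !G x r)) := by
      rw [maj_exL_sum ν hν.2, Finset.mul_sum]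
      refine Finset.sum_le_sum fun x _ => ?_
      rw [maj_exL_mul, maj_exL_add, maj_exL_const ν hν.2, maj_exL_mul]
      have h4 : (0 : ℝ) < 4 ^ (rs.countP (fun r => !G x r)) := by positivity
      have h5 := hG x
      nlinarith
    obtain ⟨r, hr, hr'⟩ := maj_exists_le ν hν K _ _ key
    refine ⟨r :: rs, by simp [h1], ?_, ?_⟩
    · intro r' hr''
      rcases List.mem_cons.1 hr'' with h | h
      · rw [h]; exact hr
      · exact h2 _ h
    · have h6 : ∀ x, (4 : ℝ) ^ ((r :: rs).countP (fun r => !G x r)) =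
          (4 : ℝ) ^ (rs.countP (fun r => !G x r)) * (4 + (-3) * ind (G x r)) := by
        intro x
        rw [List.countP_cons]
        cases hGx : G x r <;> simp [ind, pow_succ]
        norm_num
      rw [Finset.sum_congr rfl fun x _ => h6 x]
      calc _ ≤ _ := hr'
        _ ≤ (19 / 16) * (Fintype.card X * (19 / 16) ^ m) :=
          mul_le_mul_of_nonneg_left h3 (by norm_num)
        _ = _ := by ring

theorem maj_lemma (ν : Q → ℝ) (hν : (∀ q, 0 ≤ ν q) ∧ ∑ q, ν q = 1) (K n : ℕ)
    (hX : Fintype.card X ≤ 2 ^ n) (G : X → List Q → Bool)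
    (hG : ∀ x, 15 / 16 ≤ exL ν K (fun r => ind (G x r))) :
    ∃ rs : List (List Q), rs.length = 2 * n + 1 ∧ (∀ r ∈ rs, r.length = K) ∧
      ∀ x, rs.length < 2 * rs.countP (fun r => G x r) := by
  obtain ⟨rs, h1, h2, h3⟩ := maj_greedy ν hν K G hG (2 * n + 1)
  refine ⟨rs, h1, h2, fun x => ?_⟩
  by_contra hx
  push Not at hx
  have hsum : rs.length = rs.countP (fun r => G x r) + rs.countP (fun r => !G x r) := by
    have := List.length_eq_countP_add_countP (fun r => G x r) (l := rs)
    simpa using this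
  have hw : n + 1 ≤ rs.countP (fun r => !G x r) := by omega
  have h4 : (4 : ℝ) ^ (n + 1) ≤ ∑ x, (4 : ℝ) ^ (rs.countP (fun r => !G x r)) :=
    (pow_le_pow_right₀ (by norm_num) hw).trans
      (Finset.single_le_sum (f := fun x => (4 : ℝ) ^ (rs.countP (fun r => !G x r)))
        (fun _ _ => by positivity) (Finset.mem_univ x))
  have h5 : ((Fintype.card X : ℕ) : ℝ) ≤ 2 ^ n := by exact_mod_cast hX
  have h6 : (4 : ℝ) ^ (n + 1) ≤ 2 ^ n * (19 / 16) ^ (2 * n + 1) :=
    (h4.trans h3).trans (mul_le_mul_of_nonneg_right h5 (by positivity))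
  have h7 : ((19 / 16 : ℝ)) ^ (2 * n + 1) ≤ 2 ^ n * (19 / 16) := by
    rw [pow_succ, pow_mul]
    exact mul_le_mul_of_nonneg_right (pow_le_pow_left₀ (by norm_num) (by norm_num) n) (by norm_num)
  have h8 : (4 : ℝ) ^ (n + 1) = 2 ^ n * 2 ^ n * 4 := by
    rw [pow_succ, ← mul_pow]; norm_num
  have h9 : (0 : ℝ) < 2 ^ n * 2 ^ n := by positivity
  have h10 : (2 : ℝ) ^ n * (19 / 16) ^ (2 * n + 1) ≤ 2 ^ n * (2 ^ n * (19 / 16)) :=
    mul_le_mul_of_nonneg_left h7 (by positivity)
  nlinarith

end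

end Pool.Agent.CK
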