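import Pool.Agent.Lib_helper74.CKF.PATH
import Pool.Agent.Lib_helper74.CKF.HYB
import Pool.Agent.Lib_helper74.CKF.MAJ
import Pool.Agent.Lib_helper74.CKF.HC

set_option autoImplicit false

namespace Pool.Agent.CK

theorem ext_Pr_sum {Z Q A : Type} [Fintype Z] [DecidableEq Z] [Fintype Q] [DecidableEq Q]
    (μ : Z → Q → ℝ) (ρ : List (Z × Q)) (s : Finset A) (G : A → (Z → Q) → ℝ) :
    Pr μ ρ (fun T => ∑ a ∈ s, G a T) = ∑ a ∈ s, Pr μ ρ (G a) := by
  unfold Pr
  rw [Finset.sum_comm]
  apply Finset.sum_congr rfl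
  intro T _
  rw [Finset.mul_sum]

theorem ext_ind_nonneg (b : Bool) : 0 ≤ ind b := by
  unfold ind; split_ifs <;> norm_num

theorem ext_lift {X Z Q ι : Type} [DecidableEq Z] (pos : List Bool → Option (Z × ι))
    (rd : Q → ι → Bool) (O : Lang) (Fam : Set (X → DT Bool)) (B : ℕ) :
    ∀ l : List (Q → Bool),
      (∀ f ∈ l, f ∈ {f : Q → Bool | ∃ t : Test X Z Q, TestOK B Fam t ∧ f = t.val pos rd O}) →
      ∃ l' : List (Test X Z Q), l'.length = l.length ∧ (∀ t ∈ l', TestOK B Fam t) ∧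
        ∀ q, l.countP (fun f => f q) = l'.countP (fun t => t.val pos rd O q) := by
  intro l
  induction l with
  | nil => intro _; exact ⟨[], rfl, fun t ht => by simp at ht, fun q => rfl⟩
  | cons f l ih =>
    intro h
    obtain ⟨t, ht, hf⟩ := h f (List.mem_cons_self ..)
    obtain ⟨l', h1, h2, h3⟩ := ih fun g hg => h g (List.mem_cons_of_mem _ hg)
    refine ⟨t :: l', by simp [h1], ?_, ?_⟩
    · intro t' ht'
      rcases List.mem_cons.1 ht' with rfl | h'
      · exact ht
      · exact h2 t' h'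
    · intro q
      rw [List.countP_cons, List.countP_cons, h3 q, hf]

theorem ext_maj (O : Lang) (l : List (DT Bool)) (b : Bool)
    (h : l.length < 2 * l.countP (fun t => t.eval O == b)) : (DT.maj l).eval O = b := by
  rw [DT.eval_maj]
  cases b with
  | true =>
    have e : (fun t : DT Bool => t.eval O == true) = fun t => t.eval O := by
      funext t; cases t.eval O <;> rfl
    rw [e] at h
    simpa using h
  | false =>
    have e : l.countP (fun t => t.eval O) + l.countP (fun t => t.eval O == false) = l.length := by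
      have h1 := List.length_eq_countP_add_countP (fun t : DT Bool => t.eval O) (l := l)
      rw [h1]
      congr 1
      apply List.countP_congr
      intro t _
      cases t.eval O <;> simp
    simp only [decide_eq_false_iff_not, not_lt]
    omega

theorem ext_lemma {X Z Q ι : Type} [Fintype X] [Fintype Z] [DecidableEq Z] [Fintype Q]
    [DecidableEq Q] (pos : List Bool → Option (Z × ι)) (rd : Q → ι → Bool) (O : Lang)
    (v : X → Bool) (κ : Z → Bool) (c : Q → Bool) (Fam : Set (X → DT Bool)) (B : ℕ) (hB : 1 ≤ B)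
    (hF : Small B Fam) (hX : Fintype.card X ≤ 2 ^ B) (hQ : Fintype.card Q ≤ 2 ^ B) :
    (∃ T : Z → Q, (∀ z, c (T z) = κ z) ∧ ∀ A ∈ Fam, ∃ x, (A x).eval (patch pos rd O T) ≠ v x) ∨
    (∃ A ∈ Fam, ∃ ρ : List (Z × Q), ρ.length ≤ 31 * (B + 1) * B ∧ ∃ rs : List (List Q),
      rs.length = 2 * B + 1 ∧ (∀ r ∈ rs, r.length = B) ∧
      ∀ x, (DT.maj (rs.map fun r => sim pos rd (A x) ρ r)).eval O = v x) ∨
    (∃ l : List (Test X Z Q), l.length ≤ 4 * (32 * B) ^ 2 * (2 * B + 1) ∧
      (∀ t ∈ l, TestOK B Fam t) ∧ ∃ θ ≤ l.length + 1,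
      ∀ q, c q = decide (θ ≤ l.countP fun t => t.val pos rd O q)) := by
  classical
  rcases hardcore c {f : Q → Bool | ∃ t : Test X Z Q, TestOK B Fam t ∧ f = t.val pos rd O}
    (32 * B) B (by omega) hQ with ⟨ν, hν, hc, hD⟩ | ⟨l, hl, hlD, θ, hθ, hcq⟩
  · by_cases hT : ∃ T : Z → Q, (∀ z, c (T z) = κ z) ∧
        ∀ A ∈ Fam, ∃ x, (A x).eval (patch pos rd O T) ≠ v x
    · exact Or.inl hT
    right; left
    push Not at hT
    set μ : Z → Q → ℝ := fun z => ν (κ z) with hμdef
    have hμ : IsPD μ := fun z => hν (κ z)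
    let E : (X → DT Bool) → (Z → Q) → Bool := fun A T =>
      decide (∀ x, (A x).eval (patch pos rd O T) = v x)
    obtain ⟨hfin, hcard, hdep⟩ := hF
    have hcard' : hfin.toFinset.card ≤ 2 ^ B := by
      rwa [← Set.ncard_eq_toFinset_card Fam hfin]
    have h1 : 1 ≤ ∑ A ∈ hfin.toFinset, Pr μ [] (fun T => ind (E A T)) := by
      by_contra hlt
      push Not at hlt
      have h2 : 0 < Pr μ [] (fun T => 1 + (-1) * ∑ A ∈ hfin.toFinset, ind (E A T)) := by
        rw [Pr_add, Pr_mul, Pr_one hμ, ext_Pr_sum]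
        linarith
      obtain ⟨T, hT1, hT2⟩ := Pr_pos hμ [] _ h2
      obtain ⟨A, hA, hAx⟩ := hT T fun z => hc (κ z) (T z) (hT1 z rfl)
      have h3 : ind (E A T) ≤ ∑ A ∈ hfin.toFinset, ind (E A T) :=
        Finset.single_le_sum (f := fun A => ind (E A T)) (fun A _ => ext_ind_nonneg _)
          (hfin.mem_toFinset.2 hA)
      have h4 : ind (E A T) = 1 := by
        have : E A T = true := decide_eq_true hAx
        rw [this]; simp [ind]
      linarith
    obtain ⟨A, hA, hPA⟩ : ∃ A ∈ Fam, (1 / 2 : ℝ) ^ B ≤ Pr μ [] (fun T => ind (E A T)) := by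
      by_contra hno
      push Not at hno
      rcases hfin.toFinset.eq_empty_or_nonempty with he | hne
      · rw [he, Finset.sum_empty] at h1; norm_num at h1
      · have h2 : ∑ A ∈ hfin.toFinset, Pr μ [] (fun T => ind (E A T)) <
            ∑ A ∈ hfin.toFinset, (1 / 2 : ℝ) ^ B :=
          Finset.sum_lt_sum_of_nonempty hne fun A hA => hno A (hfin.mem_toFinset.1 hA)
        rw [Finset.sum_const, nsmul_eq_mul] at h2
        have h3 : (hfin.toFinset.card : ℝ) * (1 / 2 : ℝ) ^ B ≤ 2 ^ B * (1 / 2 : ℝ) ^ B := by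
          apply mul_le_mul_of_nonneg_right _ (by positivity)
          exact_mod_cast hcard'
        have h4 : (2 : ℝ) ^ B * (1 / 2 : ℝ) ^ B = 1 := by rw [← mul_pow]; norm_num
        linarith
    obtain ⟨ρ, hρ, hPρ⟩ := path_lemma hμ pos rd O A v B B (hdep A hA) hPA
    have hB0 : (0 : ℝ) < B := by exact_mod_cast hB
    have hhyb : ∀ x, 15 / 16 ≤ exL (ν false) B
        (fun r => ind ((sim pos rd (A x) ρ r).eval O == v x)) := by
      intro x
      have h2 := hybrid ν hν κ pos rd O (v x) (1 / ((32 * B : ℕ) : ℝ)) (by positivity) (A x) ρ B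
        (hdep A hA x) (fun pre post hpre hpost =>
          hD (Test.val pos rd O ⟨A, x, ρ, pre, post, v x⟩)
            ⟨⟨A, x, ρ, pre, post, v x⟩, ⟨hA, hρ, hpre, hpost⟩, rfl⟩)
      have h3 := hPρ x
      have h4 : (B : ℝ) * (1 / ((32 * B : ℕ) : ℝ)) = 1 / 32 := by
        push_cast
        field_simp
      rw [h4] at h2
      have h5 : (31 / 32 : ℝ) - 1 / 32 = 15 / 16 := by norm_num
      linarith
    obtain ⟨rs, hrs1, hrs2, hrs3⟩ := maj_lemma (X := X) (ν false) (hν false) B B hX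
      (fun x r => (sim pos rd (A x) ρ r).eval O == v x) hhyb
    refine ⟨A, hA, ρ, hρ, rs, hrs1, hrs2, fun x => ?_⟩
    apply ext_maj
    rw [List.length_map, List.countP_map]
    exact hrs3 x
  · right; right
    obtain ⟨l', h1, h2, h3⟩ := ext_lift pos rd O Fam B l hlD
    refine ⟨l', by rw [h1]; exact hl, h2, θ, by rw [h1]; exact hθ, fun q => ?_⟩
    rw [hcq q, h3 q]

end Pool.Agent.CK
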