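import Pool.Agent.Lib_helper74.CKF.ZONE

set_option autoImplicit false

namespace Pool.Agent.CK

open Classical in
/-- fill in the positions with key `N` -/
noncomputable def fill1 (N : ℕ) (O : Lang) : Lang := fun w =>
  if key w = N then
    match tdec w with
    | some p => bit (leak O p.1.1 p.1.2) p.2
    | none => match sdec w with
      | some p => decide (p.2.1 = List.replicate p.1.length false ∧ p.2.2 = false)
      | none => false
  else O w

theorem fill1_ext (N : ℕ) (O : Lang) : Ext N O (fill1 N O) := by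
  intro w hw
  unfold fill1
  rw [if_neg (by omega)]

theorem fill1_spec (N : ℕ) (O O'' : Lang) (hO : Ext (N + 1) (fill1 N O) O'') :
    (∀ e z, Adeq e → alen e z = N → Nontriv O'' e → Good O'' e z) ∧
      ∀ m, 2 * m + 2 = N → Sec O'' m := by
  have hag : ∀ w : List Bool, w.length < N → O'' w = O w := by
    intro w hw
    have hk := key_le w
    rw [hO w (by omega), fill1_ext N O w (by omega)]
  refine ⟨fun e z he hz hnt => ?_, fun m hm => ?_⟩
  · refine good_leak (O := O) (N := N) he ?_ ?_ hag (fun b c => ?_) hnt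
    · rw [← hz]
      exact (ia_bound he).le.trans (two_pow_le_alen he z)
    · rw [← hz]
      exact (Nat.pow_le_pow_right (by omega) (by omega)).trans (iN_bound he z)
    · rw [hO _ (by rw [key_taddr]; omega)]
      unfold fill1
      rw [if_pos (by rw [key_taddr]; exact hz), tdec_taddr]
  · apply sec_triv
    intro x y b hx hy
    have hk : key (saddr x y b) = N := by
      rw [key_saddr _ _ _ (by rw [hx, hy]), hx, hm]
    rw [hO _ (by omega)]
    unfold fill1
    rw [if_pos hk, tdec_saddr, sdec_saddr _ _ _ (by rw [hx, hy])]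

/-- FILL -/
theorem fill (N N' : ℕ) (h : N ≤ N') (O : Lang) : ∃ O' : Lang, Ext N O O' ∧
    ∀ O'', Ext N' O' O'' →
      (∀ e z, Adeq e → N ≤ alen e z → alen e z < N' → Nontriv O'' e → Good O'' e z) ∧
      ∀ m, N ≤ 2 * m + 2 → 2 * m + 2 < N' → Sec O'' m := by
  induction N', h using Nat.le_induction with
  | base =>
    exact ⟨O, fun _ _ => rfl, fun O'' _ => ⟨fun e z _ h1 h2 => absurd h2 (by omega),
      fun m h1 h2 => absurd h2 (by omega)⟩⟩
  | succ N' hN ih =>
    obtain ⟨O1, h1, h2⟩ := ih
    refine ⟨fill1 N' O1, fun w hw => (fill1_ext N' O1 w (by omega)).trans (h1 w hw),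
      fun O'' hO => ?_⟩
    obtain ⟨a1, a2⟩ := h2 O'' fun w hw => by
      rw [hO w (by omega), fill1_ext N' O1 w hw]
    obtain ⟨b1, b2⟩ := fill1_spec N' O1 O'' hO
    refine ⟨fun e z he hz1 hz2 hnt => ?_, fun m hm1 hm2 => ?_⟩
    · rcases Nat.lt_or_ge (alen e z) N' with h | h
      · exact a1 e z he hz1 h hnt
      · exact b1 e z he (by omega) hnt
    · rcases Nat.lt_or_ge (2 * m + 2) N' with h | h
      · exact a2 m hm1 h
      · exact b2 m (by omega)

end Pool.Agent.CK
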