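import Pool.Agent.Lib_helper74.CKF.TREE

/-!
# Block INI
-/

set_option autoImplicit false

namespace Pool.Agent.CK

section ini

variable {X Y : Type} [Fintype X] [DecidableEq X] [Fintype Y] [DecidableEq Y]

/-- the oracle in which all questions about `x` are answered `false` -/
def iniO (pos : List Bool → Option (X × (Y × Bool))) (O : Lang) (T : X → Y × Bool) (x : X) :
    Lang :=
  fun w => match pos w with
    | none => O w
    | some (z, i) => if z = x then false else decide (T z = i)

omit [Fintype X] [Fintype Y] in
/-- only few values of the entry `x` are noticed by a tree -/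
theorem ini_few (pos : List Bool → Option (X × (Y × Bool))) (O : Lang) (T : X → Y × Bool) (x : X)
    (t : DT Bool) : ∃ Qs : Finset (Y × Bool), Qs.card ≤ t.depth ∧ ∀ q, q ∉ Qs →
      t.eval (patch pos (fun q i => decide (q = i)) O (Function.update T x q)) =
        t.eval (iniO pos O T x) := by
  induction t with
  | leaf b => exact ⟨∅, by simp, fun q _ => rfl⟩
  | node w n0 n1 h0 h1 =>
    obtain ⟨Q0, c0, e0⟩ := h0
    obtain ⟨Q1, c1, e1⟩ := h1
    rw [DT.depth_node]
    -- the answer does not depend on `q`
    have same : (∀ q, patch pos (fun q i => decide (q = i)) O (Function.update T x q) w =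
        iniO pos O T x w) → ∃ Qs : Finset (Y × Bool), Qs.card ≤ max n0.depth n1.depth + 1 ∧
        ∀ q, q ∉ Qs → (DT.node w n0 n1).eval (patch pos (fun q i => decide (q = i)) O
          (Function.update T x q)) = (DT.node w n0 n1).eval (iniO pos O T x) := by
      intro hs
      by_cases hw : iniO pos O T x w = true
      · refine ⟨Q1, by omega, fun q hq => ?_⟩
        rw [DT.eval_node, DT.eval_node, hs q, if_pos hw, if_pos hw, e1 q hq]
      · refine ⟨Q0, by omega, fun q hq => ?_⟩
        rw [DT.eval_node, DT.eval_node, hs q, if_neg hw, if_neg hw, e0 q hq]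
    cases hp : pos w with
    | none =>
      apply same
      intro q
      unfold patch iniO
      rw [hp]
    | some p =>
      obtain ⟨z, i⟩ := p
      by_cases hz : z = x
      · subst hz
        have hO : iniO pos O T z w = false := by
          unfold iniO
          rw [hp]
          simp
        refine ⟨insert i Q0, ?_, fun q hq => ?_⟩
        · have := Finset.card_insert_le i Q0
          omega
        · rw [Finset.mem_insert, not_or] at hq
          have hP : patch pos (fun q i => decide (q = i)) O (Function.update T z q) w = false := by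
            unfold patch
            rw [hp]
            simp [hq.1]
          rw [DT.eval_node, DT.eval_node, hP, hO, e0 q hq.2]
          simp
      · apply same
        intro q
        unfold patch iniO
        rw [hp]
        simp [hz]

/-- the uniform distribution -/
noncomputable def iniμ (X Y : Type) [Fintype Y] : X → Y × Bool → ℝ :=
  fun _ _ => 1 / (2 * (Fintype.card Y : ℝ))

omit [Fintype X] [DecidableEq X] [DecidableEq Y] in
theorem ini_pd (h : 0 < Fintype.card Y) : IsPD (iniμ X Y) := by
  intro z
  refine ⟨fun q => by unfold iniμ; positivity, ?_⟩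
  unfold iniμ
  rw [Finset.sum_const, Finset.card_univ, Fintype.card_prod, Fintype.card_bool, nsmul_eq_mul]
  have : (0 : ℝ) < Fintype.card Y := by exact_mod_cast h
  push_cast
  field_simp

omit [Fintype X] in
theorem ini_count (pos : List Bool → Option (X × (Y × Bool))) (O : Lang) (T : X → Y × Bool) (x : X)
    (t : DT Bool) (B : ℕ) (ht : t.depth ≤ B) (h2 : 2 * B < Fintype.card Y) :
    ∑ q : Y × Bool, iniμ X Y x q * ind (t.eval (patch pos (fun q i => decide (q = i)) O
      (Function.update T x q)) == (Function.update T x q x).2) ≤ 3 / 4 := by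
  obtain ⟨Qs, hc, he⟩ := ini_few pos O T x t
  set β := t.eval (iniO pos O T x) with hβ
  have hY : (0 : ℝ) < Fintype.card Y := by
    have : 0 < Fintype.card Y := by omega
    exact_mod_cast this
  -- pointwise bound
  have hpt : ∀ q : Y × Bool, ind (t.eval (patch pos (fun q i => decide (q = i)) O
      (Function.update T x q)) == (Function.update T x q x).2) ≤
      (if q.2 = β then 1 else 0) + (if q ∈ Qs then 1 else 0) := by
    intro q
    rw [Function.update_self]
    by_cases hq : q ∈ Qs
    · rw [if_pos hq]
      unfold ind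
      split_ifs <;> norm_num
    · rw [if_neg hq, he q hq, add_zero]
      unfold ind
      by_cases hb : q.2 = β
      · rw [if_pos hb]
        split_ifs <;> norm_num
      · rw [if_neg hb, if_neg fun h => hb (beq_iff_eq.1 h).symm]
  have h3 : ∑ q : Y × Bool, (if q.2 = β then (1 : ℝ) else 0) = Fintype.card Y := by
    rw [Fintype.sum_prod_type]
    simp
  have h4 : ∑ q : Y × Bool, (if q ∈ Qs then (1 : ℝ) else 0) = Qs.card := by
    rw [Finset.sum_ite_mem]
    simp
  have h5 : ∑ q : Y × Bool, ind (t.eval (patch pos (fun q i => decide (q = i)) O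
      (Function.update T x q)) == (Function.update T x q x).2) ≤ Fintype.card Y + Qs.card := by
    refine (Finset.sum_le_sum fun q _ => hpt q).trans ?_
    rw [Finset.sum_add_distrib, h3, h4]
  unfold iniμ
  rw [← Finset.mul_sum]
  have h6 : (Qs.card : ℝ) ≤ B := by exact_mod_cast hc.trans ht
  have h7 : 2 * (B : ℝ) ≤ Fintype.card Y := by exact_mod_cast h2.le
  have h8 : ∑ q : Y × Bool, ind (t.eval (patch pos (fun q i => decide (q = i)) O
      (Function.update T x q)) == (Function.update T x q x).2) ≤ 3 / 2 * Fintype.card Y := by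
    linarith
  calc _ ≤ 1 / (2 * (Fintype.card Y : ℝ)) * (3 / 2 * Fintype.card Y) :=
        mul_le_mul_of_nonneg_left h8 (by positivity)
    _ = 3 / 4 := by field_simp; norm_num

omit [DecidableEq Y] [Fintype Y] in
/-- a short memory misses some entry -/
theorem ini_miss (ρ : List (X × (Y × Bool))) (h : ρ.length < Fintype.card X) :
    ∃ x, ρ.lookup x = none := by
  by_contra hcon
  push Not at hcon
  have hsub : (Finset.univ : Finset X) ⊆ (ρ.map Prod.fst).toFinset := by
    intro x _
    by_contra hx
    apply hcon x
    rw [List.lookup_eq_none_iff]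
    intro p hp
    simp only [List.mem_toFinset, List.mem_map, not_exists, not_and] at hx
    have := hx p hp
    simpa using fun h : x = p.1 => this h.symm
  have h1 := Finset.card_le_card hsub
  have h2 := List.toFinset_card_le (ρ.map Prod.fst)
  rw [Finset.card_univ] at h1
  rw [List.length_map] at h2
  omega

/-- the adversary `A` finds all secret bits -/
def iniE (pos : List Bool → Option (X × (Y × Bool))) (O : Lang) (A : X → DT Bool)
    (T : X → Y × Bool) : Bool :=
  decide (∀ x, (A x).eval (patch pos (fun q i => decide (q = i)) O T) = (T x).2)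

theorem ini_claim (pos : List Bool → Option (X × (Y × Bool))) (O : Lang) (A : X → DT Bool) (B : ℕ)
    (hA : ∀ x, (A x).depth ≤ B) (h2 : 2 * B < Fintype.card Y) (r : ℕ) (ρ : List (X × (Y × Bool)))
    (h : ρ.length + r * (B + 1) ≤ Fintype.card X) :
    Pr (iniμ X Y) ρ (fun T => ind (iniE pos O A T)) ≤ (3 / 4) ^ r := by
  have hμ : IsPD (iniμ X Y) := ini_pd (by omega)
  induction r generalizing ρ with
  | zero =>
    rw [pow_zero, ← Pr_one hμ ρ]
    refine Pr_mono hμ ρ fun T => ?_
    unfold ind
    split_ifs
    · exact le_refl _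
    · exact zero_le_one
  | succ r ih =>
    have e : (r + 1) * (B + 1) = r * (B + 1) + (B + 1) := by ring
    obtain ⟨x, hx⟩ := ini_miss ρ (by omega)
    -- a memory that knows the entry `x`
    have hknown : ∀ (β : Bool) (ρ' : List (X × (Y × Bool))) (q : Y × Bool),
        ρ'.lookup x = some q → ρ'.length + r * (B + 1) ≤ Fintype.card X →
        Pr (iniμ X Y) ρ' (fun T => ind (iniE pos O A T && (β == (T x).2))) ≤
          (3 / 4) ^ r * Pr (iniμ X Y) ρ' (fun T => ind (β == (T x).2)) := by
      intro β ρ' q hq hlen
      rw [Pr_congr (iniμ X Y) ρ' (G := fun T => ind (iniE pos O A T && (β == q.2)))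
          (fun T hT => by rw [hT x q hq]),
        Pr_congr (iniμ X Y) ρ' (F := fun T => ind (β == (T x).2))
          (G := fun _ => ind (β == q.2)) (fun T hT => by rw [hT x q hq])]
      cases hb : (β == q.2) with
      | true =>
        simp only [Bool.and_true]
        have h1 : Pr (iniμ X Y) ρ' (fun _ => ind true) = 1 := Pr_one hμ ρ'
        rw [h1, mul_one]
        exact ih ρ' hlen
      | false =>
        simp only [Bool.and_false]
        have h1 : Pr (iniμ X Y) ρ' (fun _ => ind false) = 0 := by
          have := Pr_mul (iniμ X Y) ρ' 0 (fun _ => (1 : ℝ))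
          simpa [ind] using this
        rw [h1, mul_zero]
    have key := tree_lemma hμ pos (fun q i => decide (q = i)) O (iniE pos O A)
      (fun β T => β == (T x).2) ((3 / 4) ^ r) (ρ.length + B) (by
        intro β ρ' hρ'
        cases hl : ρ'.lookup x with
        | some q => exact hknown β ρ' q hl (by omega)
        | none =>
          rw [Pr_reveal (iniμ X Y) ρ' x hl, Pr_reveal (iniμ X Y) ρ' x hl
            (fun T => ind (β == (T x).2)), Finset.mul_sum]
          refine Finset.sum_le_sum fun q _ => ?_
          have h3 := hknown β ((x, q) :: ρ') q (by simp) (by rw [List.length_cons]; omega)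
          have h4 := mul_le_mul_of_nonneg_left h3 ((hμ x).1 q)
          linarith)
      (A x) ρ (by have := hA x; omega)
    have h5 : ∀ T : X → Y × Bool, ind (iniE pos O A T &&
        ((A x).eval (patch pos (fun q i => decide (q = i)) O T) == (T x).2)) =
        ind (iniE pos O A T) := by
      intro T
      unfold iniE
      by_cases h : ∀ x, (A x).eval (patch pos (fun q i => decide (q = i)) O T) = (T x).2
      · rw [decide_eq_true h, h x]
        simp
      · rw [decide_eq_false h]
        simp
    simp only [h5] at key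
    have h6 : Pr (iniμ X Y) ρ (fun T => ind
        ((A x).eval (patch pos (fun q i => decide (q = i)) O T) == (T x).2)) ≤ 3 / 4 := by
      rw [Pr_resample hμ ρ x hx]
      have h7 : Pr (iniμ X Y) ρ (fun _ => (3 / 4 : ℝ)) = 3 / 4 := by
        have := Pr_mul (iniμ X Y) ρ (3 / 4) (fun _ => (1 : ℝ))
        rw [Pr_one hμ ρ] at this
        simpa using this
      rw [← h7]
      exact Pr_mono hμ ρ fun T => ini_count pos O T x (A x) B (hA x) h2
    calc _ ≤ (3 / 4 : ℝ) ^ r * Pr (iniμ X Y) ρ (fun T => ind
          ((A x).eval (patch pos (fun q i => decide (q = i)) O T) == (T x).2)) := key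
      _ ≤ (3 / 4) ^ r * (3 / 4) := mul_le_mul_of_nonneg_left h6 (by positivity)
      _ = (3 / 4) ^ (r + 1) := by rw [pow_succ]

end ini

/-- INI: random secrets defeat a small class. -/
theorem ini_lemma {X Y : Type} [Fintype X] [DecidableEq X] [Fintype Y] [DecidableEq Y]
    (pos : List Bool → Option (X × (Y × Bool))) (O : Lang) (Fam : Set (X → DT Bool)) (B : ℕ)
    (hF : Small B Fam) (h1 : 3 * (B + 1) * (B + 1) ≤ Fintype.card X)
    (h2 : 2 * B < Fintype.card Y) :
    ∃ S : X → Y × Bool, ∀ A ∈ Fam, ∃ x,
      (A x).eval (patch pos (fun q i => decide (q = i)) O S) ≠ (S x).2 := by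
  obtain ⟨hfin, hcard, hdepth⟩ := hF
  have hμ : IsPD (iniμ X Y) := ini_pd (by omega)
  by_contra hcon
  push Not at hcon
  have hA : ∀ A ∈ Fam, Pr (iniμ X Y) [] (fun T => ind (iniE pos O A T)) ≤
      (3 / 4) ^ (3 * (B + 1)) := fun A hA =>
    ini_claim pos O A B (hdepth A hA) h2 (3 * (B + 1)) [] (by simpa using h1)
  have h3 : (1 : ℝ) ≤ ∑ A ∈ hfin.toFinset, Pr (iniμ X Y) [] (fun T => ind (iniE pos O A T)) := by
    rw [← pm_sum, ← Pr_one hμ ([] : List (X × (Y × Bool)))]
    refine Pr_mono hμ [] fun T => ?_
    obtain ⟨A, hA1, hA2⟩ := hcon T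
    have h4 : ind (iniE pos O A T) = 1 := by
      unfold iniE
      rw [decide_eq_true hA2]
      simp [ind]
    rw [← h4]
    refine Finset.single_le_sum (f := fun A => ind (iniE pos O A T)) ?_
      (hfin.mem_toFinset.2 hA1)
    intro A' _
    change 0 ≤ ind (iniE pos O A' T)
    unfold ind
    split_ifs
    · exact zero_le_one
    · exact le_refl _
  have h5 : ∑ A ∈ hfin.toFinset, Pr (iniμ X Y) [] (fun T => ind (iniE pos O A T)) ≤
      (2 : ℝ) ^ B * (3 / 4) ^ (3 * (B + 1)) := by
    refine (Finset.sum_le_card_nsmul _ _ _ fun A hA' => hA A (hfin.mem_toFinset.1 hA')).trans ?_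
    rw [nsmul_eq_mul]
    refine mul_le_mul_of_nonneg_right ?_ (by positivity)
    have h6 : hfin.toFinset.card ≤ 2 ^ B := by
      rw [← Set.ncard_eq_toFinset_card Fam hfin]
      exact hcard
    exact_mod_cast h6
  have h7 : (2 : ℝ) ^ B * (3 / 4) ^ (3 * (B + 1)) < 1 := by
    rw [pow_mul, pow_succ]
    have h8 : ((3 / 4 : ℝ) ^ 3) ^ B ≤ (1 / 2) ^ B :=
      pow_le_pow_left₀ (by norm_num) (by norm_num) B
    have h9 : (2 : ℝ) ^ B * (1 / 2) ^ B = 1 := by
      rw [← mul_pow]; norm_num
    have h10 : (0 : ℝ) < 2 ^ B := by positivity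
    have h11 : (2 : ℝ) ^ B * ((3 / 4 : ℝ) ^ 3) ^ B ≤ 1 := by
      rw [← h9]
      exact mul_le_mul_of_nonneg_left h8 h10.le
    rw [← mul_assoc]
    norm_num at h11 ⊢
    linarith
  linarith

end Pool.Agent.CK
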