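import Pool.Agent.Lib_helper74.CKF.FILL

set_option autoImplicit false

namespace Pool.Agent.CK

theorem Ext.trans {N N' : ℕ} {O O' O'' : Lang} (h : Ext N O O') (h' : Ext N' O' O'')
    (hN : N ≤ N') : Ext N O O'' := fun w hw => (h' w (hw.trans_le hN)).trans (h w hw)

theorem Ext.refl (N : ℕ) (O : Lang) : Ext N O O := fun _ _ => rfl

/-- one stage of the construction -/
theorem stage (k : ℕ) (s : ℕ × Lang) : ∃ s' : ℕ × Lang, s.1 < s'.1 ∧ Ext s.1 s.2 s'.2 ∧
    ∃ n, ∀ O'', Ext s'.1 s'.2 O'' →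
      (∀ e z, Adeq e → s.1 ≤ alen e z → alen e z < s'.1 → Nontriv O'' e →
        Correct O'' e n → Good O'' e z) ∧
      (∀ m, s.1 ≤ 2 * m + 2 → 2 * m + 2 < s'.1 → Sec O'' m) ∧ Diag O'' k n := by
  obtain ⟨n0, hz⟩ := zone k
  set n := max (s.1 + 2) n0 with hn
  have hn1 : s.1 + 2 ≤ n := le_max_left _ _
  have hn2 : n0 ≤ n := le_max_right _ _
  obtain ⟨O1, h1, h1'⟩ := fill s.1 n (by omega) s.2
  obtain ⟨O2, h2, h2'⟩ := hz n hn2 O1
  have hnn : n ≤ n ^ (k + 2) := Nat.le_self_pow (by omega) n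
  refine ⟨(n ^ (k + 2), O2), by simp only; omega, h1.trans h2 (by omega), n, fun O'' hO => ?_⟩
  simp only at hO
  have h3 : Ext n O1 O'' := h2.trans hO hnn
  obtain ⟨a1, a2⟩ := h1' O'' h3
  obtain ⟨b1, b2, b3⟩ := h2' O'' hO
  refine ⟨fun e z he hz1 hz2 hnt hc => ?_, fun m hm1 hm2 => ?_, b3⟩
  · rcases lt_or_ge (alen e z) n with h | h
    · exact a1 e z he hz1 h hnt
    · exact b1 e z he h hz2 hnt fun _ => hc
  · rcases lt_or_ge (2 * m + 2) n with h | h
    · exact a2 m hm1 h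
    · exact b2 m h hm2

/-- LIM -/
theorem limit : ∃ O : Lang,
    (∀ e z, Adeq e → Nontriv O e → (∀ n, Correct O e n) → Good O e z) ∧
    (∀ m, Sec O m) ∧ ∀ k, ∃ k' ≥ k, ∃ n, Diag O k' n := by
  choose nx h1 h2 h3 using stage
  let s : ℕ → ℕ × Lang := fun k => Nat.rec (0, fun _ => false) (fun k s => nx k s) k
  have hs : ∀ k, s (k + 1) = nx k (s k) := fun k => rfl
  have hlt : ∀ k, (s k).1 < (s (k + 1)).1 := fun k => by rw [hs]; exact h1 k (s k)
  have hmono : StrictMono fun k => (s k).1 := strictMono_nat_of_lt_succ hlt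
  have hge : ∀ k, k ≤ (s k).1 := fun k => hmono.id_le k
  have hext : ∀ k j, Ext (s k).1 (s k).2 (s (k + j)).2 := by
    intro k j
    induction j with
    | zero => exact Ext.refl _ _
    | succ j ih =>
      have h4 : Ext (s (k + j)).1 (s (k + j)).2 (s (k + j + 1)).2 := by
        rw [hs]; exact h2 _ _
      exact ih.trans h4 (hmono.monotone (by omega))
  let O : Lang := fun w => (s (key w + 1)).2 w
  have hO : ∀ k, Ext (s k).1 (s k).2 O := by
    intro k w hw
    have hkw : key w < (s (key w + 1)).1 := lt_of_lt_of_le (Nat.lt_succ_self _) (hge _)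
    change (s (key w + 1)).2 w = (s k).2 w
    rcases le_total k (key w + 1) with h | h
    · obtain ⟨j, hj⟩ := Nat.exists_eq_add_of_le h
      rw [hj]; exact hext k j w hw
    · obtain ⟨j, hj⟩ := Nat.exists_eq_add_of_le h
      rw [hj]; exact (hext (key w + 1) j w hkw).symm
  have hfind : ∀ x : ℕ, ∃ k, (s k).1 ≤ x ∧ x < (s (k + 1)).1 := by
    intro x
    have hex : ∃ k, x < (s k).1 := ⟨x + 1, lt_of_lt_of_le (Nat.lt_succ_self _) (hge _)⟩
    classical
    have hpos : Nat.find hex ≠ 0 := by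
      intro h0
      have := Nat.find_spec hex
      rw [h0] at this
      exact absurd this (Nat.not_lt_zero _)
    obtain ⟨k, hk⟩ := Nat.exists_eq_succ_of_ne_zero hpos
    refine ⟨k, ?_, ?_⟩
    · have := Nat.find_min hex (m := k) (by omega)
      omega
    · have := Nat.find_spec hex
      rwa [hk] at this
  refine ⟨O, fun e z he hnt hc => ?_, fun m => ?_, fun k => ?_⟩
  · obtain ⟨k, hk1, hk2⟩ := hfind (alen e z)
    obtain ⟨n, hn⟩ := h3 k (s k)
    exact (hn O (hO (k + 1))).1 e z he hk1 hk2 hnt (hc n)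
  · obtain ⟨k, hk1, hk2⟩ := hfind (2 * m + 2)
    obtain ⟨n, hn⟩ := h3 k (s k)
    exact (hn O (hO (k + 1))).2.1 m hk1 hk2
  · obtain ⟨n, hn⟩ := h3 k (s k)
    exact ⟨k, le_rfl, n, (hn O (hO (k + 1))).2.2⟩

end Pool.Agent.CK
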