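import Pool.Agent.Lib_helper74.CKF.Basic

set_option autoImplicit false

namespace Pool.Agent.CK

theorem num1_ex_le (i : ℕ) : ex i ≤ i := Nat.unpair_right_le _

/-- NUM1 -/
theorem num_dep {n t e : ℕ} {z : List Bool} (he : Adeq e) (hn : 2 ≤ n)
    (h1 : 2 ^ 2 ^ t ≤ z.length + 2) (h2 : z.length + 2 < 2 ^ 2 ^ (t + 1))
    (h3 : n ≤ (z.length + 2) ^ (iN e + 3)) :
    (z.length + 2) ^ (iN e + 2) < 2 ^ (2 ^ t * e ^ 2) ∧
    (qb n e + 2) ^ (iC e + 2) < 2 ^ (2 ^ t * e ^ 2) ∧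
    2 * n + 2 < 2 ^ (2 ^ t * e ^ 2) ∧ 2 ^ (2 ^ t * e ^ 2) ≤ alen e z := by
  set a := z.length + 2 with ha
  set l := iN e with hl
  set i := iC e with hi
  set j := iM e with hj
  have hE := he.1
  rw [← hl, ← hi, ← hj] at hE
  have ht : 1 ≤ 2 ^ t := Nat.one_le_two_pow
  have hij : 4 ≤ (j + 2) * (i + 2) := by nlinarith
  have hsq : (2 * l + 7) * ((j + 2) * (i + 2)) + 2 ≤ e ^ 2 := by
    have h4 : ((2 * l + 3) * (i + 3) * (j + 3)) ^ 2 ≤ e ^ 2 := Nat.pow_le_pow_left hE 2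
    refine le_trans ?_ h4
    have h5 : 2 * l + 7 ≤ (2 * l + 3) ^ 2 := by nlinarith
    have h6 : (j + 2) * (i + 2) + 2 ≤ ((i + 3) * (j + 3)) ^ 2 := by nlinarith
    calc (2 * l + 7) * ((j + 2) * (i + 2)) + 2
        ≤ (2 * l + 7) * ((j + 2) * (i + 2) + 2) := by nlinarith
      _ ≤ (2 * l + 3) ^ 2 * ((i + 3) * (j + 3)) ^ 2 := Nat.mul_le_mul h5 h6
      _ = ((2 * l + 3) * (i + 3) * (j + 3)) ^ 2 := by ring
  have ha2 : a ≤ 2 ^ (2 ^ t * 2) := by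
    have : 2 ^ (t + 1) = 2 ^ t * 2 := pow_succ 2 t
    rw [this] at h2; exact h2.le
  have hpos : 0 < 2 ^ t := by positivity
  have hbig : ∀ m : ℕ, m + 1 ≤ e ^ 2 → 2 ^ (2 ^ t * m) < 2 ^ (2 ^ t * e ^ 2) := by
    intro m hm
    apply Nat.pow_lt_pow_right (by norm_num)
    exact Nat.mul_lt_mul_of_pos_left (by omega) hpos
  have hmul : (2 * l + 7) * 4 ≤ (2 * l + 7) * ((j + 2) * (i + 2)) := Nat.mul_le_mul_left _ hij
  have hn' : n ≤ 2 ^ (2 ^ t * (2 * l + 6)) := by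
    calc n ≤ a ^ (l + 3) := h3
      _ ≤ (2 ^ (2 ^ t * 2)) ^ (l + 3) := Nat.pow_le_pow_left ha2 _
      _ = 2 ^ (2 ^ t * (2 * l + 6)) := by rw [← pow_mul]; congr 1; ring
  have hn2 : n + 2 ≤ 2 ^ (2 ^ t * (2 * l + 7)) := by
    have e1 : 2 ^ (2 ^ t * (2 * l + 7)) = 2 ^ (2 ^ t * (2 * l + 6)) * 2 ^ (2 ^ t) := by
      rw [← pow_add]
      congr 1
    have e2 : 2 ≤ 2 ^ 2 ^ t := by
      calc 2 = 2 ^ 1 := by norm_num
        _ ≤ 2 ^ 2 ^ t := Nat.pow_le_pow_right (by norm_num) ht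
    rw [e1]
    have e3 : 2 ≤ 2 ^ (2 ^ t * (2 * l + 6)) := le_trans hn hn'
    calc n + 2 ≤ 2 ^ (2 ^ t * (2 * l + 6)) + 2 ^ (2 ^ t * (2 * l + 6)) := by omega
      _ = 2 ^ (2 ^ t * (2 * l + 6)) * 2 := by ring
      _ ≤ _ := Nat.mul_le_mul_left _ e2
  refine ⟨?_, ?_, ?_, ?_⟩
  · calc a ^ (l + 2) ≤ (2 ^ (2 ^ t * 2)) ^ (l + 2) := Nat.pow_le_pow_left ha2 _
      _ = 2 ^ (2 ^ t * (2 * l + 4)) := by rw [← pow_mul]; congr 1; ring
      _ < 2 ^ (2 ^ t * e ^ 2) := hbig _ (by omega)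
  · have hqb : qb n e + 2 ≤ (n + 2) ^ (j + 2) := by
      unfold qb
      have h7 : (n + 2) ^ ex (iM e) ≤ (n + 2) ^ j :=
        Nat.pow_le_pow_right (by omega) (num1_ex_le _)
      have h9 : 1 ≤ (n + 2) ^ j := Nat.one_le_pow _ _ (by omega)
      calc n + (n + 2) ^ ex (iM e) + 2 ≤ (n + 2) * 1 + (n + 2) ^ j := by omega
        _ ≤ (n + 2) * (n + 2) ^ j + (n + 2) * (n + 2) ^ j :=
          Nat.add_le_add (Nat.mul_le_mul_left _ h9) (Nat.le_mul_of_pos_left _ (by omega))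
        _ = 2 * ((n + 2) * (n + 2) ^ j) := by ring
        _ ≤ (n + 2) * ((n + 2) * (n + 2) ^ j) := Nat.mul_le_mul_right _ (by omega)
        _ = (n + 2) ^ (j + 2) := by ring
    calc (qb n e + 2) ^ (i + 2) ≤ ((n + 2) ^ (j + 2)) ^ (i + 2) := Nat.pow_le_pow_left hqb _
      _ = (n + 2) ^ ((j + 2) * (i + 2)) := by rw [← pow_mul]
      _ ≤ (2 ^ (2 ^ t * (2 * l + 7))) ^ ((j + 2) * (i + 2)) := Nat.pow_le_pow_left hn2 _
      _ = 2 ^ (2 ^ t * ((2 * l + 7) * ((j + 2) * (i + 2)))) := by rw [← pow_mul]; congr 1; ring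
      _ < 2 ^ (2 ^ t * e ^ 2) := hbig _ (by omega)
  · calc 2 * n + 2 ≤ 2 * (n + 2) := by omega
      _ ≤ 2 * 2 ^ (2 ^ t * (2 * l + 7)) := Nat.mul_le_mul_left 2 hn2
      _ = 2 ^ (2 ^ t * (2 * l + 7) + 1) := by rw [pow_succ]; ring
      _ ≤ 2 ^ (2 ^ t * (2 * l + 8)) := by
        apply Nat.pow_le_pow_right (by norm_num)
        calc 2 ^ t * (2 * l + 7) + 1 ≤ 2 ^ t * (2 * l + 7) + 2 ^ t := by omega
          _ = 2 ^ t * (2 * l + 8) := by ring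
      _ < 2 ^ (2 ^ t * e ^ 2) := by
        apply hbig
        omega
  · unfold alen
    rw [pow_mul]
    exact Nat.pow_le_pow_left h1 _

end Pool.Agent.CK
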