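import Pool.Agent.Lib_helper74.CKF.STEP
import Pool.Agent.Lib_helper74.CKF.CARD
import Pool.Agent.Lib_helper74.CKF.INI
import Pool.Agent.Lib_helper74.CKF.MACH
import Pool.Agent.Lib_helper74.CKF.ADDR
import Pool.Agent.Lib_helper74.CKF.NUM1

set_option autoImplicit false

namespace Pool.Agent.CK

instance instFintypeX (n : ℕ) : Fintype (X n) := inferInstanceAs (Fintype (List.Vector Bool n))

theorem card_X (n : ℕ) : Fintype.card (X n) = 2 ^ n := by
  have h : Fintype.card (List.Vector Bool n) = Fintype.card Bool ^ n := card_vector n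
  rw [Fintype.card_bool] at h
  exact h

theorem multi_finite_le (N : ℕ) : Finite {q : List Bool // q.length ≤ N} :=
  (List.finite_length_le Bool N).to_subtype

theorem multi_card_le (N : ℕ) [Fintype {q : List Bool // q.length ≤ N}] :
    Fintype.card {q : List Bool // q.length ≤ N} ≤ 2 ^ (N + 1) := by
  rw [← card_X]
  refine Fintype.card_le_of_injective
    (fun q => ⟨q.1 ++ true :: List.replicate (N - q.1.length) false, by
      have := q.2
      simp only [List.length_append, List.length_cons, List.length_replicate]; omega⟩) ?_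
  intro p q h
  simp only [Subtype.mk.injEq] at h
  have hp := p.2
  have hq := q.2
  ext1
  -- compare the last `true`
  have key : ∀ (u v : List Bool) (a b : ℕ), u.length + a = v.length + b → u.length ≤ v.length →
      u ++ true :: List.replicate a false = v ++ true :: List.replicate b false → u = v := by
    intro u v a b hab hle h
    rcases Nat.lt_or_ge u.length v.length with hlt | hge
    · exfalso
      have h1 : (u ++ true :: List.replicate a false)[v.length]? =
          (v ++ true :: List.replicate b false)[v.length]? := by rw [h]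
      rw [List.getElem?_append_right (by omega), List.getElem?_append_right (by omega)] at h1
      obtain ⟨m, hm⟩ := Nat.exists_eq_add_of_lt hlt
      have e1 : v.length - u.length = m + 1 := by omega
      rw [e1, Nat.sub_self] at h1
      simp only [List.getElem?_cons_succ, List.getElem?_cons_zero] at h1
      rw [List.getElem?_replicate] at h1
      split_ifs at h1
      simp at h1
    · have h2 : u.length = v.length := le_antisymm hle hge
      exact (List.append_inj h h2).1
  rcases le_total p.1.length q.1.length with hle | hle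
  · exact key p.1 q.1 _ _ (by omega) hle h
  · exact (key q.1 p.1 _ _ (by omega) hle h.symm).symm

/-- the reading function of the tables -/
def grd (n e : ℕ) (q : QS n e) (i : ℕ × Bool) : Bool := bit q.1 i

/-- the order in which the groups are processed -/
def gk (g : ℕ × ℕ) : ℕ := 2 ^ g.1 * g.2 ^ 2

theorem gpos_eq_some {k n t e : ℕ} {w : List Bool} {p : ZS k n t e × (ℕ × Bool)}
    (h : gpos k n t e w = some p) : w = taddr e p.1.1 p.2.1 p.2.2 := by
  unfold gpos at h
  split at h
  · rename_i p' hp'
    split_ifs at h with h1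
    simp only [Option.some.injEq] at h
    have h2 := tdec_eq hp'
    rw [← h, h2, h1.1]
  · simp at h

theorem gpos_taddr {k n t e : ℕ} {z : List Bool} (hz : z ∈ ZS k n t e) (b : ℕ) (c : Bool) :
    gpos k n t e (taddr e z b c) = some (⟨z, hz⟩, (b, c)) := by
  unfold gpos
  rw [tdec_taddr]
  simp only
  rw [dif_pos ⟨rfl, hz⟩]

theorem spos_eq_some {n : ℕ} {w : List Bool} {p : X n × (X n × Bool)} (h : spos n w = some p) :
    w = saddr p.1.1 p.2.1.1 p.2.2 := by
  unfold spos at h
  split at h
  · rename_i p' hp'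
    split_ifs at h with h1
    simp only [Option.some.injEq] at h
    have h2 := (sdec_eq hp').2
    rw [← h]
    exact h2
  · simp at h

theorem gpos_of_spos {k n t e m : ℕ} {w : List Bool} {p : X m × (X m × Bool)}
    (h : spos m w = some p) : gpos k n t e w = none := by
  rw [spos_eq_some h]
  unfold gpos
  rw [tdec_saddr]

theorem class_unique {a t t' : ℕ} (h1 : 2 ^ 2 ^ t ≤ a) (h2 : a < 2 ^ 2 ^ (t + 1))
    (h1' : 2 ^ 2 ^ t' ≤ a) (h2' : a < 2 ^ 2 ^ (t' + 1)) : t = t' := by
  by_contra hne
  rcases Nat.lt_or_gt_of_ne hne with h | h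
  · have : 2 ^ 2 ^ (t + 1) ≤ 2 ^ 2 ^ t' :=
      Nat.pow_le_pow_right (by norm_num) (Nat.pow_le_pow_right (by norm_num) h)
    omega
  · have : 2 ^ 2 ^ (t' + 1) ≤ 2 ^ 2 ^ t :=
      Nat.pow_le_pow_right (by norm_num) (Nat.pow_le_pow_right (by norm_num) h)
    omega

theorem taddr_length (e : ℕ) (z : List Bool) (b : ℕ) (c : Bool) :
    alen e z ≤ (taddr e z b c).length := by
  have := key_le (taddr e z b c)
  rwa [key_taddr] at this

/-- locality of the hypothesis of a group -/
theorem corr_congr {n e L : ℕ} {O O' : Lang} (hL : (qb n e + 2) ^ (iC e + 2) < L)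
    (h : ∀ w : List Bool, w.length < L → O' w = O w) (x : X n) :
    PL (iM e) (join O' (NL (iC e) O')) x.1 = PL (iM e) (join O (NL (iC e) O)) x.1 := by
  rw [← eval_PT, ← eval_PT]
  have hx := x.2
  have hq : qb n e < L := by
    calc qb n e < qb n e + 2 := by omega
      _ = (qb n e + 2) ^ 1 := (pow_one _).symm
      _ ≤ (qb n e + 2) ^ (iC e + 2) := Nat.pow_le_pow_right (by omega) (by omega)
      _ < L := hL
  have hallQ := allQ_PT (iM e) x.1
  rw [hx] at hallQ
  refine DT.eval_join_congr _ _ hallQ (fun w hw => ?_) (fun q hq' => ?_)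
  · apply h
    simp only [List.length_cons] at hw
    unfold qb at hq
    omega
  · apply NL_congr
    intro w hw
    apply h
    simp only [List.length_cons] at hq'
    have h2 : q.length ≤ qb n e := by unfold qb; omega
    have h3 : (q.length + 2) ^ (iC e + 2) ≤ (qb n e + 2) ^ (iC e + 2) :=
      Nat.pow_le_pow_left (by omega) _
    omega

/-- locality of correct entries -/
theorem good_congr {n e L : ℕ} {z : List Bool} {O O' : Lang}
    (hL : (qb n e + 2) ^ (iC e + 2) < L) (hz : (z.length + 2) ^ (iN e + 2) < L)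
    (h : ∀ w : List Bool, w.length < L → O' w = O w) (q : List Bool) (hq : q.length ≤ qb n e)
    (hN : NL (iC e) O q = NL (iN e) O z) : NL (iC e) O' q = NL (iN e) O' z := by
  rw [NL_congr (iC e) O' O q, NL_congr (iN e) O' O z, hN]
  · intro w hw
    exact h w (by omega)
  · intro w hw
    have h3 : (q.length + 2) ^ (iC e + 2) ≤ (qb n e + 2) ^ (iC e + 2) :=
      Nat.pow_le_pow_left (by omega) _
    exact h w (by omega)

theorem ZS_finite {k n t e : ℕ} (he : Adeq e) : Finite (ZS k n t e) := by
  have h : (ZS k n t e) ⊆ {z : List Bool | z.length ≤ n ^ (k + 2)} := by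
    intro z hz
    have h1 := hz.2.2.2
    have h2 : z.length + 2 ≤ alen e z := by
      unfold alen
      have he1 : 0 < e := by
        have := he.1
        have h3 : 0 < (2 * iN e + 3) * (iC e + 3) * (iM e + 3) := by positivity
        omega
      exact Nat.le_self_pow (by positivity) _
    simp only [Set.mem_ofPred_eq]
    omega
  exact ((List.finite_length_le Bool _).subset h).to_subtype

theorem ZS_card {k n t e : ℕ} (he : Adeq e) [Fintype (ZS k n t e)] :
    Fintype.card (ZS k n t e) ≤ 2 ^ (n ^ (k + 2) + 1) := by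
  haveI := multi_finite_le (n ^ (k + 2))
  letI : Fintype {q : List Bool // q.length ≤ n ^ (k + 2)} := Fintype.ofFinite _
  refine le_trans ?_ (multi_card_le (n ^ (k + 2)))
  refine Fintype.card_le_of_injective (fun z => ⟨z.1, ?_⟩) ?_
  · have h1 := z.2.2.2.2
    have h2 : z.1.length + 2 ≤ alen e z.1 := by
      unfold alen
      have he1 : 0 < e := by
        have := he.1
        have h3 : 0 < (2 * iN e + 3) * (iC e + 3) * (iM e + 3) := by positivity
        omega
      exact Nat.le_self_pow (by positivity) _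
    omega
  · intro a b h
    ext1
    simpa using h

theorem iM_le (e : ℕ) : iM e ≤ e := (Nat.unpair_left_le _).trans (Nat.unpair_right_le _)

theorem ex_le (i : ℕ) : ex i ≤ i := Nat.unpair_right_le _

/-- MULTI -/
theorem multi (k n : ℕ) (hn : 2 ≤ n) (Ob : Lang) (B : ℕ) (hB : 2 ≤ B)
    (hB1 : n ^ (k + 2) + 1 ≤ B)
    (hB2 : n + (n + 2) ^ k + 1 ≤ B) (G : Finset (ℕ × ℕ)) (hG : ∀ g ∈ G, g.2 ≤ k ∧ Adeq g.2)
    (h1 : 3 * (B ^ CC ^ G.card + 1) * (B ^ CC ^ G.card + 1) ≤ 2 ^ n)
    (h2 : 2 * B ^ CC ^ G.card < 2 ^ n)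
    (Fam : Set (X n → DT Bool)) (hF : Small B Fam) :
    ∃ (S : X n → X n × Bool) (O' : Lang),
      (∀ w, spos n w = none → (∀ g ∈ G, gpos k n g.1 g.2 w = none) → O' w = Ob w) ∧
      (∀ w p, spos n w = some p → O' w = decide (S p.1 = p.2)) ∧
      (∀ g ∈ G, (∀ x : X n, PL (iM g.2) (join O' (NL (iC g.2) O')) x.1 = (S x).2) →
        ∀ z ∈ ZS k n g.1 g.2, GoodP O' n g.2 z) ∧
      ∀ A ∈ Fam, ∃ x, (A x).eval O' ≠ (S x).2 := by
  induction hm : G.card generalizing G B Fam with
  | zero =>
    have hG0 : G = ∅ := Finset.card_eq_zero.1 hm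
    rw [hm, pow_zero, pow_one] at h1 h2
    obtain ⟨S, hS⟩ := ini_lemma (spos n) Ob Fam B hF (by rw [card_X]; exact h1)
      (by rw [card_X]; exact h2)
    refine ⟨S, patch (spos n) (fun q i => decide (q = i)) Ob S, fun w hw _ => ?_,
      fun w p hp => ?_, fun g hg => ?_, hS⟩
    · simp only [patch, hw]
    · simp only [patch, hp]
    · rw [hG0] at hg; simp at hg
  | succ m ih =>
    have hne : G.Nonempty := by
      rw [← Finset.card_pos, hm]; omega
    obtain ⟨g, hgG, hgmax⟩ := G.exists_max_image gk hne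
    obtain ⟨hgk, hga⟩ := hG g hgG
    have hcard : (G.erase g).card = m := by
      rw [Finset.card_erase_of_mem hgG, hm]; omega
    have hBC : B ≤ B ^ CC := Nat.le_self_pow (by decide) B
    have hpow : ∀ j, (B ^ CC) ^ CC ^ j = B ^ CC ^ (j + 1) := fun j => by
      rw [← pow_mul, pow_succ']
    haveI := ZS_finite (k := k) (n := n) (t := g.1) hga
    letI : Fintype (ZS k n g.1 g.2) := Fintype.ofFinite _
    haveI := multi_finite_le (qb n g.2)
    letI : Fintype (QS n g.2) := Fintype.ofFinite _
    have hnB : n ≤ B := by omega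
    have hexk : ex (iM g.2) ≤ k := (ex_le _).trans ((iM_le _).trans hgk)
    have hpk : (n + 2) ^ ex (iM g.2) ≤ (n + 2) ^ k := Nat.pow_le_pow_right (by omega) hexk
    have hX : Fintype.card (X n) ≤ 2 ^ B := by
      rw [card_X]; exact Nat.pow_le_pow_right (by norm_num) hnB
    have hZ : Fintype.card (ZS k n g.1 g.2) ≤ 2 ^ B :=
      (ZS_card hga).trans (Nat.pow_le_pow_right (by norm_num) hB1)
    have hQ : Fintype.card (QS n g.2) ≤ 2 ^ B := by
      refine (multi_card_le _).trans (Nat.pow_le_pow_right (by norm_num) ?_)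
      unfold qb; omega
    have hM : ∀ x : X n, (PT (iM g.2) x.1).depth ≤ B := by
      intro x
      refine (depth_PT _ _).trans ?_
      rw [x.2]; omega
    have hsm := small_next (gpos k n g.1 g.2) (grd n g.2) (qf n g.2)
      (fun x : X n => PT (iM g.2) x.1) Fam B hB hF hX hZ hQ hM
    obtain ⟨S, O1, a1, a2, a3, a4⟩ := ih (B ^ CC) (hB.trans hBC) (hB1.trans hBC)
      (hB2.trans hBC) (G.erase g) (fun g' hg' => hG g' (Finset.mem_of_mem_erase hg'))
      (by rw [hcard, hpow, ← hm]; exact h1) (by rw [hcard, hpow, ← hm]; exact h2) _ hsm hcard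
    -- the table of the group `g`
    obtain ⟨T, hT1, hT2⟩ : ∃ T : ZS k n g.1 g.2 → QS n g.2,
        ((∀ x : X n, PL (iM g.2) (join O1 (NL (iC g.2) O1)) x.1 = (S x).2) →
          ∀ z, NL (iC g.2) O1 (T z).1 = NL (iN g.2) O1 z.1) ∧
        ∀ A ∈ Fam, ∃ x, (A x).eval (patch (gpos k n g.1 g.2) (grd n g.2) O1 T) ≠ (S x).2 := by
      by_cases hyp : ∀ x : X n, PL (iM g.2) (join O1 (NL (iC g.2) O1)) x.1 = (S x).2
      · obtain ⟨T, hT, hT'⟩ := step_table (gpos k n g.1 g.2) (grd n g.2) (qf n g.2)
          (fun x : X n => PT (iM g.2) x.1) O1 (fun x => (S x).2)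
          (fun z => NL (iN g.2) O1 z.1) (fun q => NL (iC g.2) O1 q.1) Fam B (by omega) hF hX hQ a4
          (fun x => by
            rw [DT.eval_tr, ← hyp x, ← eval_PT]
            have hallQ := allQ_PT (iM g.2) x.1
            rw [x.2] at hallQ
            refine DT.eval_join_congr _ _ hallQ (fun w _ => rfl) (fun q hq => ?_)
            simp only [List.length_cons] at hq
            have hq2 : q.length ≤ qb n g.2 := by unfold qb; omega
            simp only [qf, dif_pos hq2, DT.eval_leaf])
        exact ⟨T, fun _ => hT, hT'⟩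
      · exact ⟨fun _ => ⟨[], Nat.zero_le _⟩, fun h => absurd h hyp,
          step_const _ _ (qf n g.2) (fun x : X n => PT (iM g.2) x.1) O1 (fun x => (S x).2) Fam B hF
            a4 _⟩
    set O' : Lang := patch (gpos k n g.1 g.2) (grd n g.2) O1 T with hO'
    have hnone : ∀ w, gpos k n g.1 g.2 w = none → O' w = O1 w := fun w hw => by
      rw [hO']; simp only [patch, hw]
    have hagree : ∀ w : List Bool, w.length < 2 ^ gk g → O' w = O1 w := by
      intro w hw
      apply hnone
      cases hg : gpos k n g.1 g.2 w with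
      | none => rfl
      | some p =>
        exfalso
        have hz := p.1.2
        obtain ⟨-, -, -, hd⟩ := num_dep hga hn hz.1 hz.2.1 hz.2.2.1
        have hl := taddr_length g.2 p.1.1 p.2.1 p.2.2
        rw [← gpos_eq_some hg] at hl
        unfold gk at hw
        omega
    refine ⟨S, O', fun w hw1 hw2 => ?_, fun w p hp => ?_, fun g' hg' hcor z hz => ?_, hT2⟩
    · rw [hnone w (hw2 g hgG)]
      exact a1 w hw1 fun g' hg' => hw2 g' (Finset.mem_of_mem_erase hg')
    · rw [hnone w (gpos_of_spos hp)]
      exact a2 w p hp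
    · have hgg : gk g' ≤ gk g := hgmax g' hg'
      have hga' := (hG g' hg').2
      obtain ⟨d1, d2, d3, d4⟩ := num_dep hga' hn hz.1 hz.2.1 hz.2.2.1
      have hle : 2 ^ gk g' ≤ 2 ^ gk g := Nat.pow_le_pow_right (by norm_num) hgg
      have d1' : (z.length + 2) ^ (iN g'.2 + 2) < 2 ^ gk g := lt_of_lt_of_le d1 hle
      have d2' : (qb n g'.2 + 2) ^ (iC g'.2 + 2) < 2 ^ gk g := lt_of_lt_of_le d2 hle
      have hcor1 : ∀ x : X n, PL (iM g'.2) (join O1 (NL (iC g'.2) O1)) x.1 = (S x).2 := by
        intro x
        rw [← hcor x]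
        exact (corr_congr d2' hagree x).symm
      by_cases hgg' : g' = g
      · subst hgg'
        refine ⟨(T ⟨z, hz⟩).1, (T ⟨z, hz⟩).2, fun b c => ?_,
          good_congr d2' d1' hagree _ (T ⟨z, hz⟩).2 (hT1 hcor1 ⟨z, hz⟩)⟩
        rw [hO']
        simp only [patch, gpos_taddr hz b c, grd]
      · obtain ⟨q, hq1, hq2, hq3⟩ := a3 g' (Finset.mem_erase.2 ⟨hgg', hg'⟩) hcor1 z hz
        refine ⟨q, hq1, fun b c => ?_, good_congr d2' d1' hagree q hq1 hq3⟩
        rw [hnone, hq2 b c]
        cases hg : gpos k n g.1 g.2 (taddr g'.2 z b c) with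
        | none => rfl
        | some p =>
          exfalso
          have e1 := gpos_eq_some hg
          have e2 := tdec_taddr g'.2 z b c
          rw [e1, tdec_taddr] at e2
          simp only [Option.some.injEq, Prod.mk.injEq] at e2
          obtain ⟨⟨e3, e4⟩, -⟩ := e2
          have hz' := p.1.2
          rw [e4] at hz'
          have e5 := class_unique hz.1 hz.2.1 hz'.1 hz'.2.1
          exact hgg' (Prod.ext e5 e3.symm)

end Pool.Agent.CK
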