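import Pool.Agent.Lib_helper74.CKF.TREE

/-!
# Block PATH
-/

set_option autoImplicit false

namespace Pool.Agent.CK

variable {X Z Q ι : Type} [Fintype X] [Fintype Z] [DecidableEq Z] [Fintype Q] [DecidableEq Q]

theorem path_step {μ : Z → Q → ℝ} (hμ : IsPD μ) (pos : List Bool → Option (Z × ι))
    (rd : Q → ι → Bool) (O : Lang) (A : X → DT Bool) (v : X → Bool) (d : ℕ)
    (hd : ∀ x, (A x).depth ≤ d) (ρ : List (Z × Q))
    (hW : 0 < Pr μ ρ (fun T => ind (decide (∀ x, (A x).eval (patch pos rd O T) = v x))))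
    (x : X) (hx : Pr μ ρ (fun T => ind ((A x).eval (patch pos rd O T) == v x)) < 31 / 32) :
    ∃ ρ' : List (Z × Q), ρ'.length ≤ ρ.length + d ∧
      32 / 31 * Pr μ ρ (fun T => ind (decide (∀ x, (A x).eval (patch pos rd O T) = v x))) ≤
        Pr μ ρ' (fun T => ind (decide (∀ x, (A x).eval (patch pos rd O T) = v x))) := by
  by_contra hcon
  push Not at hcon
  set W := Pr μ ρ (fun T => ind (decide (∀ x, (A x).eval (patch pos rd O T) = v x))) with hWdef
  have key := tree_lemma hμ pos rd O
    (fun T => decide (∀ x, (A x).eval (patch pos rd O T) = v x))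
    (fun β _ => β == v x) (32 / 31 * W) (ρ.length + d) (by
      intro β ρ' hρ'
      cases hb : (β == v x) with
      | true =>
        simp only [Bool.and_true]
        have h1 : Pr μ ρ' (fun _ => ind true) = 1 := Pr_one hμ ρ'
        rw [h1, mul_one]
        exact (hcon ρ' hρ').le
      | false =>
        simp only [Bool.and_false]
        have h1 : Pr μ ρ' (fun _ => ind false) = 0 := by
          have := Pr_mul μ ρ' 0 (fun _ => (1 : ℝ))
          simpa [ind] using this
        rw [h1, mul_zero])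
    (A x) ρ (by have := hd x; omega)
  have h2 : ∀ T : Z → Q, ind ((decide (∀ x, (A x).eval (patch pos rd O T) = v x)) &&
      ((A x).eval (patch pos rd O T) == v x)) =
      ind (decide (∀ x, (A x).eval (patch pos rd O T) = v x)) := by
    intro T
    by_cases h : ∀ x, (A x).eval (patch pos rd O T) = v x
    · rw [decide_eq_true h, h x]
      simp
    · rw [decide_eq_false h]
      simp
  simp only [h2] at key
  rw [← hWdef] at key
  nlinarith

/-- PATH: if with probability `≥ 2^(-a)` the trees `A x` have the value `v x` for all `x`, then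
after revealing few entries each of them has this value with probability `≥ 31/32`. -/
theorem path_lemma {μ : Z → Q → ℝ} (hμ : IsPD μ) (pos : List Bool → Option (Z × ι))
    (rd : Q → ι → Bool) (O : Lang) (A : X → DT Bool) (v : X → Bool) (a d : ℕ)
    (hd : ∀ x, (A x).depth ≤ d)
    (h0 : (1 / 2 : ℝ) ^ a ≤
      Pr μ [] (fun T => ind (decide (∀ x, (A x).eval (patch pos rd O T) = v x)))) :
    ∃ ρ : List (Z × Q), ρ.length ≤ 31 * (a + 1) * d ∧
      ∀ x, 31 / 32 ≤ Pr μ ρ (fun T => ind ((A x).eval (patch pos rd O T) == v x)) := by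
  by_contra hcon
  push Not at hcon
  have hit : ∀ j : ℕ, j ≤ 31 * (a + 1) → ∃ ρ : List (Z × Q), ρ.length ≤ j * d ∧
      (32 / 31 : ℝ) ^ j * (1 / 2) ^ a ≤
        Pr μ ρ (fun T => ind (decide (∀ x, (A x).eval (patch pos rd O T) = v x))) := by
    intro j
    induction j with
    | zero => intro _; exact ⟨[], by simp, by simpa using h0⟩
    | succ j ih =>
      intro hj
      obtain ⟨ρ, h1, h2⟩ := ih (by omega)
      have h3 : ρ.length ≤ 31 * (a + 1) * d :=
        h1.trans (Nat.mul_le_mul_right d (by omega))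
      obtain ⟨x, hx⟩ := hcon ρ h3
      have hpos : (0 : ℝ) < (32 / 31 : ℝ) ^ j * (1 / 2) ^ a := by positivity
      obtain ⟨ρ', h4, h5⟩ := path_step hμ pos rd O A v d hd ρ (hpos.trans_le h2) x hx
      refine ⟨ρ', h4.trans (by rw [Nat.succ_mul]; omega), le_trans ?_ h5⟩
      rw [pow_succ]
      nlinarith
  obtain ⟨ρ, -, h2⟩ := hit (31 * (a + 1)) le_rfl
  have h3 : Pr μ ρ (fun T => ind (decide (∀ x, (A x).eval (patch pos rd O T) = v x))) ≤ 1 := by
    rw [← Pr_one hμ ρ]
    refine Pr_mono hμ ρ fun T => ?_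
    unfold ind
    split_ifs
    · exact le_refl _
    · exact zero_le_one
  have h4 : (2 : ℝ) ≤ (32 / 31 : ℝ) ^ 31 := by
    have := one_add_mul_le_pow (a := (1 / 31 : ℝ)) (by norm_num) 31
    norm_num at this ⊢
  have h5 : (2 : ℝ) ^ (a + 1) ≤ (32 / 31 : ℝ) ^ (31 * (a + 1)) := by
    rw [pow_mul]
    exact pow_le_pow_left₀ (by norm_num) h4 _
  have h6 : (2 : ℝ) ^ (a + 1) * (1 / 2) ^ a = 2 := by
    rw [pow_succ, one_div, inv_pow]
    field_simp
  have h7 : (2 : ℝ) ^ (a + 1) * (1 / 2) ^ a ≤ (32 / 31 : ℝ) ^ (31 * (a + 1)) * (1 / 2) ^ a :=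
    mul_le_mul_of_nonneg_right h5 (by positivity)
  linarith

end Pool.Agent.CK
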