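import Pool.Agent.Lib_helper74.CKF.EXT

set_option autoImplicit false

namespace Pool.Agent.CK

theorem step_thr_eval {X Z Q ι : Type} [DecidableEq Z] (pos : List Bool → Option (Z × ι))
    (rd : Q → ι → Bool) (O : Lang) (l : List (Test X Z Q)) (θ : ℕ) (q : Q) :
    (DT.thr (l.map fun t => t.tree pos rd q) θ).eval O =
      decide (θ ≤ l.countP fun t => t.val pos rd O q) := by
  rw [DT.eval_thr, List.countP_map]
  congr 2
  apply List.countP_congr
  intro t _
  simp only [Function.comp, Test.eval_tree]

theorem step_table {X Z Q ι : Type} [Fintype X] [Fintype Z] [DecidableEq Z] [Fintype Q]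
    [DecidableEq Q] (pos : List Bool → Option (Z × ι)) (rd : Q → ι → Bool)
    (qf : List Bool → Option Q) (M : X → DT Bool) (O : Lang)
    (v : X → Bool) (κ : Z → Bool) (c : Q → Bool) (Fam : Set (X → DT Bool)) (B : ℕ) (hB : 1 ≤ B)
    (hF : Small B Fam) (hX : Fintype.card X ≤ 2 ^ B) (hQ : Fintype.card Q ≤ 2 ^ B)
    (hard : ∀ A ∈ Next pos rd qf M B Fam, ∃ x, (A x).eval O ≠ v x)
    (hM : ∀ x, (DT.tr (fun w => match qf w with
      | none => DT.leaf false
      | some q => DT.leaf (c q)) (M x)).eval O = v x) :
    ∃ T : Z → Q, (∀ z, c (T z) = κ z) ∧ ∀ A ∈ Fam, ∃ x, (A x).eval (patch pos rd O T) ≠ v x := by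
  rcases ext_lemma pos rd O v κ c Fam B hB hF hX hQ with h | h | h
  · exact h
  · exfalso
    obtain ⟨A, hA, ρ, hρ, rs, h1, h2, h3⟩ := h
    obtain ⟨x, hx⟩ := hard (fun x => DT.maj (rs.map fun r => sim pos rd (A x) ρ r))
      (Or.inl ⟨A, hA, ρ, hρ, rs, h1, h2, rfl⟩)
    exact hx (h3 x)
  · exfalso
    obtain ⟨l, hl, hT, θ, hθ, hc⟩ := h
    obtain ⟨x, hx⟩ := hard (fun x => DT.tr (fun w => match qf w with
      | none => DT.leaf false
      | some q => DT.thr (l.map fun t => t.tree pos rd q) θ) (M x))
      (Or.inr ⟨l, hl, hT, θ, hθ, rfl⟩)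
    apply hx
    rw [← hM x, DT.eval_tr, DT.eval_tr]
    congr 2
    funext w
    cases hq : qf w with
    | none => rfl
    | some q =>
      rw [step_thr_eval, DT.eval_leaf, hc q]

theorem step_sim_const {Z Q ι : Type} [DecidableEq Z] (pos : List Bool → Option (Z × ι))
    (rd : Q → ι → Bool) (O : Lang) (q0 : Q) (t : DT Bool) :
    ∀ (ρ : List (Z × Q)) (k : ℕ), (∀ z q, ρ.lookup z = some q → q = q0) → t.depth ≤ k →
      (sim pos rd t ρ (List.replicate k q0)).eval O = t.eval (patch pos rd O fun _ => q0) := by
  induction t with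
  | leaf b => intro ρ k _ _; rfl
  | node w n0 n1 h0 h1 =>
    intro ρ k hρ hk
    rw [DT.depth_node] at hk
    rw [sim, DT.eval_node]
    cases hp : pos w with
    | none =>
      simp only [DT.eval_node, patch, hp]
      rw [h0 ρ k hρ (by omega), h1 ρ k hρ (by omega)]
    | some p =>
      obtain ⟨z, i⟩ := p
      have e : patch pos rd O (fun _ => q0) w = rd q0 i := by simp only [patch, hp]
      rw [e]
      cases hl : ρ.lookup z with
      | some q =>
        have := hρ z q hl
        subst this
        simp only [hl]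
        by_cases hr : rd q i = true
        · simp only [hr, if_true]; exact h1 ρ k hρ (by omega)
        · simp only [hr]; exact h0 ρ k hρ (by omega)
      | none =>
        obtain ⟨k', rfl⟩ : ∃ k', k = k' + 1 := ⟨k - 1, by omega⟩
        have hρ' : ∀ z' q, ((z, q0) :: ρ).lookup z' = some q → q = q0 := by
          intro z' q hz
          rw [List.lookup_cons] at hz
          split at hz
          · exact (Option.some.inj hz).symm
          · exact hρ z' q hz
        simp only [hl, List.replicate_succ]
        by_cases hr : rd q0 i = true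
        · simp only [hr, if_true]; exact h1 _ k' hρ' (by omega)
        · simp only [hr]; exact h0 _ k' hρ' (by omega)

theorem step_const {X Z Q ι : Type} [Fintype X] [Fintype Z] [DecidableEq Z] [Fintype Q]
    [DecidableEq Q] (pos : List Bool → Option (Z × ι)) (rd : Q → ι → Bool)
    (qf : List Bool → Option Q) (M : X → DT Bool) (O : Lang)
    (v : X → Bool) (Fam : Set (X → DT Bool)) (B : ℕ) (hF : Small B Fam)
    (hard : ∀ A ∈ Next pos rd qf M B Fam, ∃ x, (A x).eval O ≠ v x) (q0 : Q) :
    ∀ A ∈ Fam, ∃ x, (A x).eval (patch pos rd O fun _ => q0) ≠ v x := by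
  intro A hA
  obtain ⟨x, hx⟩ := hard (fun x => DT.maj ((List.replicate (2 * B + 1)
      (List.replicate B q0)).map fun r => sim pos rd (A x) [] r))
    (Or.inl ⟨A, hA, [], Nat.zero_le _, List.replicate (2 * B + 1) (List.replicate B q0),
      List.length_replicate, fun r hr => by
        rw [List.eq_of_mem_replicate hr]; exact List.length_replicate, rfl⟩)
  refine ⟨x, fun h => hx ?_⟩
  have e : (sim pos rd (A x) [] (List.replicate B q0)).eval O =
      (A x).eval (patch pos rd O fun _ => q0) :=
    step_sim_const pos rd O q0 (A x) [] B (by intro z q hz; simp at hz) (hF.2.2 A hA x)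
  simp only [DT.eval_maj, List.map_replicate, List.length_replicate, List.countP_replicate, e, h]
  cases v x
  · simp
  · simp

end Pool.Agent.CK
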