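import Pool.Agent.Lib_helper74.CKF.PM

/-!
# Block TREE
-/

set_option autoImplicit false

namespace Pool.Agent.CK

variable {Z Q ι : Type} [Fintype Z] [DecidableEq Z] [Fintype Q] [DecidableEq Q]

omit [Fintype Z] [DecidableEq Z] [Fintype Q] [DecidableEq Q] in
theorem tree_eval_none (pos : List Bool → Option (Z × ι)) (rd : Q → ι → Bool) (O : Lang)
    (w : List Bool) (n0 n1 : DT Bool) (h : pos w = none) (T : Z → Q) :
    (DT.node w n0 n1).eval (patch pos rd O T) =
      (if O w = true then n1 else n0).eval (patch pos rd O T) := by
  rw [DT.eval_node]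
  have : patch pos rd O T w = O w := by
    unfold patch
    rw [h]
  rw [this]
  split_ifs <;> rfl

omit [Fintype Z] [DecidableEq Z] [Fintype Q] [DecidableEq Q] in
theorem tree_eval_some (pos : List Bool → Option (Z × ι)) (rd : Q → ι → Bool) (O : Lang)
    (w : List Bool) (n0 n1 : DT Bool) {z : Z} {i : ι} (h : pos w = some (z, i)) (T : Z → Q) {q : Q}
    (hT : T z = q) : (DT.node w n0 n1).eval (patch pos rd O T) =
      (if rd q i = true then n1 else n0).eval (patch pos rd O T) := by
  rw [DT.eval_node]
  have : patch pos rd O T w = rd q i := by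
    unfold patch
    rw [h]
    simp only [hT]
  rw [this]
  split_ifs <;> rfl

/-- TREE -/
theorem tree_lemma {μ : Z → Q → ℝ} (hμ : IsPD μ) (pos : List Bool → Option (Z × ι))
    (rd : Q → ι → Bool) (O : Lang) (E : (Z → Q) → Bool) (F : Bool → (Z → Q) → Bool) (B : ℝ) (L : ℕ)
    (hleaf : ∀ (β : Bool) (ρ : List (Z × Q)), ρ.length ≤ L →
      Pr μ ρ (fun T => ind (E T && F β T)) ≤ B * Pr μ ρ (fun T => ind (F β T)))
    (t : DT Bool) (ρ : List (Z × Q)) (h : ρ.length + t.depth ≤ L) :
    Pr μ ρ (fun T => ind (E T && F (t.eval (patch pos rd O T)) T)) ≤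
      B * Pr μ ρ (fun T => ind (F (t.eval (patch pos rd O T)) T)) := by
  induction t generalizing ρ with
  | leaf b =>
    simp only [DT.eval_leaf]
    exact hleaf b ρ (by simpa using h)
  | node w n0 n1 h0 h1 =>
    -- the induction hypothesis for a child
    have hchild : ∀ (b : Bool) (ρ' : List (Z × Q)), ρ'.length ≤ ρ.length + 1 →
        Pr μ ρ' (fun T => ind (E T && F ((if b = true then n1 else n0).eval
          (patch pos rd O T)) T)) ≤
        B * Pr μ ρ' (fun T => ind (F ((if b = true then n1 else n0).eval
          (patch pos rd O T)) T)) := by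
      intro b ρ' hρ'
      rw [DT.depth_node] at h
      cases b with
      | true =>
        simp only [if_true]
        exact h1 ρ' (by omega)
      | false =>
        simp only [Bool.false_eq_true, if_false]
        exact h0 ρ' (by omega)
    cases hp : pos w with
    | none =>
      have e : ∀ T : Z → Q, (DT.node w n0 n1).eval (patch pos rd O T) =
        (if O w = true then n1 else n0).eval (patch pos rd O T) :=
        fun T => tree_eval_none pos rd O w n0 n1 hp T
      simp only [e]
      exact hchild (O w) ρ (by omega)
    | some p =>
      obtain ⟨z, i⟩ := p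
      cases hl : ρ.lookup z with
      | some q =>
        rw [Pr_congr μ ρ (G := fun T => ind (E T && F ((if rd q i = true then n1 else n0).eval
            (patch pos rd O T)) T)) (fun T hT => by
              rw [tree_eval_some pos rd O w n0 n1 hp T (hT z q hl)]),
          Pr_congr μ ρ (F := fun T => ind (F ((DT.node w n0 n1).eval (patch pos rd O T)) T))
            (G := fun T => ind (F ((if rd q i = true then n1 else n0).eval
            (patch pos rd O T)) T)) (fun T hT => by
              rw [tree_eval_some pos rd O w n0 n1 hp T (hT z q hl)])]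
        exact hchild (rd q i) ρ (by omega)
      | none =>
        rw [Pr_reveal μ ρ z hl, Pr_reveal μ ρ z hl (fun T => ind (F ((DT.node w n0 n1).eval
          (patch pos rd O T)) T)), Finset.mul_sum]
        refine Finset.sum_le_sum fun q _ => ?_
        have hself : ((z, q) :: ρ).lookup z = some q := by simp
        rw [Pr_congr μ ((z, q) :: ρ) (G := fun T => ind (E T &&
            F ((if rd q i = true then n1 else n0).eval (patch pos rd O T)) T)) (fun T hT => by
              rw [tree_eval_some pos rd O w n0 n1 hp T (hT z q hself)]),
          Pr_congr μ ((z, q) :: ρ) (F := fun T => ind (F ((DT.node w n0 n1).eval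
            (patch pos rd O T)) T))
            (G := fun T => ind (F ((if rd q i = true then n1 else n0).eval
            (patch pos rd O T)) T)) (fun T hT => by
              rw [tree_eval_some pos rd O w n0 n1 hp T (hT z q hself)])]
        have h2 := hchild (rd q i) ((z, q) :: ρ) (by simp)
        have h3 := mul_le_mul_of_nonneg_left h2 ((hμ z).1 q)
        linarith

end Pool.Agent.CK
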